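import Pool.Agent.HopfTw.Defs
import Pool.Agent.HopfFin.Isom

/-!
# Elementary properties
-/

set_option autoImplicit false

open scoped ContDiff Topology
open Set Filter Metric

namespace Pool.Agent.HopfTw

open Pool.Agent.HopfCov hiding pr
open Pool.Agent.HopfFin

/-! ### the isometry -/

theorem Rf_refl : Rf (LinearIsometryEquiv.refl ℝ E4) := ⟨fun _ => rfl, rfl, rfl, rfl⟩

theorem r3_apply (x : E4) (i : Fin 4) : r3 x i = if i = 3 then - x 3 else x i := by
  rw [r3, Submodule.reflection_orthogonal_apply, Submodule.reflection_singleton_apply]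
  simp only [PiLp.norm_single, norm_one, one_pow, div_one,
    PiLp.neg_apply, PiLp.sub_apply, PiLp.smul_apply, EuclideanSpace.inner_single_left,
    map_one, one_mul, PiLp.single_apply, smul_eq_mul]
  split_ifs with h
  · subst h
    simp
    ring
  · simp

theorem Rf_r3 : Rf r3 := by
  refine ⟨fun x => Submodule.reflection_reflection _ x, ?_, ?_, ?_⟩
  · ext i
    rw [r3_apply]
    fin_cases i <;> simp [e0]
  · ext i
    rw [r3_apply]
    fin_cases i <;> simp [e1]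
  · ext i
    rw [r3_apply]
    fin_cases i <;> simp [e2]

theorem det_r3 : (r3.toContinuousLinearEquiv : E4 →L[ℝ] E4).det < 0 := by
  have hv : (EuclideanSpace.single 3 1 : E4) ≠ 0 := by
    intro h
    have := congrArg (fun z : E4 => z 3) h
    simp at this
  have h1 : (r3.toContinuousLinearEquiv : E4 →L[ℝ] E4).det = -1 := by
    have h2 := (ℝ ∙ (EuclideanSpace.single 3 1 : E4))ᗮ.det_reflection
    rw [Submodule.orthogonal_orthogonal, finrank_span_singleton hv, pow_one] at h2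
    exact h2
  rw [h1]
  norm_num

/-- `r` preserves the first three coordinates -/
theorem Rf.apply_zero {r : E4 ≃ₗᵢ[ℝ] E4} (hr : Rf r) (x : E4) : r x 0 = x 0 := by
  have h := r.inner_map_map e0 x
  rw [hr.fix0] at h
  simpa [e0, EuclideanSpace.inner_single_left] using h

theorem Rf.apply_one {r : E4 ≃ₗᵢ[ℝ] E4} (hr : Rf r) (x : E4) : r x 1 = x 1 := by
  have h := r.inner_map_map e1 x
  rw [hr.fix1] at h
  simpa [e1, EuclideanSpace.inner_single_left] using h

theorem Rf.apply_two {r : E4 ≃ₗᵢ[ℝ] E4} (hr : Rf r) (x : E4) : r x 2 = x 2 := by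
  have h := r.inner_map_map e2 x
  rw [hr.fix2] at h
  simpa [e2, EuclideanSpace.inner_single_left] using h

/-- `r = 1` or `r` is the reflection in the last coordinate -/
theorem Rf.eq_or {r : E4 ≃ₗᵢ[ℝ] E4} (hr : Rf r) :
    r = LinearIsometryEquiv.refl ℝ E4 ∨ r = r3 := by
  have h0 := hr.apply_zero (EuclideanSpace.single 3 1)
  have h1 := hr.apply_one (EuclideanSpace.single 3 1)
  have h2 := hr.apply_two (EuclideanSpace.single 3 1)
  have s0 : (EuclideanSpace.single 3 1 : E4) 0 = 0 := by simp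
  have s1 : (EuclideanSpace.single 3 1 : E4) 1 = 0 := by simp
  have s2 : (EuclideanSpace.single 3 1 : E4) 2 = 0 := by simp
  rw [s0] at h0
  rw [s1] at h1
  rw [s2] at h2
  have hn : ‖r (EuclideanSpace.single 3 1)‖ ^ 2 = 1 := by
    rw [r.norm_map]
    simp
  rw [EuclideanSpace.norm_sq_eq, Fin.sum_univ_four, h0, h1, h2] at hn
  set c : ℝ := r (EuclideanSpace.single 3 1) 3 with hc
  have hcc : c * c = 1 := by
    rw [norm_zero, Real.norm_eq_abs, sq_abs] at hn
    nlinarith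
  have key : ∀ x : E4, r x 3 = c * x 3 := by
    intro x
    have h := r.inner_map_map (EuclideanSpace.single 3 1) x
    rw [EuclideanSpace.inner_single_left, PiLp.inner_apply, Fin.sum_univ_four, h0, h1, h2,
      ← hc] at h
    simp only [RCLike.inner_apply, conj_trivial, map_one, one_mul, map_zero, mul_zero,
      zero_add] at h
    calc r x 3 = (c * c) * r x 3 := by rw [hcc, one_mul]
      _ = c * (r x 3 * c) := by ring
      _ = c * x 3 := by rw [h]
  have hc1 : c = 1 ∨ c = -1 := mul_self_eq_one_iff.1 hcc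
  rcases hc1 with h | h
  · left
    ext x i
    fin_cases i
    · exact hr.apply_zero x
    · exact hr.apply_one x
    · exact hr.apply_two x
    · show r x 3 = x 3
      rw [key, h, one_mul]
  · right
    ext x i
    rw [r3_apply]
    fin_cases i
    · simpa using hr.apply_zero x
    · simpa using hr.apply_one x
    · simpa using hr.apply_two x
    · show r x 3 = _
      rw [key, h]
      simp

theorem Rf.pr {r : E4 ≃ₗᵢ[ℝ] E4} (hr : Rf r) (x : E4) : pr (r x) = r (pr x) := by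
  unfold HopfFin.pr
  rw [map_sub, map_smul, hr.fix0, hr.apply_zero]

theorem Rf.lam {r : E4 ≃ₗᵢ[ℝ] E4} (hr : Rf r) (s : ℝ) (x : E4) :
    lam s (r x) = r (lam s x) := by
  rcases hr.eq_or with h | h
  · subst h
    rfl
  · subst h
    ext i
    rw [r3_apply]
    fin_cases i <;> simp [HopfFin.lam, r3_apply]

theorem Rf.mem_Cone {r : E4 ≃ₗᵢ[ℝ] E4} (hr : Rf r) {δ : ℝ} {x : E4} (hx : x ∈ Cone δ) :
    r x ∈ Cone δ := by
  show ‖HopfFin.pr (r x)‖ ≤ δ * r x 0
  rw [hr.pr, r.norm_map, hr.apply_zero]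
  exact hx

theorem Rf.symm_eq {r : E4 ≃ₗᵢ[ℝ] E4} (hr : Rf r) (x : E4) : r.symm x = r x := by
  rw [← hr.sq (r.symm x), LinearIsometryEquiv.apply_symm_apply]

/-! ### the group of the equivariant diffeomorphisms -/

private theorem twb_scale {r : E4 ≃ₗᵢ[ℝ] E4} {F : E4 → E4}
    (he : ∀ x, F ((2⁻¹ : ℝ) • r x) = (2⁻¹ : ℝ) • r (F x)) {x : E4} (hx : x ≠ 0) :
    ∃ z : E4, 1 ≤ ‖z‖ ∧ ‖z‖ ≤ 2 ∧ ∃ p : ℝ, 0 < p ∧ ‖x‖ = p * ‖z‖ ∧ ‖F x‖ = p * ‖F z‖ := by
  have hF : ∀ (n : ℕ) (y : E4), F ((tauL r ^ n) y) = (tauL r ^ n) (F y) := by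
    intro n
    induction n with
    | zero => intro y; rfl
    | succ n ih =>
      intro y
      rw [pow_succ', mul_apply', mul_apply', ← ih]
      exact he _
  have hxn : 0 < ‖x‖ := norm_pos_iff.2 hx
  obtain ⟨n, hn1, hn2⟩ := exists_mem_Ico_zpow hxn (by norm_num : (1 : ℝ) < 2)
  rcases Int.eq_nat_or_neg n with ⟨m, rfl | rfl⟩
  · refine ⟨(tauL r ^ m) x, ?_, ?_, (2 : ℝ) ^ m, by positivity, ?_, ?_⟩
    · rw [norm_tauL_pow, inv_pow, inv_mul_eq_div, one_le_div (by positivity)]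
      simpa using hn1
    · rw [norm_tauL_pow, inv_pow, inv_mul_eq_div, div_le_iff₀ (by positivity)]
      rw [zpow_add_one₀ (by norm_num), zpow_natCast] at hn2
      linarith
    · rw [norm_tauL_pow, inv_pow, ← mul_assoc, mul_inv_cancel₀ (by positivity), one_mul]
    · rw [hF, norm_tauL_pow, inv_pow, ← mul_assoc, mul_inv_cancel₀ (by positivity), one_mul]
  · have h1 : ∀ y : E4, ‖((tauL r ^ m)⁻¹ : E4 ≃ₜ E4) y‖ = (2 : ℝ) ^ m * ‖y‖ := by
      intro y
      have h2 := norm_tauL_pow r m (((tauL r ^ m)⁻¹ : E4 ≃ₜ E4) y)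
      rw [apply_inv_self', inv_pow] at h2
      rw [h2, ← mul_assoc, mul_inv_cancel₀ (by positivity), one_mul]
    have h3 : F (((tauL r ^ m)⁻¹ : E4 ≃ₜ E4) x) = ((tauL r ^ m)⁻¹ : E4 ≃ₜ E4) (F x) := by
      apply (tauL r ^ m).injective
      rw [← hF, apply_inv_self', apply_inv_self']
    rw [zpow_neg, zpow_natCast] at hn1
    rw [zpow_add_one₀ (by norm_num), zpow_neg, zpow_natCast] at hn2
    have hp : (0 : ℝ) < (2 : ℝ) ^ m := by positivity
    refine ⟨((tauL r ^ m)⁻¹ : E4 ≃ₜ E4) x, ?_, ?_, ((2 : ℝ) ^ m)⁻¹, by positivity, ?_, ?_⟩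
    · rw [h1]
      have h4 := mul_le_mul_of_nonneg_left hn1 hp.le
      rwa [mul_inv_cancel₀ hp.ne'] at h4
    · rw [h1]
      have h4 := mul_le_mul_of_nonneg_left hn2.le hp.le
      rwa [← mul_assoc, mul_inv_cancel₀ hp.ne', one_mul] at h4
    · rw [h1, ← mul_assoc, inv_mul_cancel₀ hp.ne', one_mul]
    · rw [h3, h1, ← mul_assoc, inv_mul_cancel₀ hp.ne', one_mul]

/-- upper and lower bounds of an equivariant map -/
private theorem twb_bounds {r : E4 ≃ₗᵢ[ℝ] E4} {F : E4 → E4} (hi : Function.Injective F)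
    (h0 : F 0 = 0) (hc : ∀ x, x ≠ 0 → ContinuousAt F x)
    (he : ∀ x, F ((2⁻¹ : ℝ) • r x) = (2⁻¹ : ℝ) • r (F x)) :
    ∃ c C : ℝ, 0 < c ∧ ∀ x, ‖F x‖ ≤ C * ‖x‖ ∧ c * ‖x‖ ≤ ‖F x‖ := by
  set K : Set E4 := closedBall 0 2 \ ball 0 1 with hK
  have hKc : IsCompact K := (isCompact_closedBall _ _).diff isOpen_ball
  have hK0 : ∀ x ∈ K, x ≠ 0 := by
    rintro x hx rfl
    exact hx.2 (mem_ball_self one_pos)
  have hFc : ContinuousOn F K := fun x hx => (hc x (hK0 x hx)).continuousWithinAt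
  have hKne : K.Nonempty := by
    refine ⟨EuclideanSpace.single 0 1, ?_, ?_⟩
    · simp
    · simp
  obtain ⟨a, haK, ha⟩ := hKc.exists_isMinOn hKne hFc.norm
  obtain ⟨b, hbK, hb⟩ := hKc.exists_isMaxOn hKne hFc.norm
  have ha0 : 0 < ‖F a‖ := by
    rw [norm_pos_iff]
    intro h1
    exact hK0 a haK (hi (h1.trans h0.symm))
  refine ⟨‖F a‖ / 2, ‖F b‖, by positivity, fun x => ?_⟩
  by_cases hx : x = 0
  · subst hx
    rw [h0]
    simp
  obtain ⟨z, hz1, hz2, p, hp, hx1, hx2⟩ := twb_scale he hx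
  have hzK : z ∈ K := by
    refine ⟨by rwa [mem_closedBall_zero_iff], ?_⟩
    rw [mem_ball_zero_iff, not_lt]
    exact hz1
  have h3 : ‖F z‖ ≤ ‖F b‖ := hb hzK
  have h4 : ‖F a‖ ≤ ‖F z‖ := ha hzK
  rw [hx1, hx2]
  constructor
  · calc p * ‖F z‖ ≤ p * ‖F b‖ := by gcongr
      _ = ‖F b‖ * (p * 1) := by ring
      _ ≤ ‖F b‖ * (p * ‖z‖) := by gcongr
  · calc ‖F a‖ / 2 * (p * ‖z‖) ≤ ‖F a‖ / 2 * (p * 2) := by gcongr
      _ = p * ‖F a‖ := by ring
      _ ≤ p * ‖F z‖ := by gcongr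

/-- compare `mk_Pz` in `HopfFin/Basic.lean` -/
theorem mk_Pr {r : E4 ≃ₗᵢ[ℝ] E4} (F : E4 → E4) (hb : Function.Bijective F) (h0 : F 0 = 0)
    (hs : ∀ x, x ≠ 0 → ContDiffAt ℝ ∞ F x ∧ (fderiv ℝ F x).det ≠ 0)
    (he : ∀ x, F ((2⁻¹ : ℝ) • r x) = (2⁻¹ : ℝ) • r (F x)) :
    ∃ h : E4 ≃ₜ E4, Pr r h ∧ ∀ x, h x = F x := by
  obtain ⟨c, C, hc, hb'⟩ := twb_bounds hb.1 h0 (fun x hx => (hs x hx).1.continuousAt) he
  set e : E4 ≃ E4 := Equiv.ofBijective F hb with hedef
  have heF : ∀ x, e x = F x := fun x => rfl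
  have hcont : Continuous F := by
    rw [continuous_iff_continuousAt]
    intro x
    by_cases hx : x = 0
    · subst hx
      rw [ContinuousAt, h0]
      refine squeeze_zero_norm (fun y => (hb' y).1) ?_
      have h1 : Tendsto (fun y : E4 => C * ‖y‖) (𝓝 0) (𝓝 (C * ‖(0 : E4)‖)) :=
        (continuous_const.mul continuous_norm).tendsto 0
      simpa using h1
    · exact (hs x hx).1.continuousAt
  have hsymm : Continuous e.symm := by
    rw [continuous_iff_continuousAt]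
    intro y
    by_cases hy : y = 0
    · subst hy
      have he0 : e.symm 0 = 0 := by rw [Equiv.symm_apply_eq]; exact h0.symm
      rw [ContinuousAt, he0]
      have hbd : ∀ y, ‖e.symm y‖ ≤ c⁻¹ * ‖y‖ := by
        intro y
        have h1 := (hb' (e.symm y)).2
        have h2 : F (e.symm y) = y := e.apply_symm_apply y
        rw [h2] at h1
        rw [inv_mul_eq_div, le_div_iff₀ hc]
        linarith
      refine squeeze_zero_norm hbd ?_
      have h1 : Tendsto (fun y : E4 => c⁻¹ * ‖y‖) (𝓝 0) (𝓝 (c⁻¹ * ‖(0 : E4)‖)) :=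
        (continuous_const.mul continuous_norm).tendsto 0
      simpa using h1
    · set x := e.symm y with hx
      have hxy : F x = y := e.apply_symm_apply y
      have hx0 : x ≠ 0 := by
        intro h1
        rw [h1, h0] at hxy
        exact hy hxy.symm
      obtain ⟨h1, h2⟩ := hs x hx0
      set A : E4 ≃L[ℝ] E4 := (fderiv ℝ F x).toContinuousLinearEquivOfDetNeZero h2 with hA
      have hAc : (A : E4 →L[ℝ] E4) = fderiv ℝ F x := by
        rw [hA]; exact ContinuousLinearMap.coe_toContinuousLinearEquivOfDetNeZero _ _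
      have hstr : HasStrictFDerivAt F (A : E4 →L[ℝ] E4) x := by
        rw [hAc]
        exact h1.hasStrictFDerivAt (by simp)
      have hmap : map F (𝓝 x) = 𝓝 (F x) := hstr.map_nhds_eq_of_equiv
      rw [ContinuousAt, ← hx, ← hxy, ← hmap, tendsto_map'_iff]
      have h3 : (fun y => e.symm y) ∘ F = id := by
        funext z
        exact e.symm_apply_apply z
      exact (by rw [show (⇑e.symm ∘ F) = id from h3]; exact tendsto_id)
  refine ⟨⟨e, hcont, hsymm⟩, ⟨⟨h0, hs⟩, he⟩, fun x => rfl⟩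

theorem Pr.one (r : E4 ≃ₗᵢ[ℝ] E4) : Pr r 1 := ⟨Sm.one, fun _ => rfl⟩

theorem Pr.mul {r : E4 ≃ₗᵢ[ℝ] E4} {g h : E4 ≃ₜ E4} (hg : Pr r g) (hh : Pr r h) : Pr r (g * h) :=
  ⟨hg.sm.mul hh.sm, fun x => by
    rw [mul_apply', mul_apply', hh.eqv, hg.eqv]⟩

theorem Pr.inv {r : E4 ≃ₗᵢ[ℝ] E4} {h : E4 ≃ₜ E4} (hh : Pr r h) : Pr r h⁻¹ :=
  ⟨hh.sm.inv, fun x => h.injective (by
    rw [apply_inv_self', hh.eqv, apply_inv_self'])⟩

theorem Pr.comm {r : E4 ≃ₗᵢ[ℝ] E4} {h : E4 ≃ₜ E4} (hh : Pr r h) :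
    h * tauL r = tauL r * h := Homeomorph.ext hh.eqv

theorem Pr.pow {r : E4 ≃ₗᵢ[ℝ] E4} {h : E4 ≃ₜ E4} (hh : Pr r h) (n : ℕ) : Pr r (h ^ n) := by
  induction n with
  | zero => simpa using Pr.one r
  | succ n ih => rw [pow_succ]; exact ih.mul hh

theorem Pr_of_comm {r : E4 ≃ₗᵢ[ℝ] E4} {h : E4 ≃ₜ E4} (hh : Sm h)
    (hc : h * tauL r = tauL r * h) : Pr r h :=
  ⟨hh, fun x => DFunLike.congr_fun hc x⟩

/-- an element of `Pz` which commutes with `r` -/
theorem Pr_of_Pz {r : E4 ≃ₗᵢ[ℝ] E4} {h : E4 ≃ₜ E4} (hh : Pz h) (hc : ∀ x, h (r x) = r (h x)) :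
    Pr r h := ⟨hh.sm, fun x => by rw [hh.eqv, hc]⟩

theorem Sm_linH (L : E4 ≃ₗᵢ[ℝ] E4) : Sm (linH L) := (isom_pz L).sm

theorem Pr_linH {r : E4 ≃ₗᵢ[ℝ] E4} : Pr r (linH r) := Pr_of_Pz (isom_pz r) fun _ => rfl

theorem Pr_lamH {r : E4 ≃ₗᵢ[ℝ] E4} (hr : Rf r) (s : ℝ) : Pr r (lamH s) :=
  Pr_of_Pz (lamH_pz s) fun x => hr.lam s x

theorem Sm_tauL (r : E4 ≃ₗᵢ[ℝ] E4) : Sm (tauL r) := by
  refine Sm.mul (h := linH r) (g := lamH 1) (lamH_pz 1).sm (Sm_linH r) |> fun h => ?_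
  have h1 : tauL r = lamH 1 * linH r := Homeomorph.ext fun x => by
    rw [mul_apply', linH_apply, lamH_apply, lam_one, tauL_apply]
  rw [h1]
  exact h

/-- even powers of the model contraction -/
theorem tauL_even {r : E4 ≃ₗᵢ[ℝ] E4} (hr : Rf r) {n : ℕ} (hn : Even n) :
    tauL r ^ n = (tau : E4 ≃ₜ E4) ^ n := by
  obtain ⟨k, rfl⟩ := hn
  have h1 : tauL r * tauL r = (tau : E4 ≃ₜ E4) * tau := Homeomorph.ext fun x => by
    rw [mul_apply', mul_apply', tauL_apply, tauL_apply, tau_apply, tau_apply, map_smul, hr.sq]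
  rw [← two_mul, pow_mul, pow_mul, pow_two, pow_two, h1]

/-- there is a linear isometry which commutes with `r` and maps a given fixed unit vector to `e0`
(the reflection in the hyperplane orthogonal to `q - e0`) -/
theorem exists_isom_r {r : E4 ≃ₗᵢ[ℝ] E4} (hr : Rf r) (q : E4) (hq : ‖q‖ = 1) (hrq : r q = q) :
    ∃ L : E4 ≃ₗᵢ[ℝ] E4, L q = e0 ∧ ∀ x, L (r x) = r (L x) := by
  have h0 : ‖e0‖ = 1 := by simp [e0]
  refine ⟨(ℝ ∙ (q - e0))ᗮ.reflection, Submodule.reflection_sub (hq.trans h0.symm), fun x => ?_⟩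
  have hu : r (q - e0) = q - e0 := by rw [map_sub, hrq, hr.fix0]
  have h1 : inner ℝ (q - e0) (r x) = inner ℝ (q - e0) x := by
    conv_lhs => rw [← hu]
    exact r.inner_map_map _ _
  rw [Submodule.reflection_orthogonal_apply, Submodule.reflection_singleton_apply,
    Submodule.reflection_orthogonal_apply, Submodule.reflection_singleton_apply, h1]
  simp only [map_neg, map_sub, map_smul, map_nsmul, hu]

/-- a permutation of the coordinates conjugates the reference contraction `TT` (reflection in the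
first coordinate) to `tauL r3`, and maps `e1` to `e0` -/
theorem exists_perm : ∃ L : E4 ≃ₗᵢ[ℝ] E4, L e1 = e0 ∧ linH L * TT = tauL r3 * linH L := by
  set L : E4 ≃ₗᵢ[ℝ] E4 := LinearIsometryEquiv.piLpCongrLeft 2 ℝ ℝ (finRotate 4).symm with hL
  have hap : ∀ (x : E4) (i : Fin 4), L x i = x (finRotate 4 i) := fun x i => rfl
  refine ⟨L, ?_, ?_⟩
  · ext i
    rw [hap]
    fin_cases i <;> simp [e0, e1]
  · refine Homeomorph.ext fun x => ?_
    rw [mul_apply', mul_apply', linH_apply, linH_apply, tauL_apply, TT, tauL_apply, map_smul]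
    congr 1
    ext i
    rw [hap, r3_apply, Smooth.refl0_apply, hap, hap]
    fin_cases i <;> simp

theorem Cj_TT : Cj TT (tauL r3) := by
  obtain ⟨L, -, h⟩ := exists_perm
  exact ⟨linH L, Sm_linH L, h⟩

end Pool.Agent.HopfTw
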