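import Pool.Agent.HopfTw.Statement
import Pool.Agent.HopfFin.OffIn
import Pool.Agent.HopfFin.Lam

/-!
# Manifolds which are standard off one point are in the class `T`

Plan: as `inS_of_offPoint` in `HopfFin/OffIn.lean`, with `almost_neg` instead of `almost_pos`. The
homeomorphism `F : M ≃ₜ X` is a local diffeomorphism off one point `x₀`. The circle of `NearSection`
must avoid `F x₀`: if `F x₀` is on it, compose the orbit map `p` of `X` with the screw motion
`lamH (1/2)`, which commutes with `rho` and maps the ray through `e1` to the opposite ray; the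
images of the two rays under `p` are disjoint.
-/

set_option autoImplicit false

open scoped ContDiff Topology Manifold
open Set Filter Metric

namespace Pool.Agent.HopfTw

open Pool.Agent.HopfCov hiding pr
open Pool.Agent.HopfFin
open Pool.Agent.HopfCov.Smooth

/-- the generator, as a homeomorphism -/
private noncomputable def oiR : E4 ≃ₜ E4 := rho

private theorem oiR_apply (z : E4) : oiR z = halfReflection z := rfl

private theorem oiR_pow_one (n : ℕ) (z : E4) : ((oiR ^ n) z) 1 = z 1 / 2 ^ n := by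
  induction n with
  | zero =>
    rw [pow_zero, pow_zero, div_one]
    rfl
  | succ n ih =>
    rw [pow_succ', mul_apply', oiR_apply, pow_succ, ← div_div, ← ih]
    simp [halfReflection]

private theorem oiR_zpow_pos (n : ℤ) (z : E4) (hz : 0 < z 1) : 0 < ((oiR ^ n) z) 1 := by
  rcases Int.eq_nat_or_neg n with ⟨m, rfl | rfl⟩
  · rw [zpow_natCast, oiR_pow_one]
    positivity
  · have h1 := oiR_pow_one m ((oiR ^ (-(m : ℤ))) z)
    have h2 : (oiR ^ m) ((oiR ^ (-(m : ℤ))) z) = z := by
      rw [zpow_neg, zpow_natCast, apply_inv_self']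
    rw [h2] at h1
    have h3 : (0 : ℝ) < 2 ^ m := by positivity
    rw [h1] at hz
    rw [div_pos_iff_of_pos_right h3] at hz
    exact hz

private theorem oi_lam (z : E4) : lam (1 / 2) z = (2 : ℝ) ^ (-(1 / 2 : ℝ)) •
    WithLp.toLp 2 ![z 0, - z 1, - z 2, z 3] := by
  have h1 : 2 * Real.pi * (1 / 2) = Real.pi := by ring
  rw [lam, h1, Real.cos_pi, Real.sin_pi]
  congr 2
  ext i
  fin_cases i <;> simp

private theorem oi_comm : lamH (1 / 2) * oiR = oiR * lamH (1 / 2) := by
  refine Homeomorph.ext fun z => ?_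
  rw [mul_apply', mul_apply', lamH_apply, lamH_apply, oiR_apply, oiR_apply, oi_lam, oi_lam]
  ext i
  fin_cases i <;> simp [halfReflection] <;> ring

private theorem oi_comm_restr {g φ : V4 ≃ₜ V4} (hg : Extends oiR g)
    (hφ : Extends (lamH (1 / 2)) φ) : φ * g = g * φ := by
  have h1 := hφ.mul hg
  have h2 := hg.mul hφ
  rw [← oi_comm] at h2
  exact h1.eq_of h2

theorem inT_of_offPoint {M X : Mfd4} (hX : TwistedProduct X) (hM : AlmostDiffeo M X) :
    InT M := by
  obtain ⟨p, G, hG, -⟩ := (almost_neg hX).1 hM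
  have h0 := orbit_eq.1 hG
  refine ⟨?_, p, h0.cov, h0.loc⟩
  obtain ⟨F, x₀, hF⟩ := (almost_off (Or.inr hX)).1 hM
  obtain ⟨pX, hpX⟩ := hX
  have h1 : IsOrbit X pX oiR := orbit_eq.1 hpX
  by_cases hcase : ∃ y : Punctured, OnRay (val y) ∧ pX y = F x₀
  · obtain ⟨a1, a2, h2, h3, -, g, hg, hp⟩ := h1.data
    obtain ⟨φ, hφ, hφl⟩ := exists_restr_PD (lamH_PD (1 / 2))
    have h4 : OrbitMap g (M := X.carrier) (fun y : V4 => pX (φ y)) :=
      hp.conj hφl (oi_comm_restr hg hφ)
    have h5 : IsOrbit X (fun y : Punctured => pX (φ y)) oiR := IsOrbit.mk' h4 hg h2 h3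
    refine ⟨X, fun y : Punctured => pX (φ y), F, orbit_eq.2 h5, ?_⟩
    intro x y hxy hy
    apply hF
    rintro rfl
    obtain ⟨y₁, hy₁, h6⟩ := hcase
    obtain ⟨n, hn⟩ := (h1.fib y₁ (φ y)).1 (h6.trans hxy)
    have h7 := oiR_zpow_pos n (val y₁) hy₁.2.1
    rw [← hn] at h7
    have h8 : val (φ y) = lam (1 / 2) (val y) := (hφ y).symm
    have h9 := hy.2.1
    rw [h8, oi_lam] at h7
    have h10 : (0 : ℝ) < (2 : ℝ) ^ (-(1 / 2 : ℝ)) := by positivity
    have h11 : (0 : ℝ) < (2 : ℝ) ^ (-(1 / 2 : ℝ)) * (- (val y) 1) := h7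
    nlinarith
  · refine ⟨X, pX, F, hpX, ?_⟩
    intro x y hxy hy
    apply hF
    rintro rfl
    exact hcase ⟨y, hy, hxy.symm⟩

end Pool.Agent.HopfTw
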