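import Pool.Agent.HopfTw.Basic
import Pool.Agent.HopfFin.Good

/-!
# Good topological conjugations

Plan: the proofs in `HopfFin/Good.lean`.
-/

set_option autoImplicit false

open scoped ContDiff Topology
open Set Filter Metric

namespace Pool.Agent.HopfTw

open Pool.Agent.HopfCov hiding pr
open Pool.Agent.HopfFin

private theorem gr_inv_zero {r : E4 ≃ₗᵢ[ℝ] E4} {G T : E4 ≃ₜ E4} (hT : GoodR r G T) :
    (T⁻¹ : E4 ≃ₜ E4) 0 = 0 := T.injective (by rw [apply_inv_self', hT.zero])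

private theorem gr_apply {r : E4 ≃ₗᵢ[ℝ] E4} {G T : E4 ≃ₜ E4} (hT : GoodR r G T) (x : E4) :
    T (G x) = (2⁻¹ : ℝ) • r (T x) := DFunLike.congr_fun hT.conj x

private theorem gr_e0_ne : e0 ≠ 0 := fun h => by
  have h1 := norm_e0
  rw [h, norm_zero] at h1
  exact zero_ne_one h1

private theorem gr_inv_ne {r : E4 ≃ₗᵢ[ℝ] E4} {G T : E4 ≃ₜ E4} (hT : GoodR r G T) {t : ℝ}
    (ht : 0 < t) : (T⁻¹ : E4 ≃ₜ E4) (t • e0) ≠ 0 := by
  intro h
  have h1 := congrArg T h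
  rw [apply_inv_self', hT.zero] at h1
  exact (smul_ne_zero ht.ne' gr_e0_ne) h1

private theorem gr_G_curve {r : E4 ≃ₗᵢ[ℝ] E4} (hr : Rf r) {G T : E4 ≃ₜ E4}
    (hT : GoodR r G T) (t : ℝ) :
    G ((T⁻¹ : E4 ≃ₜ E4) (t • e0)) = (T⁻¹ : E4 ≃ₜ E4) ((t / 2) • e0) := by
  apply T.injective
  rw [gr_apply hT, apply_inv_self', apply_inv_self', map_smul, hr.fix0, smul_smul]
  congr 1
  ring

private theorem gr_cont {r : E4 ≃ₗᵢ[ℝ] E4} {G T : E4 ≃ₜ E4} (hT : GoodR r G T) :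
    ContinuousOn (fun t : ℝ => (fderiv ℝ T ((T⁻¹ : E4 ≃ₜ E4) (t • e0))).det) (Ioi 0) := by
  intro t ht
  have h1 : ContDiffAt ℝ ∞ T ((T⁻¹ : E4 ≃ₜ E4) (t • e0)) := (hT.reg t ht).self_of_nhds.1
  have h2 : ContinuousAt (fderiv ℝ T) ((T⁻¹ : E4 ≃ₜ E4) (t • e0)) :=
    (h1.fderiv_right (m := 0) (by simp)).continuousAt
  have h3 : ContinuousAt (fun t : ℝ => (T⁻¹ : E4 ≃ₜ E4) (t • e0)) t :=
    ((T⁻¹ : E4 ≃ₜ E4).continuous.comp (continuous_id.smul continuous_const)).continuousAt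
  have h4 : ContinuousAt (fun t : ℝ => fderiv ℝ T ((T⁻¹ : E4 ≃ₜ E4) (t • e0))) t :=
    ContinuousAt.comp (f := fun t : ℝ => (T⁻¹ : E4 ≃ₜ E4) (t • e0)) h2 h3
  exact (ContinuousLinearMap.continuous_det.continuousAt.comp h4).continuousWithinAt

private theorem gr_sign {r : E4 ≃ₗᵢ[ℝ] E4} {G T : E4 ≃ₜ E4} (hT : GoodR r G T) {a b : ℝ}
    (ha : 0 < a) (hb : 0 < b) : 0 < (fderiv ℝ T ((T⁻¹ : E4 ≃ₜ E4) (a • e0))).det *
      (fderiv ℝ T ((T⁻¹ : E4 ≃ₜ E4) (b • e0))).det := by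
  by_contra hcon
  have hcon' := not_lt.1 hcon
  have hsub : uIcc a b ⊆ Ioi 0 := by
    intro t ht
    exact lt_of_lt_of_le (lt_min ha hb) ht.1
  have h1 := intermediate_value_uIcc ((gr_cont hT).mono hsub)
  have h2 : (0 : ℝ) ∈ uIcc ((fderiv ℝ T ((T⁻¹ : E4 ≃ₜ E4) (a • e0))).det)
      ((fderiv ℝ T ((T⁻¹ : E4 ≃ₜ E4) (b • e0))).det) := by
    rw [mem_uIcc]
    rcases mul_nonpos_iff.1 hcon' with h | h
    · exact Or.inr ⟨h.2, h.1⟩
    · exact Or.inl ⟨h.1, h.2⟩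
  obtain ⟨t, ht, h3⟩ := h1 h2
  exact (hT.reg t (hsub ht)).self_of_nhds.2 h3

/-- `G` reverses the orientation if `r` is the reflection: near the curve `T⁻¹ (t • e0)` one has
`DT (G x) DG x = r DT x / 2` -/
theorem GoodR.PD {G T : E4 ≃ₜ E4} (hG : Sm G) (hT : GoodR r3 G T) : PD (-1) G := by
  obtain ⟨s, hs, hPD⟩ := hG.exists_sign
  set x : E4 := (T⁻¹ : E4 ≃ₜ E4) ((1 : ℝ) • e0) with hx
  have hx0 : x ≠ 0 := gr_inv_ne hT one_pos
  have hGx : G x = (T⁻¹ : E4 ≃ₜ E4) ((1 / 2 : ℝ) • e0) := gr_G_curve Rf_r3 hT 1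
  have hTx : ContDiffAt ℝ ∞ T x := (hT.reg 1 one_pos).self_of_nhds.1
  have hTGx : ContDiffAt ℝ ∞ T (G x) := by
    rw [hGx]
    exact (hT.reg (1 / 2) (by norm_num)).self_of_nhds.1
  have d1 : HasFDerivAt T (fderiv ℝ T x) x := (hTx.differentiableAt (by simp)).hasFDerivAt
  have d2 : HasFDerivAt T (fderiv ℝ T (G x)) (G x) :=
    (hTGx.differentiableAt (by simp)).hasFDerivAt
  have d3 : HasFDerivAt G (fderiv ℝ G x) x := (hPD.2 x hx0).hasFDerivAt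
  have d4 : HasFDerivAt (fun y => T (G y)) ((fderiv ℝ T (G x)).comp (fderiv ℝ G x)) x :=
    d2.comp x d3
  set R : E4 →L[ℝ] E4 := (r3.toContinuousLinearEquiv : E4 →L[ℝ] E4) with hR
  have d5 : HasFDerivAt (fun y => T (G y)) ((2⁻¹ : ℝ) • R.comp (fderiv ℝ T x)) x := by
    have h : (fun y => T (G y)) = fun y => (2⁻¹ : ℝ) • R (T y) :=
      funext fun y => gr_apply hT y
    rw [h]
    exact HasFDerivAt.const_smul (R.hasFDerivAt.comp x d1) (2⁻¹ : ℝ)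
  have h6 := congrArg ContinuousLinearMap.det (d4.unique d5)
  rw [det_comp_clm] at h6
  have h7 : ((2⁻¹ : ℝ) • R.comp (fderiv ℝ T x)).det =
      (2⁻¹ : ℝ) ^ (Module.finrank ℝ E4) * (R.det * (fderiv ℝ T x).det) := by
    rw [← det_comp_clm]
    simp only [ContinuousLinearMap.det, ContinuousLinearMap.toLinearMap_smul, LinearMap.det_smul]
  rw [h7] at h6
  have hRdet : R.det < 0 := det_r3
  have h8 : 0 < (fderiv ℝ T x).det * (fderiv ℝ T (G x)).det := by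
    rw [hGx, hx]
    exact gr_sign hT one_pos (by norm_num)
  have h9 : 0 < (2⁻¹ : ℝ) ^ (Module.finrank ℝ E4) := by positivity
  have h10 : (fderiv ℝ G x).det < 0 := by
    by_contra hcon
    have hcon' := not_lt.1 hcon
    have e1 : (fderiv ℝ T (G x)).det * (fderiv ℝ G x).det * (fderiv ℝ T (G x)).det =
        R.det * ((2⁻¹ : ℝ) ^ (Module.finrank ℝ E4) *
          ((fderiv ℝ T x).det * (fderiv ℝ T (G x)).det)) := by
      rw [h6]
      ring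
    have e2 : 0 < (2⁻¹ : ℝ) ^ (Module.finrank ℝ E4) *
          ((fderiv ℝ T x).det * (fderiv ℝ T (G x)).det) := mul_pos h9 h8
    have e3 := mul_neg_of_neg_of_pos hRdet e2
    rw [← e1] at e3
    nlinarith [mul_self_nonneg (fderiv ℝ T (G x)).det,
      mul_nonneg hcon' (mul_self_nonneg (fderiv ℝ T (G x)).det)]
  have h11 : 0 < s * (fderiv ℝ G x).det := (hPD.2 x hx0).2
  have h12 : s < 0 := by
    by_contra hcon
    have hcon' := not_lt.1 hcon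
    nlinarith [mul_nonneg hcon' (neg_nonneg.2 h10.le)]
  have h13 : s = -1 := by nlinarith
  rw [← h13]
  exact hPD

private theorem gr_pow {r : E4 ≃ₗᵢ[ℝ] E4} {G T : E4 ≃ₜ E4} (hT : GoodR r G T) (n : ℕ) :
    T * G ^ n = tauL r ^ n * T := by
  induction n with
  | zero => simp
  | succ n ih => rw [pow_succ, ← mul_assoc, ih, mul_assoc, hT.conj, ← mul_assoc, ← pow_succ]

/-- it is a contraction -/
theorem GoodR.contr {r : E4 ≃ₗᵢ[ℝ] E4} (hr : Rf r) {G T : E4 ≃ₜ E4} (hT : GoodR r G T) :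
    Contr G := by
  intro R ε hε
  obtain ⟨R', hR'⟩ : ∃ R' : ℝ, ∀ x : E4, ‖x‖ ≤ R → ‖T x‖ ≤ R' := by
    have h1 : IsCompact (T '' closedBall (0 : E4) R) :=
      (isCompact_closedBall (0 : E4) R).image T.continuous
    obtain ⟨R', h2⟩ := h1.isBounded.exists_norm_le
    exact ⟨R', fun x hx => h2 _ ⟨x, by rw [mem_closedBall, dist_zero_right]; exact hx, rfl⟩⟩
  have hc : Tendsto (T⁻¹ : E4 ≃ₜ E4) (𝓝 0) (𝓝 0) := by
    have h1 := (T⁻¹ : E4 ≃ₜ E4).continuous.tendsto 0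
    rwa [gr_inv_zero hT] at h1
  obtain ⟨δ, hδ, h3⟩ := Metric.tendsto_nhds_nhds.1 hc ε hε
  obtain ⟨n₀, hn₀⟩ := Contr_tauL r R' δ hδ
  refine ⟨n₀, fun n hn x hx => ?_⟩
  have h4 : (G ^ n) x = (T⁻¹ : E4 ≃ₜ E4) ((tauL r ^ n) (T x)) := by
    apply T.injective
    rw [apply_inv_self']
    exact DFunLike.congr_fun (gr_pow hT n) x
  have h5 : ‖(tauL r ^ n) (T x)‖ < δ := hn₀ n hn (T x) (hR' x hx)
  have h6 := h3 (x := (tauL r ^ n) (T x)) (by rw [dist_zero_right]; exact h5)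
  rw [h4]
  rwa [dist_zero_right] at h6

private theorem gr_tau_pow (m : ℕ) (x : E4) :
    ((tau : E4 ≃ₜ E4) ^ m) x = (2⁻¹ : ℝ) ^ m • x := by
  induction m with
  | zero => simp
  | succ m ih => rw [pow_succ', mul_apply', ih, tau_apply, smul_smul, pow_succ']

/-- odd powers are again of this kind (`μ⁻¹ T` for `G ^ m`, where `μ = pow_mk m`; it commutes with
`r`, and `μ * tauL r = (tauL r) ^ m * μ` for odd `m`) -/
theorem GoodR.pow {r : E4 ≃ₗᵢ[ℝ] E4} (hr : Rf r) {G T : E4 ≃ₜ E4} (hT : GoodR r G T) {m : ℕ}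
    (hm : Odd m) : ∃ T' : E4 ≃ₜ E4, GoodR r (G ^ m) T' := by
  obtain ⟨μ, hμ, hμx, -⟩ := pow_mk m hm.pos
  have hμt : μ * tauL r = tauL r ^ m * μ := by
    obtain ⟨k, rfl⟩ := hm
    refine Homeomorph.ext fun x => ?_
    rw [pow_succ, tauL_even hr (even_two_mul k), mul_apply', mul_apply', mul_apply', gr_tau_pow,
      hμx, hμx, tauL_apply, tauL_apply, norm_smul, r.norm_map, map_smul, smul_smul, smul_smul,
      smul_smul]
    congr 1
    have h3 : ‖(2⁻¹ : ℝ)‖ = 2⁻¹ := by norm_num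
    rw [h3, Nat.add_sub_cancel, mul_pow]
    ring
  refine ⟨μ⁻¹ * T, ?_, ?_, ?_⟩
  · rw [mul_apply', hT.zero]
    exact hμ.inv.1
  · have h1 : tauL r * μ⁻¹ = μ⁻¹ * tauL r ^ m := by
      rw [eq_inv_mul_iff_mul_eq, ← mul_assoc, hμt, mul_assoc, mul_inv_cancel, mul_one]
    rw [mul_assoc, gr_pow hT m, ← mul_assoc, ← h1, mul_assoc]
  · intro t ht
    have h1 : ((μ⁻¹ * T)⁻¹ : E4 ≃ₜ E4) (t • e0) =
        (T⁻¹ : E4 ≃ₜ E4) ((t ^ (m - 1) * t) • e0) := by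
      rw [mul_inv_rev, inv_inv, mul_apply', hμx, norm_smul, norm_e0, mul_one, Real.norm_eq_abs,
        abs_of_pos ht, smul_smul]
    rw [h1]
    have h2 : Reg T ((T⁻¹ : E4 ≃ₜ E4) ((t ^ (m - 1) * t) • e0)) := hT.reg _ (by positivity)
    have h3 : Reg (μ⁻¹ : E4 ≃ₜ E4) (T ((T⁻¹ : E4 ≃ₜ E4) ((t ^ (m - 1) * t) • e0))) := by
      rw [apply_inv_self']
      exact hμ.inv.reg (smul_ne_zero (by positivity) gr_e0_ne)
    exact Reg.comp (f := T) (g := (μ⁻¹ : E4 ≃ₜ E4)) h3 h2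

end Pool.Agent.HopfTw
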