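import Pool.Agent.HopfTw.Sum
import Pool.Agent.HopfTw.Good
import Pool.Agent.HopfFin.Class
import Pool.Agent.HopfFin.SwapCj
import Pool.Agent.HopfRem.TwAb

/-!
# Classes of the generators

`chi` (in `HopfCov/Twist.lean`) is the class of an orientation reversing punctured diffeomorphism in
the coinvariants of the class group; it is invariant under conjugation by all punctured
diffeomorphisms (`chi_conj`), `chi (G ^ n) = chi G ^ n` for odd `n` (`chi_pow`), and
`chi (u * G) = pr (cls u) * chi G` (`chi_mul`).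
-/

set_option autoImplicit false

open scoped ContDiff Topology Manifold
open Set Filter Metric

namespace Pool.Agent.HopfTw

open Pool.Agent.HopfCov
open Pool.Agent.HopfFin hiding pr

private theorem eq_conj_Class {Φ G G' : E4 ≃ₜ E4} (h : Φ * G = G' * Φ) : G' = Φ * G * Φ⁻¹ := by
  rw [h, mul_assoc, mul_inv_cancel, mul_one]

private theorem sign_Class {Φ : E4 ≃ₜ E4} (hΦ : Sm Φ) :
    ∃ s : ℝ, (s = 1 ∨ s = -1) ∧ PD s Φ := by
  obtain ⟨s, hs, hP⟩ := hΦ.exists_sign
  exact ⟨s, mul_self_eq_one_iff.1 hs, hP⟩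

private theorem PDneg_conj_Class {s : ℝ} (hs : s = 1 ∨ s = -1) {H K : E4 ≃ₜ E4} (hH : PD s H)
    (hK : PD (-1) K) : PD (-1) (H * K * H⁻¹) := by
  have := (hH.mul hK).mul hH.inv
  rcases hs with rfl | rfl
  · rwa [show (1 : ℝ) * -1 * 1 = -1 by norm_num] at this
  · rwa [show (-1 : ℝ) * -1 * -1 = -1 by norm_num] at this

private theorem chi_Cj_Class {G G' : E4 ≃ₜ E4} (h : Cj G G') (hG : PD (-1) G)
    (hG' : PD (-1) G') : chi G' hG' = chi G hG := by
  obtain ⟨Φ, hΦ, he⟩ := h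
  obtain ⟨s, hs, hP⟩ := sign_Class hΦ
  have e := eq_conj_Class he
  rw [chi_congr e hG' (PDneg_conj_Class hs hP hG)]
  exact chi_conj hs hP hG _

private theorem chi_TT_Class : chi TT PD_TT = 1 := by
  have h1 : Ext (TT * TT⁻¹) := by
    rw [mul_inv_cancel]
    exact Ext_one
  rw [chi, (cls_eq_one (PD_TT.mul_neg PD_TT.inv)).2 h1, map_one]

/-- the reference contraction has trivial class (`Cj_TT` and `chi_conj`, or directly: `tauL r3 *
TT⁻¹` is a linear isometry of positive determinant) -/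
theorem chi_tauL (h : PD (-1) (tauL r3)) : chi (tauL r3) h = 1 := by
  rw [chi_Cj_Class Cj_TT PD_TT h]
  exact chi_TT_Class

theorem PD_tauL_r3 : PD (-1) (tauL r3) := PD_tauL r3 (by have := det_r3; linarith)

/-- invariance under conjugation -/
theorem chi_Cj {G G' : E4 ≃ₜ E4} (h : Cj G G') (hG : PD (-1) G) (hG' : PD (-1) G') :
    chi G' hG' = chi G hG := chi_Cj_Class h hG hG'

/-- invariance under diffeomorphisms of the orbit spaces (`chi_pair`) -/
theorem chi_CjV {G G' : E4 ≃ₜ E4} (h : CjV G G') (hc : Contr G) (hc' : Contr G')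
    (hG : PD (-1) G) (hG' : PD (-1) G') : chi G' hG' = chi G hG := by
  obtain ⟨Ψ, g, g', h1, h2, h3, h4⟩ := h
  exact chi_pair h2 h3 hG hG' hc hc' h1 h4

theorem PD_Cj {G G' : E4 ≃ₜ E4} (h : Cj G G') (hG : PD (-1) G) : PD (-1) G' := by
  obtain ⟨Φ, hΦ, he⟩ := h
  obtain ⟨s, hs, hP⟩ := sign_Class hΦ
  rw [eq_conj_Class he]
  exact PDneg_conj_Class hs hP hG

/-- a contraction of trivial class which is `Off` is standard: `Off G` gives a trapping conjugate
`G'`; `CJ_of_chi` for `G'` and `TT`; `Cj_TT` -/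
theorem std_of_Off_neg {G : E4 ≃ₜ E4} (hG : PD (-1) G) (hc : Contr G) (hO : Off G)
    (h1 : chi G hG = 1) : Cj G (tauL r3) := by
  obtain ⟨G', ht, hG'⟩ := hO
  have h2 : PD (-1) G' := PD_Cj hG' hG
  have h3 : Contr G' := by
    obtain ⟨Φ, hΦ, he⟩ := hG'
    rw [eq_conj_Class he]
    exact hc.conj hΦ.1
  have h4 : chi G' h2 = chi TT PD_TT := by
    rw [chi_Cj hG' hG h2, h1, chi_TT_Class]
  obtain ⟨Ψ, f1, f2⟩ := CJ_of_chi PD_TT h2 (Trap_tauL _) ht Contr_TT h3 h4
  have h5 : Cj TT G' := ⟨Ψ, Sm_of_PD f1, f2⟩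
  exact (hG'.trans h5.symm).trans Cj_TT

private theorem PD_g_Class {K : E4 ≃ₜ E4} (hg : PD (-1) (K * tauL r3 * K⁻¹)) :
    PD 1 (K * tauL r3 * K⁻¹ * (tauL r3)⁻¹) := hg.mul_neg PD_tauL_r3.inv

private theorem PD_conj_Class {P g : E4 ≃ₜ E4} (hP : Sm P) (hg : PD 1 g) :
    PD 1 (P * g * P⁻¹) := by
  obtain ⟨s, hs, hP'⟩ := hP.exists_sign
  exact PD_conj hs hP' hg

private theorem PD_ZT_Class (n : ℕ) : PD (-1) (ZT r3 n) :=
  (lamH_PD _).mul_pos_neg (PD_linH (by have := det_r3; linarith))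

private theorem chi_linH_Class (h : PD (-1) (linH r3)) : chi (linH r3) h = 1 := by
  have e : tauL r3 = lamH 1 * linH r3 := Homeomorph.ext fun x => by
    rw [mul_apply', linH_apply, lamH_apply, lam_one, tauL_apply]
  have h1 := chi_mul (lamH_PD 1) h ((lamH_PD 1).mul_pos_neg h)
  rw [(cls_eq_one (lamH_PD 1)).2 (lamH_Ext 1), map_one, one_mul] at h1
  rw [← h1, ← chi_tauL PD_tauL_r3]
  exact chi_congr e.symm _ _

private theorem chi_ZT_Class (n : ℕ) : chi (ZT r3 n) (PD_ZT_Class n) = 1 := by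
  have h : PD (-1) (linH r3) := PD_linH (by have := det_r3; linarith)
  have h1 := chi_mul (lamH_PD (1 / n)) h (PD_ZT_Class n)
  rw [(cls_eq_one (lamH_PD (1 / n))).2 (lamH_Ext (1 / n)), map_one, one_mul,
    chi_linH_Class] at h1
  exact h1

/-- the product of conjugates -/
private theorem prod_Class {g : E4 ≃ₜ E4} (hg : PD 1 g) {P : ℕ → (E4 ≃ₜ E4)}
    (hP : ∀ j, Sm (P j)) (c : ℕ) :
    ∃ h : PD 1 ((List.range c).map fun j => P j * g * (P j)⁻¹).prod,
      pr (cls _ h) = pr (cls g hg) ^ c := by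
  induction c with
  | zero =>
    refine ⟨by simpa using PD_one, ?_⟩
    rw [pow_zero, (cls_eq_one _).2, map_one]
    simpa using Ext_one
  | succ c ih =>
    obtain ⟨h1, h2⟩ := ih
    have h3 : PD 1 (P c * g * (P c)⁻¹) := PD_conj_Class (hP c) hg
    have h4 : pr (cls _ h3) = pr (cls g hg) := by
      obtain ⟨s, hs, hPs⟩ := sign_Class (hP c)
      rcases hs with rfl | rfl
      · rw [cls_mul' (hPs.mul_one' hg) hPs.inv, cls_mul' hPs hg, cls_inv hPs,
          mul_comm (cls (P c) hPs), mul_inv_cancel_right]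
      · rw [conj_eq_R hPs hg h3, pr_R]
    have e : ((List.range (c + 1)).map fun j => P j * g * (P j)⁻¹).prod =
        ((List.range c).map fun j => P j * g * (P j)⁻¹).prod * (P c * g * (P c)⁻¹) := by
      rw [List.range_succ, List.map_append, List.prod_append, List.map_singleton,
        List.prod_singleton]
    refine ⟨by rw [e]; exact h1.mul_one' h3, ?_⟩
    rw [cls_congr _ e (h1.mul_one' h3), cls_mul' h1 h3, map_mul, h2, h4, pow_succ]

/-- `V` is a punctured diffeomorphism (`VT_eq`) -/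
theorem VT_PD {K : E4 ≃ₜ E4} (h0 : K 0 = 0) (hK : Supp K (Cone 1))
    (hg : PD (-1) (K * tauL r3 * K⁻¹)) {n : ℕ} (hn : Odd n) {c : ℕ} (hc : 0 < c) :
    PD (-1) (VT r3 K n c) := by
  obtain ⟨h1, -⟩ := prod_Class (PD_g_Class hg)
    (P := fun j => PT r3 (n * c) c j) (fun j => (PT_pr Rf_r3 (n * c) c j).sm) c
  rw [VT_eq Rf_r3 h0 hK hn hc]
  exact h1.mul_pos_neg (PD_ZT_Class n)

/-- the class of `V` (`VT_eq`; the placements are punctured diffeomorphisms of constant sign, and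
conjugation by them does not change the image in the coinvariants, `conj_eq_R`, `pr_R`; `ZT` is
linear with `ZT * TT⁻¹` of positive determinant) -/
theorem chi_VT {K : E4 ≃ₜ E4} (h0 : K 0 = 0) (hK : Supp K (Cone 1))
    (hg : PD (-1) (K * tauL r3 * K⁻¹)) {n : ℕ} (hn : Odd n) {c : ℕ} (hc : 0 < c)
    (hV : PD (-1) (VT r3 K n c)) : chi (VT r3 K n c) hV = chi (K * tauL r3 * K⁻¹) hg ^ c := by
  have hg1 := PD_g_Class hg
  obtain ⟨h1, h2⟩ := prod_Class hg1
    (P := fun j => PT r3 (n * c) c j) (fun j => (PT_pr Rf_r3 (n * c) c j).sm) c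
  have h3 := h1.mul_pos_neg (PD_ZT_Class n)
  have h4 : chi (K * tauL r3 * K⁻¹) hg = pr (cls _ hg1) := by
    have e : K * tauL r3 * K⁻¹ = K * tauL r3 * K⁻¹ * (tauL r3)⁻¹ * tauL r3 := by group
    rw [chi_congr e hg (hg1.mul_pos_neg PD_tauL_r3), chi_mul hg1 PD_tauL_r3, chi_tauL, mul_one]
  rw [chi_congr (VT_eq Rf_r3 h0 hK hn hc) hV h3, chi_mul h1 (PD_ZT_Class n) h3, chi_ZT_Class,
    mul_one, h2, h4]

end Pool.Agent.HopfTw
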