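import Pool.Agent.HopfTw.Statement
import Pool.Agent.HopfTw.Good
import Pool.Agent.HopfFin.Space
import Pool.Agent.HopfRem.Final

/-!
# From generators to manifolds

Plan of `space_good_neg`: as `space_good` in `HopfFin/Space.lean`, with a twisted product `X`
(`exists_twisted`) and its orbit map `q₀` instead of `Circle × S3`. Let `L` be from `exists_perm`,
`T₁ = (linH L)⁻¹ * T`, so `T₁ * G = TT * T₁` and `T₁` is regular near the points which it maps to
the ray `ℝ₊ e1`. The smooth structure on the topological space `X` for which `q₀ ∘ T₁` is an orbit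
map of `G` (`exists_structure_gen` with `s = -1`); the identity is the homeomorphism for
`NearSection`. Plan of `offPointT_of_Off`: as `offPoint_of_Off` in `HopfFin/Desc.lean`, with the
reversing version of `off_point` (`off_of_orbit` in `HopfRem/Class3.lean` with `s = -1`, `L =
refl0`).
-/

set_option autoImplicit false

open scoped ContDiff Topology Manifold
open Set Filter Metric

namespace Pool.Agent.HopfTw

open Pool.Agent.HopfCov hiding pr
open Pool.Agent.HopfFin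
open Pool.Agent.HopfCov.Smooth

private theorem LD_of_Reg_SpaceT {T : E4 ≃ₜ E4} {x : E4} (h : Reg T x) :
    ∃ s : ℝ, ∀ᶠ y in 𝓝 x, LD s T y := by
  have hx := h.self_of_nhds
  have hc : ContinuousAt (fderiv ℝ T) x := hx.1.continuousAt_fderiv (by simp)
  have hd : ContinuousAt (fun y => (fderiv ℝ T y).det) x :=
    ContinuousLinearMap.continuous_det.continuousAt.comp hc
  refine ⟨(fderiv ℝ T x).det, ?_⟩
  have h0 : 0 < (fderiv ℝ T x).det * (fderiv ℝ T x).det := mul_self_pos.2 hx.2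
  have h1 : ∀ᶠ y in 𝓝 x, 0 < (fderiv ℝ T x).det * (fderiv ℝ T y).det :=
    (continuousAt_const.mul hd).eventually (isOpen_Ioi.mem_nhds h0)
  filter_upwards [h, h1] with y hy hy1 using ⟨hy.1, hy1⟩

/-- the twisted product as the orbit space of `TT` -/
private theorem exists_TT_model : ∃ (X : Mfd4) (p₀ : Punctured → X), Orbit X p₀ rho ∧
    IsOrbit X p₀ TT := by
  obtain ⟨X, hX⟩ := exists_twisted
  obtain ⟨p₀, h1⟩ := twistedProduct_iff.2 hX
  have h2 := orbit_eq.1 h1
  rw [rho_eq] at h2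
  exact ⟨X, p₀, h1, h2⟩

private theorem onRay_eq {y : E4} (h : OnRay y) : y = y 1 • e1 := by
  obtain ⟨h0, -, h2, h3⟩ := h
  ext i
  fin_cases i
  · simpa [e1] using h0
  · simp [e1]
  · simpa [e1] using h2
  · simpa [e1] using h3

/-- the orbit space of a good generator is a manifold of the class `T` -/
theorem space_good_neg {G T : E4 ≃ₜ E4} (hG : PD (-1) G) (hT : GoodR r3 G T) :
    ∃ (M : Mfd4) (p : V4 → M.carrier) (g : V4 ≃ₜ V4), InT M ∧ T2Space M ∧ CompactSpace M ∧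
      OrbitMap g p ∧ Extends G g := by
  have hC : Contr G := hT.contr Rf_r3
  obtain ⟨X, p₀, hX, hX'⟩ := exists_TT_model
  obtain ⟨a1, a2, -, -, -, τ, h5, hp₀⟩ := hX'.data
  obtain ⟨L, hL1, hL2⟩ := exists_perm
  set T₁ : E4 ≃ₜ E4 := (linH L)⁻¹ * T with hT₁
  have hL0 : ((linH L)⁻¹ : E4 ≃ₜ E4) 0 = 0 := (Sm_linH L).inv.1
  have hT₁0 : T₁ 0 = 0 := by
    rw [hT₁, mul_apply', hT.zero, hL0]
  have hT₁c : T₁ * G = TT * T₁ := by
    have e1 : TT * (linH L)⁻¹ = (linH L)⁻¹ * tauL r3 := by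
      rw [eq_inv_mul_iff_mul_eq, ← mul_assoc, hL2]
      group
    rw [hT₁, mul_assoc, hT.conj, ← mul_assoc, ← e1, mul_assoc]
  obtain ⟨g, hGg⟩ := exists_restr hG
  obtain ⟨k, k1, -, k3⟩ := restr_gen T₁ hT₁0
  have k1' : Extends T₁ k := fun x => (k1 x).symm
  have hconj : k * g = τ * k := by
    have d1 : Extends (T₁ * G) (k * g) := k1'.mul hGg
    have d2 : Extends (TT * T₁) (τ * k) := h5.mul k1'
    rw [hT₁c] at d1
    exact d1.eq_of d2
  have hsc : SemiconjBy k g τ := hconj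
  have hpow : ∀ (n : ℤ) (x : V4), k ((g ^ n) x) = (τ ^ n) (k x) := fun n x =>
    DFunLike.congr_fun (hsc.zpow_right n).eq x
  let q₀ : V4 → X.carrier := p₀
  have c1 : Function.Surjective q₀ := hp₀.surj
  have c2 : IsLocalDiffeomorph (𝓡 4) (𝓡 4) ∞ q₀ := hp₀.loc
  have c3 : ∀ x y, q₀ x = q₀ y ↔ ∃ n : ℤ, y = (τ ^ n) x := hp₀.fib
  have hsu : Function.Surjective fun x => q₀ (k x) := c1.comp k.surjective
  have hl : IsLocalHomeomorph fun x => q₀ (k x) := c2.isLocalHomeomorph.comp k.isLocalHomeomorph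
  have hf : ∀ x y, q₀ (k x) = q₀ (k y) ↔ ∃ n : ℤ, y = (g ^ n) x := by
    intro x y
    rw [c3]
    constructor
    · rintro ⟨n, hn⟩
      exact ⟨n, k.injective (by rw [hn, hpow])⟩
    · rintro ⟨n, hn⟩
      exact ⟨n, by rw [hn, hpow]⟩
  obtain ⟨M, Φ, hp'⟩ : ∃ (M : Mfd4) (Φ : M.carrier ≃ₜ X.carrier),
      OrbitMap g (M := M.carrier) (fun x => Φ.symm (q₀ (k x))) := by
    obtain ⟨C, hman, hp⟩ := exists_structure_gen (s := -1) (by norm_num)
      (p := fun x => q₀ (k x)) hGg hG hsu hl hf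
    exact ⟨⟨X.carrier, X.top, C, hman⟩, Homeomorph.refl _, hp⟩
  have a1' : T2Space M.carrier := Φ.symm.t2Space
  have a2' : CompactSpace M.carrier := Φ.symm.compactSpace
  obtain ⟨F, F1, F2⟩ := descend_gen (M := M.carrier) (M' := X.carrier) (I' := 𝓡 4) hp' c1 c2 c3 k
    hconj
  refine ⟨M, fun x => Φ.symm (q₀ (k x)), g, ⟨?_, ?_⟩, a1', a2', hp', hGg⟩
  · refine ⟨X, p₀, F, hX, ?_⟩
    intro x y hxy hy
    obtain ⟨y', rfl⟩ := hp'.surj x
    have d1 : q₀ (k y') = q₀ y := by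
      rw [← F1 y']
      exact hxy
    obtain ⟨n, hn⟩ := (c3 (k y') y).1 d1
    have d2 : k ((g ^ n) y') = y := by rw [hpow, hn]
    have d3 : q₀ (k y') = q₀ (k ((g ^ n) y')) := by rw [d2]; exact d1
    have d4 : IsLocalDiffeomorphAt (𝓡 4) (𝓡 4) ∞ F (Φ.symm (q₀ (k ((g ^ n) y')))) := by
      refine F2 _ ?_
      have e1 : (T₁ (((g ^ n) y' : V4) : E4)) = (val y 1) • HopfFin.e1 := by
        rw [← k1, d2]
        exact onRay_eq hy
      have e2 : T (((g ^ n) y' : V4) : E4) = (val y 1) • e0 := by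
        have e3 : T = linH L * T₁ := by rw [hT₁]; group
        rw [e3, mul_apply', e1, linH_apply, map_smul, hL1]
      have e4 : (T⁻¹ : E4 ≃ₜ E4) ((val y 1) • e0) = (((g ^ n) y' : V4) : E4) := by
        rw [← e2]
        exact T.symm_apply_apply _
      have e5 := hT.reg (val y 1) hy.2.1
      rw [e4] at e5
      have hne : T (((g ^ n) y' : V4) : E4) ≠ 0 := by
        intro h0
        have := T.injective (h0.trans hT.zero.symm)
        exact V4_ne _ this
      have e6 : Reg T₁ (((g ^ n) y' : V4) : E4) :=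
        Reg.comp (g := ((linH L)⁻¹ : E4 ≃ₜ E4)) (f := T) ((Sm_linH L).inv.reg hne) e5
      obtain ⟨s, hs⟩ := LD_of_Reg_SpaceT e6
      exact k3 s _ hs
    rw [← d3] at d4
    exact d4
  · exact ⟨fun x => Φ.symm (q₀ (k x)), isCoveringMap_of_orbits hp'.loc.isLocalHomeomorph hp'.surj hp'.fib
      fun n x hx => free_of_contr hGg hC n x hx, hp'.loc⟩

/-- if the generator is `Off` then the orbit space is standard off one point -/
theorem offPointT_of_Off {M : Mfd4} (hM : T2Space M ∧ CompactSpace M) {p : V4 → M.carrier}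
    {g : V4 ≃ₜ V4} {G : E4 ≃ₜ E4} (hp : OrbitMap g p) (hG : Extends G g) (h1 : PD (-1) G)
    (hc : Contr G) (h : Off G) : OffPointT M := by
  obtain ⟨a1, a2⟩ := hM
  have a1' : T2Space M.carrier := a1
  have a2' : CompactSpace M.carrier := a2
  obtain ⟨G', ht, Φ, hΦ, hc1⟩ := h
  obtain ⟨s, hs, hPD⟩ := hΦ.exists_sign
  obtain ⟨ψ, hψ, hψl⟩ := exists_restr_PDs hPD.inv
  have hG'eq : Φ * G * Φ⁻¹ = G' := by rw [hc1, mul_assoc, mul_inv_cancel, mul_one]
  have e1 : Extends G' (ψ⁻¹ * g * ψ) := by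
    have h2 := (hψ.inv.mul hG).mul hψ
    rw [inv_inv, hG'eq] at h2
    exact h2
  have e2 : PD (-1) G' := by
    have h2 := (hPD.mul h1).mul hPD.inv
    have h3 : s * -1 * s = -1 := by
      calc s * -1 * s = -(s * s) := by ring
        _ = -1 := by rw [hs]
    rw [hG'eq, h3] at h2
    exact h2
  have e4 : OrbitMap (ψ⁻¹ * g * ψ) (fun x => p (ψ x)) :=
    hp.conj hψl (by group)
  obtain ⟨X, hX⟩ := exists_twisted
  obtain ⟨p₀, hm⟩ := hX.model
  have e5 : IsOrbit M (fun x => p (ψ x)) G' :=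
    IsOrbit.mk' (M := M) (p := fun x => p (ψ x)) e4 e1 (Or.inr e2) ht
  exact ⟨X, twistedProduct_iff.2 hX, off_of_orbit hm e5 e2⟩

end Pool.Agent.HopfTw
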