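import Pool.Agent.HopfTw.StatementPlus
import Pool.Agent.HopfTw.Class
import Pool.Agent.HopfTw.Space
import Pool.Agent.HopfFin.CovStd

/-!
# Coverings with many sheets, non-orientable case

Plan of `twisted_of_Cj`: as `std_of_Cj` in `HopfFin/CovStd.lean`; `Cj_TT` and the orbit space of the
restriction of `TT = rho.old` (`rho_eq`): `⟨p', Orbit ..⟩`, `rho` maps the closed unit ball into the
open one.

Plan of `virtuallyStandardT_of`: `Off_pow` gives `m₀` (take it positive) with `Off (G ^ m)` for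
`m ≥ m₀`. A covering `q : N → M` with `m` sheets is the orbit space of `g ^ m` (`specCover`). If `m`
is even, `Ext (G ^ m)` by `Ext_of_chi_pow` (with `d = 1`), `PD 1 (G ^ m)` (`PD.pow_even`), so
`Cj (G ^ m) tau` by `std_of_Off`, and `std_of_Cj`. If `m` is odd, `chi (G ^ m) = chi G ^ m = 1`
(`chi_pow`), so `Cj (G ^ m) (tauL r3)` by `std_of_Off_neg`, and `twisted_of_Cj`.

Plan of `twisted_of_virt`: as `std_of_virt` in `HopfFin/CovStd.lean`: the orbit spaces of `g ^ m`,
`m` odd and large, are closed coverings with `m` sheets, so they are twisted products, so `chi (G ^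
m) = 1` (`chi_CjV` and `cjV_of_diffeo`, or `twisted_final`; `chi_tauL`), that is `chi G ^ m = 1`;
the same for `m + 2`; so `chi G ^ 2 = 1` and `chi G = 1`; `std_of_Off_neg`, `twisted_of_Cj`. -/

set_option autoImplicit false

open scoped ContDiff Topology Manifold
open Set Filter Metric

namespace Pool.Agent.HopfTw

open Pool.Agent.HopfCov
open Pool.Agent.HopfFin hiding pr
open Pool.Agent.HopfCov.Smooth

private theorem cvsT_loc {N M : Mfd4} {p' : V4 → N.carrier} {p : V4 → M.carrier}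
    {q : N.carrier → M.carrier} (h : ∀ x, q (p' x) = p x) {x : V4}
    (hl : IsLocalDiffeomorphAt (𝓡 4) (𝓡 4) ∞ p' x)
    (h2 : IsLocalDiffeomorphAt (𝓡 4) (𝓡 4) ∞ p x) :
    IsLocalDiffeomorphAt (𝓡 4) (𝓡 4) ∞ q (p' x) := by
  obtain ⟨Ψ, hxΨ, hΨ⟩ := h2
  refine ⟨hl.localInverse.trans Ψ, ?_, ?_⟩
  · refine ⟨hl.localInverse_mem_source, ?_⟩
    have h3 : hl.localInverse (p' x) = x :=
      hl.localInverse_left_inv hl.localInverse_mem_target
    change hl.localInverse (p' x) ∈ Ψ.source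
    rw [h3]
    exact hxΨ
  · rintro y ⟨hy1, hy2⟩
    have h3 : p' (hl.localInverse y) = y := hl.localInverse_right_inv hy1
    change q y = Ψ (hl.localInverse y)
    have h4 : p (hl.localInverse y) = Ψ (hl.localInverse y) := hΨ hy2
    rw [← h4]
    conv_lhs => rw [← h3]
    exact h _

private theorem cvsT_sheets {N M : Type} [TopologicalSpace N] [ChartedSpace E4 N]
    [TopologicalSpace M] [ChartedSpace E4 M] {p' : V4 → N} {p : V4 → M} {q : N → M}
    {g : V4 ≃ₜ V4} {G : E4 ≃ₜ E4} (hp : OrbitMap g p) (hG : Extends G g) (hc : Contr G) {m : ℕ}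
    (hm : 0 < m) (hp' : OrbitMap (g ^ m) p') (hq : ∀ x, q (p' x) = p x) (y : M) :
    (q ⁻¹' {y}).ncard = m := by
  obtain ⟨x, rfl⟩ := hp.surj y
  have hm0 : (m : ℤ) ≠ 0 := by exact_mod_cast hm.ne'
  have hmp : (0 : ℤ) < m := by exact_mod_cast hm
  have h : q ⁻¹' {p x} =
      (fun j : ℕ => p' ((g ^ j) x)) '' ((Finset.range m : Finset ℕ) : Set ℕ) := by
    ext n
    constructor
    · intro hn
      obtain ⟨z, rfl⟩ := hp'.surj n
      have hn' : q (p' z) = p x := hn
      rw [hq] at hn'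
      obtain ⟨k, hk⟩ := (hp.fib x z).1 hn'.symm
      have h0 := Int.emod_nonneg k hm0
      have h1 := Int.emod_lt_of_pos k hmp
      have h2 : (((k % m).toNat : ℕ) : ℤ) = k % m := Int.toNat_of_nonneg h0
      refine ⟨(k % m).toNat, ?_, ?_⟩
      · rw [Finset.mem_coe, Finset.mem_range]
        omega
      · show p' ((g ^ (k % m).toNat) x) = p' z
        rw [hp'.fib]
        refine ⟨k / m, ?_⟩
        have h3 : g ^ k = (g ^ m) ^ (k / (m : ℤ)) * g ^ (k % m).toNat := by
          rw [← zpow_natCast g m, ← zpow_natCast g (k % m).toNat, h2, ← zpow_mul, ← zpow_add,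
            Int.mul_ediv_add_emod]
        rw [hk, h3]
        rfl
    · rintro ⟨j, -, rfl⟩
      show q (p' ((g ^ j) x)) = p x
      rw [hq]
      exact ((hp.fib _ _).2 ⟨j, by rw [zpow_natCast]⟩).symm
  rw [h, Set.InjOn.ncard_image, Set.ncard_coe_finset, Finset.card_range]
  intro i hi j hj hij
  rw [Finset.mem_coe, Finset.mem_range] at hi hj
  obtain ⟨l, hl⟩ := (hp'.fib _ _).1 hij
  have h1 : (g ^ (-(j : ℤ) + (m * l + i))) x = x := by
    have h2 : g ^ (-(j : ℤ) + (m * l + i)) = (g ^ j)⁻¹ * ((g ^ m) ^ l * g ^ i) := by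
      rw [zpow_add, zpow_neg, zpow_natCast, zpow_add, zpow_mul, zpow_natCast, zpow_natCast]
    rw [h2]
    show ((g ^ j)⁻¹ : V4 ≃ₜ V4) (((g ^ m) ^ l) ((g ^ i) x)) = x
    rw [← hl]
    exact (g ^ j).symm_apply_apply x
  have h3 := free_of_contr hG hc _ x h1
  have h4 : (j : ℤ) = m * l + i := by omega
  have h5 : (j : ℤ) % m = i % m := by
    rw [h4, Int.mul_add_emod_self_left]
  rw [Int.emod_eq_of_lt (by positivity) (by exact_mod_cast hj),
    Int.emod_eq_of_lt (by positivity) (by exact_mod_cast hi)] at h5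
  exact_mod_cast h5.symm

/-- the orbit space of an odd power of the generator as a covering -/
private theorem cvsT_exists {M : Mfd4} (hM : T2Space M ∧ CompactSpace M) {p : V4 → M.carrier}
    {g : V4 ≃ₜ V4} {G : E4 ≃ₜ E4} (hp : OrbitMap g p) (hG : Extends G g)
    (hc : Contr G) {m : ℕ} (hm : 0 < m) (h1 : PD (-1) (G ^ m)) (ht : Trap (G ^ m)) :
    ∃ (N : Mfd4) (q : N → M) (p' : Punctured → N), Closed N ∧ Cover m q ∧
      IsOrbit N p' (G ^ m) := by
  obtain ⟨a1, a2⟩ := hM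
  have a1' : T2Space M.carrier := a1
  obtain ⟨N, p', hN⟩ := exists_orbit_of h1 ht (hc.pow hm)
  obtain ⟨b1, b2, -, -, -, g', g1, g3⟩ := hN.data
  have e : g' = g ^ m := g1.eq_of (hG.pow m)
  subst e
  let q : N.carrier → M.carrier := fun n => p (Function.surjInv g3.surj n)
  have hq : ∀ x, q (p' x) = p x := by
    intro x
    obtain ⟨n, hn⟩ := (g3.fib _ x).1 (Function.surjInv_eq g3.surj (p' x))
    refine (hp.fib _ _).2 ⟨m * n, ?_⟩
    rw [zpow_mul, zpow_natCast]
    exact hn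
  have hl : IsLocalDiffeomorph (𝓡 4) (𝓡 4) ∞ q := by
    intro n
    obtain ⟨x, rfl⟩ := g3.surj n
    exact cvsT_loc (N := N) (M := M) hq (g3.loc x) (hp.loc x)
  exact ⟨N, q, p', hN.closed,
    ⟨isLocalHomeomorph_iff_isCoveringMap.1 hl.isLocalHomeomorph, hl,
      cvsT_sheets hp hG hc hm g3 hq⟩, hN⟩

/-- the orbit space of a generator conjugate to `x ↦ r x / 2` -/
theorem twisted_of_Cj {M : Mfd4} (hM : T2Space M ∧ CompactSpace M) {p : V4 → M.carrier}
    {g : V4 ≃ₜ V4} {G : E4 ≃ₜ E4} (hp : OrbitMap g p) (hG : Extends G g) (h : Cj G (tauL r3)) :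
    TwistedProduct M := by
  obtain ⟨a1, a2⟩ := hM
  have a1' : T2Space M.carrier := a1
  have a2' : CompactSpace M.carrier := a2
  obtain ⟨Φ, hΦ, hc1⟩ := h.trans Cj_TT.symm
  obtain ⟨s, hs, hPD⟩ := hΦ.exists_sign
  obtain ⟨ψ, hψ, hψl⟩ := exists_restr_PDs hPD.inv
  have hG'eq : Φ * G * Φ⁻¹ = TT := by rw [hc1, mul_assoc, mul_inv_cancel, mul_one]
  have e1 : Extends TT (ψ⁻¹ * g * ψ) := by
    have h2 := (hψ.inv.mul hG).mul hψ
    rw [inv_inv, hG'eq] at h2
    exact h2
  have e4 : OrbitMap (ψ⁻¹ * g * ψ) (fun x => p (ψ x)) :=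
    hp.conj hψl (by group)
  have e5 : IsOrbit M (fun x => p (ψ x)) TT :=
    IsOrbit.mk' (M := M) (p := fun x => p (ψ x)) e4 e1 (Or.inr PD_TT) (Trap_tauL _)
  exact twistedProduct_iff.2 ((twisted_iff e5 PD_TT).2 chi_TT)

/-- if the class of the generator is trivial then all coverings with many sheets are standard -/
theorem virtuallyStandardT_of {M : Mfd4} (hM : T2Space M ∧ CompactSpace M) {p : V4 → M.carrier}
    {g : V4 ≃ₜ V4} {G : E4 ≃ₜ E4} (hp : OrbitMap g p) (hG : Extends G g) (h1 : PD (-1) G)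
    (hc : Contr G) (hE : chi G h1 = 1) : VirtuallyStandardT M := by
  obtain ⟨a1, a2⟩ := hM
  have a1' : T2Space M.carrier := a1
  have a2' : CompactSpace M.carrier := a2
  obtain ⟨m₀, hm₀⟩ := Off_pow hc
  refine ⟨max m₀ 1, fun m N q hm hN hq => ?_⟩
  have hmpos : 0 < m := lt_of_lt_of_le one_pos ((le_max_right _ _).trans hm)
  have c1 := hN.compact
  have c2 := hN.hausdorff
  have c3 : ConnectedSpace N.carrier := hN.connected
  obtain ⟨p', i1, -⟩ := cover_data hp hmpos hq.old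
  have hO : Off (G ^ m) := hm₀ m ((le_max_left _ _).trans hm)
  refine ⟨fun he => ?_, fun ho => ?_⟩
  · have hd : chi G h1 ^ 1 = 1 := by rw [pow_one, hE]
    have hE' : Ext (G ^ m) := Ext_of_chi_pow h1 hd (by rw [mul_one]; exact he.two_dvd)
    exact std_of_Cj ⟨c2, c1⟩ i1 (hG.pow m) (std_of_Off (h1.pow_even he) (hc.pow hmpos) hO hE')
  · have h2 : PD (-1) (G ^ m) := by
      have h3 := h1.powN m
      rwa [ho.neg_one_pow] at h3
    have h4 : chi (G ^ m) h2 = 1 := by rw [chi_pow h1 ho h2, hE, one_pow]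
    exact twisted_of_Cj ⟨c2, c1⟩ i1 (hG.pow m) (std_of_Off_neg h2 (hc.pow hmpos) hO h4)

/-- a virtually standard manifold with `Off` generator is standard -/
theorem twisted_of_virt {M : Mfd4} (hM : T2Space M ∧ CompactSpace M) {p : V4 → M.carrier}
    {g : V4 ≃ₜ V4} {G : E4 ≃ₜ E4} (hp : OrbitMap g p) (hG : Extends G g) (h1 : PD (-1) G)
    (hc : Contr G) (hO : Off G) (hV : VirtuallyStandardT M) : TwistedProduct M := by
  obtain ⟨m₀, hm₀⟩ := hV
  obtain ⟨m₁, hm₁⟩ := hc.trap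
  have key : ∀ m, m₀ ≤ m → m₁ ≤ m → Odd m → chi G h1 ^ m = 1 := by
    intro m e1 e2 ho
    have e3 : 0 < m := ho.pos
    have h2 : PD (-1) (G ^ m) := by
      have h3 := h1.powN m
      rwa [ho.neg_one_pow] at h3
    obtain ⟨N, q, p', hN, hq, hp'⟩ := cvsT_exists hM hp hG hc e3 h2 (hm₁ m e2)
    have h4 := twistedProduct_iff.1 ((hm₀ m N q e1 hN hq).2 ho)
    rw [← chi_pow h1 ho h2]
    exact (twisted_iff hp' h2).1 h4
  have h3 := key (2 * (m₀ + m₁) + 1) (by omega) (by omega) ⟨_, rfl⟩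
  have h4 := key (2 * (m₀ + m₁ + 1) + 1) (by omega) (by omega) ⟨_, rfl⟩
  have h5 : chi G h1 ^ 2 = 1 := by
    have e : 2 * (m₀ + m₁ + 1) + 1 = 2 + (2 * (m₀ + m₁) + 1) := by ring
    rwa [e, pow_add, h3, mul_one] at h4
  have h6 : chi G h1 = 1 := by
    rwa [pow_succ, pow_mul, h5, one_pow, one_mul] at h3
  exact twisted_of_Cj hM hp hG (std_of_Off_neg h1 hc hO h6)

end Pool.Agent.HopfTw
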