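import Pool.Agent.HopfTw.Level
import Pool.Agent.HopfFin.MainE

/-!
# Infinitely many generators of trivial class which are not `Off`, orientation reversing case
-/

set_option autoImplicit false

open scoped ContDiff Topology
open Set Filter Metric

namespace Pool.Agent.HopfTw

open Pool.Agent.HopfCov
open Pool.Agent.HopfFin hiding pr

/-- **The theorem for generators of trivial class** -/
theorem main_E_neg {G T : E4 ≃ₜ E4} (hG : Sm G) (hT : GoodR r3 G T) (hO : ¬ Off G)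
    (hPD : PD (-1) G) (hdx : chi G hPD = 1) :
    ∃ V : ℕ → (E4 ≃ₜ E4), (∀ k, PD (-1) (V k) ∧ (∀ h, chi (V k) h = 1) ∧ ¬ Off (V k) ∧
      ∃ T' : E4 ≃ₜ E4, GoodR r3 (V k) T') ∧ ∀ i j, i ≠ j → ¬ CjV (V i) (V j) := by
  have _ := hG
  have hc : Contr G := hT.contr Rf_r3
  have hd : 0 < 1 := Nat.one_pos
  obtain ⟨d, hd1⟩ : ∃ d : ℕ, d = 1 := ⟨1, rfl⟩
  have hd : 0 < d := by omega
  obtain ⟨m₀, hm₀⟩ := Off_pow hc
  have hm : 0 < 2 * d * (m₀ + 1) := by positivity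
  have hMm : m₀ ≤ 2 * d * (m₀ + 1) := by nlinarith
  have hE : Ext (G ^ (2 * d * (m₀ + 1))) := Ext_of_chi_pow (d := 1) hPD (by rw [pow_one]; exact hdx)
    ⟨d * (m₀ + 1), by ring⟩
  have hev : Even (2 * d * (m₀ + 1)) := ⟨d * (m₀ + 1), by ring⟩
  obtain ⟨φ, hφ, hφm⟩ := std_of_Off (hPD.pow_even hev) (hc.pow hm) (hm₀ _ hMm) hE
  obtain ⟨κ, K, hκ, h0, hK, hκK⟩ := normal_form_r Rf_r3 hT hm hev hφ hφm
  have hcj : Cj G (K * tauL r3 * K⁻¹) := by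
    rw [← hκK]
    exact Cj_conj G hκ
  have hg : PD (-1) (K * tauL r3 * K⁻¹) := PD_Cj hcj hPD
  have hg1 : chi (K * tauL r3 * K⁻¹) hg = 1 := by
    rw [chi_Cj hcj hPD hg]
    exact hdx
  have hgx : chi (K * tauL r3 * K⁻¹) hg ^ d = 1 := by rw [hg1, one_pow]
  have hgO : ¬ Off (K * tauL r3 * K⁻¹) := fun h => hO ((Off.congr hcj).2 h)
  have hVc : ∀ n c : ℕ, Odd n → 0 < c → Contr (VT r3 K n c) := fun n c hn hc1 => by
    obtain ⟨T', hT'⟩ := VT_good Rf_r3 h0 hK hn hc1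
    exact hT'.contr Rf_r3
  -- arbitrarily large odd exponents with a power which is not `Off`
  have hlarge : ∀ N : ℕ, ∃ x : ℕ × ℕ × ℕ, N ≤ x.2.2 ∧ Odd x.1 ∧ 0 < x.2.1 ∧ 0 < x.2.2 ∧
      ¬ Off (VT r3 K x.1 x.2.1 ^ x.2.2) := by
    intro N
    have hn : Odd (2 * N + 1) := odd_two_mul_add_one N
    have hc2 : 0 < 2 * d := by omega
    by_cases h1 : Off (VT r3 K (2 * N + 1) (2 * d) ^ (2 * N + 1))
    · have hV : PD (-1) (VT r3 K (2 * N + 1) (2 * d)) := VT_PD h0 hK hg hn hc2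
      have hVn := hV.pow_odd hn
      have h2d : chi (K * tauL r3 * K⁻¹) hg ^ (2 * d) = 1 := by
        rw [mul_comm 2 d, pow_mul, hgx, one_pow]
      have h2 : chi (VT r3 K (2 * N + 1) (2 * d) ^ (2 * N + 1)) hVn = 1 := by
        rw [chi_pow hV hn, chi_VT h0 hK hg hn hc2, h2d, one_pow]
      have h3 := std_of_Off_neg hVn ((hVc _ _ hn hc2).pow (Nat.succ_pos _)) h1 h2
      rw [VT_pow Rf_r3 K hn] at h3
      have h4 := removal_r Rf_r3 h0 hK (Nat.succ_pos _) hd h3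
      have hodd : Odd ((2 * N + 1) * (2 * d) + 1) := ⟨(2 * N + 1) * d, by ring⟩
      refine ⟨((2 * N + 1) * (2 * d) + 1, 1, (2 * N + 1) * (2 * d) + 1), ?_, hodd,
        Nat.one_pos, Nat.succ_pos _, ?_⟩
      · show N ≤ (2 * N + 1) * (2 * d) + 1
        nlinarith
      · show ¬ Off (VT r3 K ((2 * N + 1) * (2 * d) + 1) 1 ^ ((2 * N + 1) * (2 * d) + 1))
        rw [VT_pow Rf_r3 K hodd, mul_one]
        exact fun h => hgO ((Off.congr h4).1 h)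
    · exact ⟨(2 * N + 1, 2 * d, 2 * N + 1), by show N ≤ 2 * N + 1; omega, hn, hc2,
        Nat.succ_pos _, h1⟩
  -- the sequence
  obtain ⟨f, hf1, hf2⟩ := exists_seq_of_forall_finset_exists
    (fun x : ℕ × ℕ × ℕ => Odd x.1 ∧ 0 < x.2.1 ∧ 0 < x.2.2 ∧
      ¬ Off (VT r3 K x.1 x.2.1 ^ x.2.2))
    (fun x y : ℕ × ℕ × ℕ => Off (VT r3 K x.1 x.2.1 ^ y.2.2)) (by
      intro s hs
      have hb : ∀ x ∈ s, ∃ b : ℕ, ∀ e ≥ b, Off (VT r3 K x.1 x.2.1 ^ e) := fun x hx =>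
        Off_pow (hVc _ _ (hs x hx).1 (hs x hx).2.1)
      choose! b hb' using hb
      obtain ⟨y, hy1, hy2⟩ := hlarge (s.sup b)
      exact ⟨y, hy2, fun x hx => hb' x hx _ (le_trans (Finset.le_sup hx) hy1)⟩)
  have hkey : ∀ i j : ℕ, i < j →
      ¬ CjV (VT r3 K (f i).1 (f i).2.1) (VT r3 K (f j).1 (f j).2.1) := fun i j hij hcon =>
    (hf1 j).2.2.2 (CjV.off (hVc _ _ (hf1 j).1 (hf1 j).2.1) (hVc _ _ (hf1 i).1 (hf1 i).2.1)
      hcon.symm (hf1 j).2.2.1 (hf2 i j hij))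
  refine ⟨fun k => VT r3 K (f k).1 (f k).2.1, fun k =>
    ⟨VT_PD h0 hK hg (hf1 k).1 (hf1 k).2.1,
      fun h => by rw [chi_VT h0 hK hg (hf1 k).1 (hf1 k).2.1 h, hg1, one_pow],
      fun hcon => (hf1 k).2.2.2 (Off_of_pow hcon (hf1 k).2.2.1),
      VT_good Rf_r3 h0 hK (hf1 k).1 (hf1 k).2.1⟩,
    fun i j hij hcon => ?_⟩
  rcases lt_or_gt_of_ne hij with h | h
  · exact hkey i j h hcon
  · exact hkey j i h hcon.symm

end Pool.Agent.HopfTw
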