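import Pool.Agent.HopfTw.Space
import Pool.Agent.HopfTw.OffIn
import Pool.Agent.HopfFin.OffIff
import Pool.Agent.HopfRem.Final

/-!
# Manifolds which are standard off one point, non-orientable case

As `off_of_offPoint` and `offPoint_of_sing` in `HopfFin/OffIff.lean` (proved there by helper20), with
`almost_neg` instead of `almost_pos`, and the orbit map `q₀` of a twisted product `X`
(`exists_twisted`) with generator `TT` instead of `modelDir` (`exists_perm` relates `TT` and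
`tauL r3`: replace `Φ` by `(linH L)⁻¹ * Φ`).
-/

set_option autoImplicit false

open scoped ContDiff Topology Manifold
open Set Filter Metric

namespace Pool.Agent.HopfTw

open Pool.Agent.HopfCov hiding pr
open Pool.Agent.HopfFin
open Pool.Agent.HopfCov.Smooth

private theorem LD_of_Reg_OffIffT {T : E4 ≃ₜ E4} {x : E4} (h : Reg T x) :
    ∃ s : ℝ, ∀ᶠ y in 𝓝 x, LD s T y := by
  have hx := h.self_of_nhds
  have hc : ContinuousAt (fderiv ℝ T) x := hx.1.continuousAt_fderiv (by simp)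
  have hd : ContinuousAt (fun y => (fderiv ℝ T y).det) x :=
    ContinuousLinearMap.continuous_det.continuousAt.comp hc
  refine ⟨(fderiv ℝ T x).det, ?_⟩
  have h0 : 0 < (fderiv ℝ T x).det * (fderiv ℝ T x).det := mul_self_pos.2 hx.2
  have h1 : ∀ᶠ y in 𝓝 x, 0 < (fderiv ℝ T x).det * (fderiv ℝ T y).det :=
    (continuousAt_const.mul hd).eventually (isOpen_Ioi.mem_nhds h0)
  filter_upwards [h, h1] with y hy hy1 using ⟨hy.1, hy1⟩

/-- the generator of a manifold which is standard off one point is `Off` -/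
theorem off_of_offPointT {M : Mfd4} (hM : T2Space M ∧ CompactSpace M) {p : V4 → M.carrier}
    {g : V4 ≃ₜ V4} {G : E4 ≃ₜ E4} (hp : OrbitMap g p) (hG : Extends G g) (hc : Contr G)
    (h : OffPointT M) : Off G := by
  obtain ⟨X, hX, hoff⟩ := h
  have hMX : AlmostDiffeo M X := (almost_off (Or.inr hX)).2 hoff
  obtain ⟨p', G', h1, -⟩ := (almost_neg hX).1 hMX
  obtain ⟨b1, b2, b3, b4, b5, g', b6, b7⟩ := (orbit_eq.1 h1).data
  have hd : Diffeomorphic M M :=
    ⟨id, Function.bijective_id, (Diffeomorph.refl (𝓡 4) M.carrier ∞).isLocalDiffeomorph⟩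
  have h2 : CjV G (show E4 ≃ₜ E4 from G') :=
    cjV_of_diffeo hM ⟨b1, b2⟩ hp b7 hG b6 hc b5 hd
  have h3 := h2.off hc b5 (n := 1) one_pos (by rw [pow_one]; exact ⟨_, b4, Cj.refl _⟩)
  rwa [pow_one] at h3

/-- a homeomorphism with one singular orbit which conjugates the generator to `x ↦ r x / 2` -/
theorem offPointT_of_sing {M : Mfd4} (hM : T2Space M ∧ CompactSpace M) {p : V4 → M.carrier}
    {g : V4 ≃ₜ V4} {G Φ : E4 ≃ₜ E4} (hp : OrbitMap g p) (hG : Extends G g) (h0 : Φ 0 = 0)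
    (hΦ : Φ * G = tauL r3 * Φ) {b : E4} (hb : b ≠ 0)
    (hr : ∀ x, x ≠ 0 → (∀ k : ℤ, x ≠ (G ^ k : E4 ≃ₜ E4) b) → Reg Φ x) : OffPointT M := by
  obtain ⟨a1, a2⟩ := hM
  have a1' : T2Space M.carrier := a1
  have a2' : CompactSpace M.carrier := a2
  obtain ⟨X, q, hq1⟩ := exists_orbit_of PD_TT (Trap_tauL _) Contr_TT
  have hX : TwistedProduct X := by
    rw [← rho_eq] at hq1
    exact ⟨q, orbit_eq.2 hq1⟩
  obtain ⟨-, -, -, -, -, τ, h5, hq2⟩ := hq1.data
  obtain ⟨L, -, hLc⟩ := exists_perm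
  have hS := (Sm_linH L).inv
  have h0' : ((linH L)⁻¹ * Φ : E4 ≃ₜ E4) 0 = 0 := by
    rw [mul_apply', h0]
    exact hS.1
  have hΦ' : (linH L)⁻¹ * Φ * G = TT * ((linH L)⁻¹ * Φ) := by
    rw [mul_assoc, hΦ, inv_mul_eq_iff_eq_mul, ← mul_assoc, ← mul_assoc, hLc, mul_assoc (tauL r3),
      mul_inv_cancel, mul_one]
  obtain ⟨k, k1, -, k3⟩ := restr_gen ((linH L)⁻¹ * Φ) h0'
  have k1' : Extends ((linH L)⁻¹ * Φ) k := fun x => (k1 x).symm
  have hconj : k * g = τ * k := by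
    have d1 : Extends ((linH L)⁻¹ * Φ * G) (k * g) := k1'.mul hG
    have d2 : Extends (TT * ((linH L)⁻¹ * Φ)) (τ * k) := h5.mul k1'
    rw [hΦ'] at d1
    exact d1.eq_of d2
  obtain ⟨F, F1, F2⟩ := descend_gen hp hq2.surj hq2.loc hq2.fib k hconj
  refine ⟨X, hX, F, p ⟨b, hb⟩, fun x hx => ?_⟩
  obtain ⟨y, rfl⟩ := hp.surj x
  refine F2 y ?_
  have hy0 : (y : E4) ≠ 0 := y.2
  have hreg : Reg Φ (y : E4) := by
    refine hr _ hy0 fun n hn => hx ?_
    exact ((hp.fib ⟨b, hb⟩ y).2 ((orbit_iff hG ⟨b, hb⟩ y).1 ⟨n, hn⟩)).symm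
  have hne : Φ (y : E4) ≠ 0 := fun h => hy0 (Φ.injective (by rw [h, h0]))
  have hreg' : Reg ((linH L)⁻¹ * Φ : E4 ≃ₜ E4) (y : E4) :=
    Reg.comp (f := Φ) (g := ((linH L)⁻¹ : E4 ≃ₜ E4)) (hS.reg hne) hreg
  obtain ⟨s, hs⟩ := LD_of_Reg_OffIffT hreg'
  exact k3 s y hs

end Pool.Agent.HopfTw
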