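import Pool.Agent.HopfTw.FinIdx
import Pool.Agent.HopfTw.MainE
import Pool.Agent.HopfTw.OffIff
import Pool.Agent.HopfTw.CovStd
import Pool.Agent.HopfFin.FinalPlus

/-!
# Infinitely many virtually standard manifolds which are not standard off one point,
non-orientable case
-/

set_option autoImplicit false

open scoped ContDiff Topology Manifold
open Set Filter Metric

namespace Pool.Agent.HopfTw

open Pool.Agent.HopfCov
open Pool.Agent.HopfFin hiding pr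
open Pool.Agent.HopfCov.Smooth

/-- the generator of a manifold which is not standard off one point, after a change of the smooth
structure along one orbit -/
theorem exists_star_T {M : Mfd4} (hM : InT M) (hO : ¬ OffPointT M) :
    ∃ (G T : E4 ≃ₜ E4) (h : PD (-1) G), GoodR r3 G T ∧ ¬ Off G ∧ chi G h = 1 := by
  obtain ⟨h1, h2, p, g, G, T, h3, h4, h5, h6, h7⟩ := lift_good_neg hM
  have he0 := e0_ne_level
  have hPD : PD (-1) G := h7.PD h5
  have hT0 := h7.zero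
  have hr3 : r3 e1 = e1 := Rf_r3.fix1
  obtain ⟨b, hb⟩ : ∃ b : E4, b = (T⁻¹ : E4 ≃ₜ E4) e1 := ⟨_, rfl⟩
  have hTb : T b = e1 := by rw [hb, apply_inv_self']
  have he1 : e1 ≠ 0 := by
    intro h
    have h8 := congrArg (fun x : E4 => x 1) h
    simp [e1] at h8
  have hb0 : b ≠ 0 := fun h => he1 (by rw [← hTb, h, hT0])
  have hconj : ∀ k : ℤ, T * G ^ k = tauL r3 ^ k * T := fun k =>
    ((show SemiconjBy T G (tauL r3) from h7.conj).zpow_right k).eq
  have htau : ∀ k : ℤ, (tauL r3 ^ k : E4 ≃ₜ E4) e1 = ((2 : ℝ) ^ (-k)) • e1 := by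
    have hfix : ∀ c : ℝ, tauL r3 (c • e1) = (2⁻¹ : ℝ) • c • e1 := by
      intro c
      show (2⁻¹ : ℝ) • r3 (c • e1) = _
      rw [map_smul, hr3]
    intro k
    induction k using Int.induction_on with
    | zero => simp
    | succ n ih =>
      have h1 : (tauL r3 ^ ((n : ℤ) + 1) : E4 ≃ₜ E4) = tauL r3 * tauL r3 ^ (n : ℤ) := by
        rw [add_comm, zpow_add, zpow_one]
      rw [h1, mul_apply', ih, hfix, smul_smul, neg_add, zpow_add₀ two_ne_zero, zpow_neg_one,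
        mul_comm]
    | pred n ih =>
      have h1 : (tauL r3 ^ (-(n : ℤ) - 1) : E4 ≃ₜ E4) = (tauL r3)⁻¹ * tauL r3 ^ (-(n : ℤ)) := by
        rw [sub_eq_neg_add, zpow_add, zpow_neg_one]
      have h2 : ∀ c : ℝ, ((tauL r3)⁻¹ : E4 ≃ₜ E4) (c • e1) = (2 : ℝ) • c • e1 := by
        intro c
        apply (tauL r3 : E4 ≃ₜ E4).injective
        rw [apply_inv_self', smul_smul, hfix, smul_smul, ← mul_assoc,
          inv_mul_cancel₀ two_ne_zero, one_mul]
      rw [h1, mul_apply', ih, h2, smul_smul]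
      congr 1
      have h3 : (-(-(n : ℤ) - 1)) = 1 + (n : ℤ) := by ring
      rw [h3, neg_neg, zpow_add₀ two_ne_zero, zpow_one]
  have hk : ∀ k : ℤ, T ((G ^ k : E4 ≃ₜ E4) b) = ((2 : ℝ) ^ (-k)) • T b := by
    intro k
    rw [← mul_apply', hconj, mul_apply', hTb, htau]
  have hτ : PD (-1) (tauL r3) := PD_tauL_r3
  have hu : PD 1 (G * (tauL r3)⁻¹) := hPD.mul_neg hτ.inv
  obtain ⟨Q, q1, q2, q3, q4⟩ := resmooth_gen (s := -1) (by norm_num) hPD hT0 hb0 hk hu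
  have hreg : ∀ x, x ≠ 0 → (∀ k : ℤ, x ≠ (G ^ k : E4 ≃ₜ E4) b) → Reg Q x := by
    intro x hx hxb
    filter_upwards [ev_off_gen hT0 hk hx hb0 hxb] with y hy
    have h8 := q2 y hy.1 hy.2
    exact ⟨h8.1, fun h9 => by
      have h10 := h8.2
      rw [h9, mul_zero] at h10
      exact lt_irrefl _ h10⟩
  -- the class
  have hW : PD 1 (Q * G * Q⁻¹ * G⁻¹) := q3.mul_neg hPD.inv
  have hchi : chi (Q * G * Q⁻¹) q3 = 1 := by
    have e1 : Q * G * Q⁻¹ = (Q * G * Q⁻¹ * G⁻¹) * G := by group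
    have e2 : G = (G * (tauL r3)⁻¹) * tauL r3 := by group
    have e3 : chi G hPD = pr (cls _ hu) := by
      rw [chi_congr e2 hPD (hu.mul_pos_neg hτ), chi_mul hu hτ, chi_tauL, mul_one]
    have e4 : cls _ hW * cls _ hu = 1 := by
      rw [← cls_mul' hW hu (hW.mul_one' hu), cls_eq_one]
      exact q4
    rw [chi_congr e1 q3 (hW.mul_pos_neg hPD), chi_mul hW hPD, e3, ← map_mul, e4, map_one]
  refine ⟨Q * G * Q⁻¹, T * Q⁻¹, q3, ⟨?_, ?_, ?_⟩, ?_, hchi⟩
  · have h8 : (Q⁻¹ : E4 ≃ₜ E4) 0 = 0 := Q.injective (by rw [apply_inv_self', q1])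
    rw [mul_apply', h8, hT0]
  · calc T * Q⁻¹ * (Q * G * Q⁻¹) = (T * G) * Q⁻¹ := by group
      _ = tauL r3 * (T * Q⁻¹) := by rw [h7.conj]; group
  · intro t ht
    obtain ⟨x, hx⟩ : ∃ x : E4, x = (T⁻¹ : E4 ≃ₜ E4) (t • e0) := ⟨_, rfl⟩
    have hTx : T x = t • e0 := by rw [hx, apply_inv_self']
    have h8 : ((T * Q⁻¹)⁻¹ : E4 ≃ₜ E4) (t • e0) = Q x := by
      rw [mul_inv_rev, inv_inv, mul_apply', hx]
    have hx0 : x ≠ 0 := by
      intro h
      rw [h, hT0] at hTx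
      exact smul_ne_zero ht.ne' he0 hTx.symm
    have hxb : ∀ k : ℤ, x ≠ (G ^ k : E4 ≃ₜ E4) b := by
      intro k hk'
      have h9 : T x = ((2 : ℝ) ^ (-k)) • e1 := by rw [hk', hk, hTb]
      rw [hTx] at h9
      have h10 := congrArg (fun x : E4 => x 0) h9
      simp [e0, e1, ht.ne'] at h10
    have h9 : Reg Q x := hreg x hx0 hxb
    have h10 : Reg T x := by
      have := h7.reg t ht
      rwa [← hx] at this
    rw [h8]
    have h11 : Reg (Q⁻¹ : E4 ≃ₜ E4) (Q x) := h9.symm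
    have h12 : Reg T ((Q⁻¹ : E4 ≃ₜ E4) (Q x)) := by rwa [inv_apply_self']
    show Reg ((T : E4 → E4) ∘ (Q⁻¹ : E4 ≃ₜ E4)) (Q x)
    exact Reg.comp h12 h11
  · intro hoff
    have hc : Contr (Q * G * Q⁻¹) := h6.conj q1
    obtain ⟨φ, f1, f2⟩ := std_of_Off_neg q3 hc hoff hchi
    refine hO (offPointT_of_sing (Φ := φ * Q) ⟨h1, h2⟩ h3 h4 (by rw [mul_apply', q1, f1.1]) ?_
      hb0 ?_)
    · calc φ * Q * G = (φ * (Q * G * Q⁻¹)) * Q := by group
        _ = tauL r3 * (φ * Q) := by rw [f2]; group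
    · intro x hx hxb
      have h8 : Q x ≠ 0 := fun h => hx (Q.injective (by rw [h, q1]))
      show Reg ((φ : E4 → E4) ∘ Q) x
      exact Reg.comp (f1.reg h8) (hreg x hx hxb)

/-- **Theorem F+, non-orientable case** -/
theorem infinite_plus_T {M : Mfd4} (hM : InT M) (hO : ¬ OffPointT M) :
    ∃ N : ℕ → Mfd4, (∀ k, InT (N k) ∧ ¬ OffPointT (N k) ∧ VirtuallyStandardT (N k)) ∧
      ∀ i j, i ≠ j → ¬ Diffeomorphic (N i) (N j) := by
  obtain ⟨G, T, h1, h2, h3, h4⟩ := exists_star_T hM hO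
  obtain ⟨V, h8, h9⟩ := main_E_neg (Sm_of_PD h1) h2 h3 h1 h4
  choose T' h10 using fun k => (h8 k).2.2.2
  choose N q γ i1 i2 i3 i4 i5 using fun k => space_good_neg (h8 k).1 (h10 k)
  refine ⟨N, fun k => ⟨i1 k, fun hoff => (h8 k).2.2.1 (off_of_offPointT ⟨i2 k, i3 k⟩ (i4 k) (i5 k)
    ((h10 k).contr Rf_r3) hoff), virtuallyStandardT_of ⟨i2 k, i3 k⟩ (i4 k) (i5 k)
    (h8 k).1 ((h10 k).contr Rf_r3) ((h8 k).2.1 _)⟩, fun i j hij hd => h9 i j hij
      (cjV_of_diffeo ⟨i2 i, i3 i⟩ ⟨i2 j, i3 j⟩ (i4 i) (i4 j) (i5 i) (i5 j)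
        ((h10 i).contr Rf_r3) ((h10 j).contr Rf_r3) hd)⟩

/-- all members of `T` are standard off one point if and only if all the virtually standard ones
are standard -/
theorem offPointT_iff_virt : (∀ M : Mfd4, InT M → OffPointT M) ↔
    ∀ M : Mfd4, InT M → VirtuallyStandardT M → TwistedProduct M := by
  constructor
  · intro h M hM hV
    obtain ⟨h1, h2, p, g, G, T, h3, h4, h5, h6, h7⟩ := lift_good_neg hM
    exact twisted_of_virt ⟨h1, h2⟩ h3 h4 (h7.PD h5) h6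
      (off_of_offPointT ⟨h1, h2⟩ h3 h4 h6 (h M hM)) hV
  · intro h M hM
    by_contra hO
    obtain ⟨N, h1, -⟩ := infinite_plus_T hM hO
    obtain ⟨h2, h3, h4⟩ := h1 0
    have h5 := h _ h2 h4
    refine h3 ⟨N 0, h5, Homeomorph.refl _, ?_⟩
    obtain ⟨p, hp⟩ := h2.univ
    exact ⟨p ⟨e0, e0_ne_level⟩, fun x _ =>
      (Diffeomorph.refl (𝓡 4) (N 0).carrier ∞).isLocalDiffeomorph x⟩

end Pool.Agent.HopfTw
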