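import Pool.Agent.HopfTw.Final
import Pool.Agent.HopfFin.FinIdx

/-!
# Finiteness of the class `T` and the index of `[P, P]` in `D`
-/

set_option autoImplicit false

open scoped ContDiff Topology Manifold
open Set Filter Metric

namespace Pool.Agent.HopfTw

open Pool.Agent.HopfCov hiding pr
open Pool.Agent.HopfFin
open Pool.Agent.HopfCov.Smooth

private theorem fi_PP : (derP : Subgroup Homeo4) = (⁅PP, PP⁆ : Subgroup (E4 ≃ₜ E4)) := by
  rw [derP_eq, groupP_eq]

private theorem fi_derD_le : derD ≤ derP := by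
  have h0 : groupD ≤ groupP := by
    rw [groupD_eq, groupP_eq]
    exact DD_le_PP
  exact Subgroup.commutator_mono (h0 : grpD ≤ grpP) (h0 : grpD ≤ grpP)

private theorem fi_derP_le : derP ≤ grpD := comm_le_D

private theorem fi_derP_leP : derP ≤ grpP := by
  have h0 : groupD ≤ groupP := by
    rw [groupD_eq, groupP_eq]
    exact DD_le_PP
  exact fi_derP_le.trans (h0 : grpD ≤ grpP)

private theorem fi_neg {G : Homeo4} (hP : G ∈ grpP) (hD : G ∉ grpD) :
    PD (-1) (show E4 ≃ₜ E4 from G) := by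
  rcases mem_groupP.1 hP with h | h
  · exact absurd (mem_groupD.2 h) hD
  · exact h

private theorem fi_rho : PD (-1) (show E4 ≃ₜ E4 from rho) := by
  rw [rho_eq]
  exact PD_TT

private theorem fi_rho_P : rho ∈ grpP := mem_groupP.2 (Or.inr fi_rho)

/-- orbit spaces of orientation reversing trapping contractions -/
private theorem fi_diffeo {M M' : Mfd4} {p : Punctured → M} {p' : Punctured → M'}
    {G G' : Homeo4} (h : Orbit M p G) (h' : Orbit M' p' G') (hG : G ∉ grpD) (hG' : G' ∉ grpD) :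
    Diffeomorphic M M' ↔ G' * G⁻¹ ∈ derP := by
  have h1 := fi_neg h.mem hG
  have h2 := fi_neg h'.mem hG'
  rw [diffeo_neg_iff (orbit_eq.1 h) (orbit_eq.1 h') h1 h2, chi_eq_iff h1 h2, fi_PP]
  exact Iff.rfl

/-- the class does not depend on conjugations -/
private theorem fi_conj {k g : Homeo4} (hk : k ∈ grpP) (hg : g ∈ derP) : k * g * k⁻¹ ∈ derP := by
  have h1 : k * g * k⁻¹ * g⁻¹ ∈ derP :=
    Subgroup.commutator_mem_commutator hk (fi_derP_leP hg)
  have h2 := derP.mul_mem h1 hg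
  rwa [inv_mul_cancel_right] at h2

/-- **finiteness**: the class `T` is finite up to diffeomorphism if and only if all its members are
standard off one point and `[P, P]` has finite index in `D` -/
theorem finite_iff_T :
    FinitelyManyT ↔ (∀ M : Mfd4, InT M → OffPointT M) ∧ derP.relIndex grpD ≠ 0 := by
  obtain ⟨X, hX⟩ := exists_twisted
  have hX' : TwistedProduct X := twistedProduct_iff.2 hX
  -- representatives
  have hrep : ∀ g : grpD, ∃ (M : Mfd4) (p : Punctured → M) (G : Homeo4), Orbit M p G ∧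
      G ∉ grpD ∧ G * ((g : Homeo4) * rho)⁻¹ ∈ derP := by
    intro g
    have hg : PD 1 (show E4 ≃ₜ E4 from (g : Homeo4)) := mem_groupD.1 g.2
    have h0 : PD (-1) (show E4 ≃ₜ E4 from ((g : Homeo4) * rho)) := hg.mul_pos_neg fi_rho
    obtain ⟨M, p, G, h1, h2⟩ := realise (h := (g : Homeo4) * rho) (mem_groupP.2 (Or.inr h0))
    refine ⟨M, p, G, h1, fun hG => ?_, fi_derD_le h2⟩
    have h3 : (g : Homeo4) * rho ∈ grpD := by
      have h4 := grpD.mul_mem (grpD.inv_mem (fi_derP_le (fi_derD_le h2))) hG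
      have h5 : (G * ((g : Homeo4) * rho)⁻¹)⁻¹ * G = (g : Homeo4) * rho := by group
      rwa [h5] at h4
    exact PD_ne (mem_groupD.1 h3) h0
  choose Mq pq Gq h1 h2 h3 using hrep
  have hT : ∀ g, InT (Mq g) := fun g =>
    inT_of_offPoint hX' ((almost_neg hX').2 ⟨pq g, Gq g, h1 g, h2 g⟩)
  -- comparison of two representatives
  have hcomp : ∀ a b : grpD, Diffeomorphic (Mq a) (Mq b) ↔ (b : Homeo4) * (a : Homeo4)⁻¹ ∈ derP := by
    intro a b
    rw [fi_diffeo (h1 a) (h1 b) (h2 a) (h2 b)]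
    constructor
    · intro h
      have e : (b : Homeo4) * (a : Homeo4)⁻¹ = (Gq b * ((b : Homeo4) * rho)⁻¹)⁻¹ *
          (Gq b * (Gq a)⁻¹) * (Gq a * ((a : Homeo4) * rho)⁻¹) := by group
      rw [e]
      exact derP.mul_mem (derP.mul_mem (derP.inv_mem (h3 b)) h) (h3 a)
    · intro h
      have e : Gq b * (Gq a)⁻¹ = (Gq b * ((b : Homeo4) * rho)⁻¹) *
          ((b : Homeo4) * (a : Homeo4)⁻¹) * (Gq a * ((a : Homeo4) * rho)⁻¹)⁻¹ := by group
      rw [e]
      exact derP.mul_mem (derP.mul_mem (h3 b) h) (derP.inv_mem (h3 a))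
  have hquot : ∀ a b : grpD, ((a : grpD ⧸ derP.subgroupOf grpD) = b) ↔
      (b : Homeo4) * (a : Homeo4)⁻¹ ∈ derP := by
    intro a b
    rw [QuotientGroup.eq, Subgroup.mem_subgroupOf]
    have e1 : ((a⁻¹ * b : grpD) : Homeo4) = (a : Homeo4)⁻¹ * (b : Homeo4) := rfl
    rw [e1]
    have haP : (a : Homeo4) ∈ grpP := mem_groupP.2 (Or.inl (mem_groupD.1 a.2))
    constructor
    · intro h
      have h4 := fi_conj haP h
      have h5 : (a : Homeo4) * ((a : Homeo4)⁻¹ * (b : Homeo4)) * (a : Homeo4)⁻¹ =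
          (b : Homeo4) * (a : Homeo4)⁻¹ := by group
      rwa [h5] at h4
    · intro h
      have h4 := fi_conj (grpP.inv_mem haP) h
      have h5 : (a : Homeo4)⁻¹ * ((b : Homeo4) * (a : Homeo4)⁻¹) * ((a : Homeo4)⁻¹)⁻¹ =
          (a : Homeo4)⁻¹ * (b : Homeo4) := by group
      rwa [h5] at h4
  constructor
  · intro hf
    refine ⟨fun M hM => offPointT_of_finite hf hM, ?_⟩
    obtain ⟨n, F, hF⟩ := hf
    choose i hi using fun g => hF (Mq g) (hT g)
    have hfin : Finite (grpD ⧸ derP.subgroupOf grpD) := by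
      refine Finite.of_injective (fun q => i (Quotient.out q)) fun q q' hqq => ?_
      have h4 : Diffeomorphic (Mq (Quotient.out q)) (Mq (Quotient.out q')) := by
        have h5 := hi (Quotient.out q)
        rw [show i (Quotient.out q) = i (Quotient.out q') from hqq] at h5
        exact diffeo_trans h5 (diffeo_symm (hi _))
      have h6 := (hquot _ _).2 ((hcomp _ _).1 h4)
      rwa [QuotientGroup.out_eq', QuotientGroup.out_eq'] at h6
    have : (derP.subgroupOf grpD).FiniteIndex := Subgroup.finiteIndex_of_finite_quotient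
    exact this.index_ne_zero
  · rintro ⟨hO, hidx⟩
    have hfin : Finite (grpD ⧸ derP.subgroupOf grpD) := by
      have : (derP.subgroupOf grpD).FiniteIndex := ⟨hidx⟩
      infer_instance
    obtain ⟨n, ⟨e⟩⟩ := Finite.exists_equiv_fin (grpD ⧸ derP.subgroupOf grpD)
    refine ⟨n, fun i => Mq (Quotient.out (e.symm i)), fun M hM => ?_⟩
    obtain ⟨X₁, hX₁, hMX⟩ := hO M hM
    obtain ⟨p, G, h4, h5⟩ := (almost_neg hX₁).1 ((almost_off (Or.inr hX₁)).2 hMX)
    have h6 : G * rho⁻¹ ∈ grpD :=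
      mem_groupD.2 ((fi_neg h4.mem h5).mul_neg fi_rho.inv)
    refine ⟨e ((⟨G * rho⁻¹, h6⟩ : grpD) : grpD ⧸ derP.subgroupOf grpD), ?_⟩
    show Diffeomorphic M (Mq (Quotient.out (e.symm (e _))))
    rw [Equiv.symm_apply_apply]
    set a : grpD := Quotient.out ((⟨G * rho⁻¹, h6⟩ : grpD) : grpD ⧸ derP.subgroupOf grpD) with ha
    have h7 : (a : grpD ⧸ derP.subgroupOf grpD) = ((⟨G * rho⁻¹, h6⟩ : grpD) : _) := by
      rw [ha]
      exact QuotientGroup.out_eq' _
    have h8 := (hquot _ _).1 h7.symm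
    rw [fi_diffeo h4 (h1 a) h5 (h2 a)]
    have e1 : Gq a * G⁻¹ = (Gq a * ((a : Homeo4) * rho)⁻¹) *
        ((a : Homeo4) * (((⟨G * rho⁻¹, h6⟩ : grpD) : Homeo4))⁻¹) := by
      show Gq a * G⁻¹ = (Gq a * ((a : Homeo4) * rho)⁻¹) * ((a : Homeo4) * (G * rho⁻¹)⁻¹)
      group
    rw [e1]
    exact derP.mul_mem (h3 a) h8

end Pool.Agent.HopfTw
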