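import Pool.Agent.HopfTw.Basic
import Pool.Agent.HopfFin.NormMap

/-!
# The norm preserving map of a loop of linear maps

Plan: the proof in `HopfFin/NormMap.lean` (the same map `Ψ`); only the equivariance changes:
`D (s / 2) (r x) = r (D s x)` gives `Ψ (r x / 2) = r (Ψ x) / 2`.
-/

set_option autoImplicit false

open scoped ContDiff Topology
open Set Filter Metric

namespace Pool.Agent.HopfTw

open Pool.Agent.HopfCov hiding pr
open Pool.Agent.HopfFin

/-- the map `Ψ` -/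
private noncomputable def nmF (D : ℝ → E4 →L[ℝ] E4) (x : E4) : E4 :=
  (‖x‖ / ‖D ‖x‖ x‖) • D ‖x‖ x

private theorem nm_inj {A : E4 →L[ℝ] E4} (hA : A.det ≠ 0) {x : E4} (hx : A x = 0) : x = 0 := by
  have h1 : (A.toContinuousLinearEquivOfDetNeZero hA) x = 0 := hx
  exact (A.toContinuousLinearEquivOfDetNeZero hA).map_eq_zero_iff.1 h1

private theorem nm_ne {A : E4 →L[ℝ] E4} (hA : A.det ≠ 0) {x : E4} (hx : x ≠ 0) : A x ≠ 0 :=
  fun h => hx (nm_inj hA h)

private theorem nmF_zero (D : ℝ → E4 →L[ℝ] E4) : nmF D 0 = 0 := by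
  simp [nmF]

private theorem nmF_norm {D : ℝ → E4 →L[ℝ] E4} (hdet : ∀ s, 0 < s → (D s).det ≠ 0) (x : E4) :
    ‖nmF D x‖ = ‖x‖ := by
  rcases eq_or_ne x 0 with rfl | hx
  · rw [nmF_zero]
  · have h1 : ‖D ‖x‖ x‖ ≠ 0 := norm_ne_zero_iff.2 (nm_ne (hdet _ (norm_pos_iff.2 hx)) hx)
    unfold nmF
    rw [norm_smul, norm_div, norm_norm, norm_norm, div_mul_cancel₀ _ h1]

/-- the maps for `D` and for the inverse matrices are inverse to each other -/
private theorem nmF_comp {D D' : ℝ → E4 →L[ℝ] E4} (hdet : ∀ s, 0 < s → (D s).det ≠ 0)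
    (hi : ∀ s, 0 < s → ∀ x, D' s (D s x) = x) (x : E4) : nmF D' (nmF D x) = x := by
  rcases eq_or_ne x 0 with rfl | hx
  · rw [nmF_zero, nmF_zero]
  · have hs : 0 < ‖x‖ := norm_pos_iff.2 hx
    have h1 : 0 < ‖D ‖x‖ x‖ := norm_pos_iff.2 (nm_ne (hdet _ hs) hx)
    have h2 : D' ‖nmF D x‖ (nmF D x) = (‖x‖ / ‖D ‖x‖ x‖) • x := by
      rw [nmF_norm hdet]
      unfold nmF
      rw [map_smul, hi _ hs]
    have h3 : nmF D' (nmF D x) = (‖nmF D x‖ / ‖D' ‖nmF D x‖ (nmF D x)‖) •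
        D' ‖nmF D x‖ (nmF D x) := rfl
    rw [h3, h2, nmF_norm hdet, norm_smul, norm_div, norm_norm, norm_norm, smul_smul]
    have h4 : ‖x‖ / (‖x‖ / ‖D ‖x‖ x‖ * ‖x‖) * (‖x‖ / ‖D ‖x‖ x‖) = 1 := by
      field_simp
    rw [h4, one_smul]

private theorem nmF_smooth {D : ℝ → E4 →L[ℝ] E4} (hD : ∀ s, 0 < s → ContDiffAt ℝ ∞ D s)
    (hdet : ∀ s, 0 < s → (D s).det ≠ 0) {x : E4} (hx : x ≠ 0) : ContDiffAt ℝ ∞ (nmF D) x := by
  have hs : 0 < ‖x‖ := norm_pos_iff.2 hx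
  have h1 : ContDiffAt ℝ ∞ (fun y : E4 => ‖y‖) x := contDiffAt_norm ℝ hx
  have h2 : ContDiffAt ℝ ∞ (fun y : E4 => D ‖y‖) x := (hD _ hs).comp x h1
  have h3 : ContDiffAt ℝ ∞ (fun y : E4 => D ‖y‖ y) x := h2.clm_apply contDiffAt_id
  have h4 : D ‖x‖ x ≠ 0 := nm_ne (hdet _ hs) hx
  have h5 : ContDiffAt ℝ ∞ (fun y : E4 => ‖D ‖y‖ y‖) x := h3.norm ℝ h4
  exact (h1.div h5 (norm_ne_zero_iff.2 h4)).smul h3

/-- the inverse matrices -/
private theorem nm_inverse {A : E4 →L[ℝ] E4} (hA : A.det ≠ 0) :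
    ContinuousLinearMap.inverse A =
      ((A.toContinuousLinearEquivOfDetNeZero hA).symm : E4 →L[ℝ] E4) := by
  have h1 : ((A.toContinuousLinearEquivOfDetNeZero hA : E4 ≃L[ℝ] E4) : E4 →L[ℝ] E4) = A :=
    ContinuousLinearMap.coe_toContinuousLinearEquivOfDetNeZero _ _
  have h2 := ContinuousLinearMap.inverse_equiv (A.toContinuousLinearEquivOfDetNeZero hA)
  rw [h1] at h2
  exact h2

private theorem nm_inv_left {A : E4 →L[ℝ] E4} (hA : A.det ≠ 0) (x : E4) :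
    ContinuousLinearMap.inverse A (A x) = x := by
  rw [nm_inverse hA]
  exact (A.toContinuousLinearEquivOfDetNeZero hA).symm_apply_apply x

private theorem nm_inv_right {A : E4 →L[ℝ] E4} (hA : A.det ≠ 0) (x : E4) :
    A (ContinuousLinearMap.inverse A x) = x := by
  rw [nm_inverse hA]
  exact (A.toContinuousLinearEquivOfDetNeZero hA).apply_symm_apply x

private theorem nm_inv_det {A : E4 →L[ℝ] E4} (hA : A.det ≠ 0) :
    (ContinuousLinearMap.inverse A).det ≠ 0 := by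
  intro h0
  have h1 : (ContinuousLinearMap.inverse A).comp A = ContinuousLinearMap.id ℝ E4 :=
    ContinuousLinearMap.ext fun x => nm_inv_left hA x
  have h2 := det_comp_clm (ContinuousLinearMap.inverse A) A
  rw [h1, h0, zero_mul] at h2
  simp [ContinuousLinearMap.det] at h2

private theorem nm_inv_smooth {D : ℝ → E4 →L[ℝ] E4} (hD : ∀ s, 0 < s → ContDiffAt ℝ ∞ D s)
    (hdet : ∀ s, 0 < s → (D s).det ≠ 0) (s : ℝ) (hs : 0 < s) :
    ContDiffAt ℝ ∞ (fun s => ContinuousLinearMap.inverse (D s)) s := by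
  have h1 : (((D s).toContinuousLinearEquivOfDetNeZero (hdet s hs) : E4 ≃L[ℝ] E4) :
      E4 →L[ℝ] E4) = D s := ContinuousLinearMap.coe_toContinuousLinearEquivOfDetNeZero _ _
  have h2 := contDiffAt_map_inverse (𝕜 := ℝ) (n := ∞)
    ((D s).toContinuousLinearEquivOfDetNeZero (hdet s hs))
  rw [h1] at h2
  exact h2.comp s (hD s hs)

private theorem nm_inner (v : E4) : inner ℝ e0 v = v 0 := by
  unfold e0
  rw [EuclideanSpace.inner_single_left]
  simp

/-- derivative of the norm of a curve through `t • e0` -/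
private theorem nm_norm_deriv {t : ℝ} (ht : 0 < t) {u : ℝ → E4} {u' : E4}
    (hu : HasDerivAt u u' 0) (h0 : u 0 = t • e0) : HasDerivAt (fun τ => ‖u τ‖) (u' 0) 0 := by
  have h1 := hu.norm_sq
  have h2 : ‖u 0‖ ^ 2 ≠ 0 := by
    rw [h0, norm_smul, norm_e0, mul_one, Real.norm_eq_abs, abs_of_pos ht]
    positivity
  have h3 := h1.sqrt h2
  have h4 : (fun τ => √(‖u τ‖ ^ 2)) = fun τ => ‖u τ‖ := by
    funext τ
    exact Real.sqrt_sq (norm_nonneg _)
  rw [h4] at h3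
  convert h3 using 1
  rw [Real.sqrt_sq (norm_nonneg _), h0, norm_smul, norm_e0, mul_one, Real.norm_eq_abs,
    abs_of_pos ht, real_inner_smul_left, nm_inner]
  field_simp

private theorem nmF_ray {D : ℝ → E4 →L[ℝ] E4} (h0 : ∀ s, 0 < s → D s e0 = e0) {t : ℝ}
    (ht : 0 < t) : nmF D (t • e0) = t • e0 := by
  have h1 : ‖t • e0‖ = t := by
    rw [norm_smul, norm_e0, mul_one, Real.norm_eq_abs, abs_of_pos ht]
  unfold nmF
  rw [h1, map_smul, h0 t ht, h1, div_self ht.ne', one_smul]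

private theorem nmF_deriv {D : ℝ → E4 →L[ℝ] E4} (hD : ∀ s, 0 < s → ContDiffAt ℝ ∞ D s)
    (h0 : ∀ s, 0 < s → D s e0 = e0) (hdet : ∀ s, 0 < s → (D s).det ≠ 0) {t : ℝ} (ht : 0 < t)
    (v : E4) : fderiv ℝ (nmF D) (t • e0) v = v 0 • e0 + pr (D t v) := by
  have hne : t • e0 ≠ 0 := by
    intro h
    have h1 := congrArg norm h
    rw [norm_smul, norm_e0, mul_one, norm_zero, norm_eq_zero] at h1
    exact ht.ne' h1
  have hnt : ‖t • e0‖ = t := by
    rw [norm_smul, norm_e0, mul_one, Real.norm_eq_abs, abs_of_pos ht]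
  obtain ⟨u, hu⟩ : ∃ u : ℝ → E4, u = fun τ => t • e0 + τ • v := ⟨_, rfl⟩
  have hu0 : u 0 = t • e0 := by
    rw [hu]
    simp
  have hud : HasDerivAt u v 0 := by
    rw [hu]
    have h1 := ((hasDerivAt_id (0 : ℝ)).smul_const v).const_add (t • e0)
    simpa using h1
  have hn := nm_norm_deriv ht hud hu0
  -- the derivative of `D`
  have hDd : HasDerivAt D (deriv D t) t :=
    ((hD t ht).differentiableAt (by simp)).hasDerivAt
  have hDe : deriv D t e0 = 0 := by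
    have h1 := hDd.clm_apply (hasDerivAt_const t e0)
    rw [map_zero, add_zero] at h1
    have h2 : (fun s => D s e0) =ᶠ[𝓝 t] fun _ => e0 := by
      filter_upwards [Ioi_mem_nhds ht] with s hs using h0 s hs
    exact h1.unique ((hasDerivAt_const t e0).congr_of_eventuallyEq h2)
  have hDd' : HasDerivAt D (deriv D t) ‖u 0‖ := by
    rw [hu0, hnt]
    exact hDd
  have hDn : HasDerivAt (fun τ => D ‖u τ‖) (v 0 • deriv D t) 0 :=
    HasDerivAt.scomp (h := fun τ => ‖u τ‖) (0 : ℝ) hDd' hn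
  have hw : HasDerivAt (fun τ => D ‖u τ‖ (u τ)) (D t v) 0 := by
    have h1 := hDn.clm_apply hud
    have h2 : (v 0 • deriv D t) (u 0) + D ‖u 0‖ v = D t v := by
      rw [hu0, hnt, smul_apply, map_smul, hDe, smul_zero, smul_zero,
        zero_add]
    rw [h2] at h1
    exact h1
  have hw0 : D ‖u 0‖ (u 0) = t • e0 := by
    rw [hu0, hnt, map_smul, h0 t ht]
  have hm := nm_norm_deriv ht hw hw0
  have hm0 : ‖D ‖u 0‖ (u 0)‖ = t := by rw [hw0, hnt]
  have hn0 : ‖u 0‖ = t := by rw [hu0, hnt]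
  have hq := (hn.div hm (by rw [hm0]; exact ht.ne')).smul hw
  have hF : HasFDerivAt (nmF D) (fderiv ℝ (nmF D) (t • e0)) (u 0) := by
    rw [hu0]
    exact ((nmF_smooth hD hdet hne).differentiableAt (by simp)).hasFDerivAt
  have hF' := hF.comp_hasDerivAt (0 : ℝ) hud
  have hFu := hF'.unique hq
  rw [hFu]
  simp only [Pi.div_apply]
  rw [hw0, hnt, hn0]
  unfold pr
  rw [div_self ht.ne', one_smul, smul_smul]
  have h7 : (v 0 * t - t * (D t v) 0) / t ^ 2 * t = v 0 - (D t v) 0 := by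
    field_simp
  rw [h7, sub_smul]
  abel

/-- realisation of a loop of linear maps fixing `e0`, up to the `e0`-components -/
theorem norm_map_r {r : E4 ≃ₗᵢ[ℝ] E4} (hr : Rf r) (D : ℝ → E4 →L[ℝ] E4)
    (hD : ∀ s, 0 < s → ContDiffAt ℝ ∞ D s)
    (he : ∀ s, 0 < s → ∀ x, D (2⁻¹ * s) (r x) = r (D s x)) (h0 : ∀ s, 0 < s → D s e0 = e0)
    (hdet : ∀ s, 0 < s → (D s).det ≠ 0) :
    ∃ Ψ : E4 ≃ₜ E4, Pr r Ψ ∧ (∀ t : ℝ, 0 < t → Ψ (t • e0) = t • e0) ∧
      ∀ t : ℝ, 0 < t → ∀ v, fderiv ℝ Ψ (t • e0) v = v 0 • e0 + pr (D t v) := by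
  have hD' := nm_inv_smooth hD hdet
  have hdet' : ∀ s, 0 < s → (ContinuousLinearMap.inverse (D s)).det ≠ 0 := fun s hs =>
    nm_inv_det (hdet s hs)
  have hl : ∀ x, nmF (fun s => ContinuousLinearMap.inverse (D s)) (nmF D x) = x :=
    nmF_comp hdet fun s hs x => nm_inv_left (hdet s hs) x
  have hri : ∀ x, nmF D (nmF (fun s => ContinuousLinearMap.inverse (D s)) x) = x :=
    nmF_comp hdet' fun s hs x => nm_inv_right (hdet s hs) x
  have hbij : Function.Bijective (nmF D) :=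
    ⟨Function.LeftInverse.injective hl, Function.RightInverse.surjective hri⟩
  have hsm : ∀ x, x ≠ 0 → ContDiffAt ℝ ∞ (nmF D) x ∧ (fderiv ℝ (nmF D) x).det ≠ 0 := by
    intro x hx
    have h1 := nmF_smooth hD hdet hx
    have hy : nmF D x ≠ 0 := by
      rw [← norm_ne_zero_iff, nmF_norm hdet, norm_ne_zero_iff]
      exact hx
    have h2 := nmF_smooth hD' hdet' hy
    refine ⟨h1, fun h3 => ?_⟩
    have h4 := ((h2.differentiableAt (by simp)).hasFDerivAt).comp x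
      (h1.differentiableAt (by simp)).hasFDerivAt
    have h5 : (nmF (fun s => ContinuousLinearMap.inverse (D s))) ∘ nmF D = fun x => x :=
      funext hl
    rw [h5] at h4
    have h6 := h4.fderiv
    rw [fderiv_fun_id] at h6
    have h7 := det_comp_clm
      (fderiv ℝ (nmF (fun s => ContinuousLinearMap.inverse (D s))) (nmF D x))
      (fderiv ℝ (nmF D) x)
    rw [← h6, h3, mul_zero] at h7
    simp [ContinuousLinearMap.det] at h7
  have heq : ∀ x, nmF D ((2⁻¹ : ℝ) • r x) = (2⁻¹ : ℝ) • r (nmF D x) := by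
    intro x
    rcases eq_or_ne x 0 with rfl | hx
    · rw [map_zero, smul_zero, nmF_zero, map_zero, smul_zero]
    · have hs : 0 < ‖x‖ := norm_pos_iff.2 hx
      have h1 : ‖(2⁻¹ : ℝ) • r x‖ = 2⁻¹ * ‖x‖ := by
        rw [norm_smul, r.norm_map]
        norm_num
      unfold nmF
      rw [h1, map_smul, he _ hs, norm_smul, r.norm_map, map_smul]
      have h2 : ‖(2⁻¹ : ℝ)‖ = 2⁻¹ := by norm_num
      rw [h2, mul_div_mul_left _ _ (by norm_num), smul_comm]
  obtain ⟨Ψ, hΨ, hΨF⟩ := mk_Pr (r := r) (nmF D) hbij (nmF_zero D) hsm heq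
  have hfun : (Ψ : E4 → E4) = nmF D := funext hΨF
  refine ⟨Ψ, hΨ, fun t ht => ?_, fun t ht v => ?_⟩
  · rw [hΨF, nmF_ray h0 ht]
  · rw [hfun]
    exact nmF_deriv hD h0 hdet ht v

end Pool.Agent.HopfTw
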