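import Pool.Agent.HopfTw.Curve
import Pool.Agent.HopfTw.NormMap
import Pool.Agent.HopfTw.GermShear
import Pool.Agent.HopfFin.Extend

/-!
# The extension lemma

Plan: the proof in `HopfFin/Extend.lean`, with the lemmas of this library. (A) `c t = φ (2^(-t) •
e0)` satisfies `c (t + 1) = r (c t) / 2`. (B) `D s = fderiv φ₁ (s • e0)` satisfies `D (s / 2) (r
x) = r (D s x)`. (C) `l t v = (D t v) 0 - v 0` satisfies `l (t / 2) (r v) = l t v`.
-/

set_option autoImplicit false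

open scoped ContDiff Topology
open Set Filter Metric

namespace Pool.Agent.HopfTw

open Pool.Agent.HopfCov hiding pr
open Pool.Agent.HopfFin

private theorem ex_inj {A : E4 →L[ℝ] E4} (hA : A.det ≠ 0) {x y : E4} (h : A x = A y) :
    x = y :=
  (A.toContinuousLinearEquivOfDetNeZero hA).injective h

private theorem ex_e0_ne : (e0 : E4) ≠ 0 := fun h => by
  have h1 := norm_e0
  rw [h, norm_zero] at h1
  exact zero_ne_one h1

private theorem ex_reg {φ : E4 → E4} (hr : RegRay φ) {t : ℝ} (ht : 0 < t) :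
    ContDiffAt ℝ ∞ φ (t • e0) ∧ (fderiv ℝ φ (t • e0)).det ≠ 0 := by
  have h1 : ∀ᶠ y in 𝓝 (t • e0), ContDiffAt ℝ ∞ φ y ∧ (fderiv ℝ φ y).det ≠ 0 := hr t ht
  exact h1.self_of_nhds

private theorem ex_hasF {φ : E4 → E4} (hr : RegRay φ) {t : ℝ} (ht : 0 < t) :
    HasFDerivAt φ (fderiv ℝ φ (t • e0)) (t • e0) :=
  ((ex_reg hr ht).1.differentiableAt (by simp)).hasFDerivAt

private theorem ex_comp_reg {r : E4 ≃ₗᵢ[ℝ] E4} {A : E4 ≃ₜ E4} (hA : Pr r A) {φ : E4 → E4}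
    (hr : RegRay φ) (h0 : ∀ t : ℝ, 0 < t → φ (t • e0) ≠ 0) : RegRay (fun x => A (φ x)) := by
  intro t ht
  exact Reg.comp (g := A) (f := φ) (hA.sm.reg (h0 t ht)) (hr t ht)

private theorem ex_comp_eqv {r : E4 ≃ₗᵢ[ℝ] E4} {A : E4 ≃ₜ E4} (hA : Pr r A) {φ : E4 → E4}
    (he : EqvR r φ) : EqvR r (fun x => A (φ x)) := by
  obtain ⟨δ, hδ, h⟩ := he
  exact ⟨δ, hδ, fun x hx => by
    show A (φ ((2⁻¹ : ℝ) • r x)) = (2⁻¹ : ℝ) • r (A (φ x))
    rw [h x hx, hA.eqv]⟩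

private theorem ex_pow_smooth : ContDiff ℝ ∞ (fun t : ℝ => (2 : ℝ) ^ (-t)) := by
  have h : (fun t : ℝ => (2 : ℝ) ^ (-t)) = fun t => Real.exp (Real.log 2 * -t) := by
    funext t
    rw [Real.rpow_def_of_pos two_pos]
  rw [h]
  exact Real.contDiff_exp.comp (contDiff_const.mul contDiff_neg)

private theorem ex_pow_deriv (t : ℝ) :
    HasDerivAt (fun t : ℝ => (2 : ℝ) ^ (-t)) (-(Real.log 2 * (2 : ℝ) ^ (-t))) t := by
  have h : (fun t : ℝ => (2 : ℝ) ^ (-t)) = fun t => Real.exp (Real.log 2 * -t) := by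
    funext t
    rw [Real.rpow_def_of_pos two_pos]
  have h1 : HasDerivAt (fun t : ℝ => Real.log 2 * -t) (-Real.log 2) t := by
    have := (hasDerivAt_neg t).const_mul (Real.log 2)
    simpa using this
  have h2 := h1.exp
  rw [h]
  convert h2 using 1
  rw [Real.rpow_def_of_pos two_pos]
  ring

private theorem ex_pow_pos (t : ℝ) : 0 < (2 : ℝ) ^ (-t) := Real.rpow_pos_of_pos two_pos _

private theorem ex_pow_add (t : ℝ) : (2 : ℝ) ^ (-(t + 1)) = 2⁻¹ * (2 : ℝ) ^ (-t) := by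
  rw [neg_add, Real.rpow_add two_pos, Real.rpow_neg_one]
  ring

private theorem ex_pow_inj {s t : ℝ} (h : (2 : ℝ) ^ (-s) = (2 : ℝ) ^ (-t)) : s = t := by
  have h3 := congrArg Real.log h
  rw [Real.log_rpow two_pos, Real.log_rpow two_pos] at h3
  have h4 := mul_right_cancel₀ (Real.log_pos one_lt_two).ne' h3
  linarith

private theorem ex_pow_surj {s : ℝ} (hs : 0 < s) : ∃ t : ℝ, (2 : ℝ) ^ (-t) = s := by
  refine ⟨-(Real.log s / Real.log 2), ?_⟩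
  rw [neg_neg, Real.rpow_def_of_pos two_pos, mul_div_cancel₀ _ (Real.log_pos one_lt_two).ne',
    Real.exp_log hs]

/-- step (A): straightening the image of the ray -/
private theorem ex_stepA {r : E4 ≃ₗᵢ[ℝ] E4} (hf : Rf r) (φ : E4 → E4) (hr : RegRay φ)
    (he : EqvR r φ) (hi : ∀ s t : ℝ, 0 < s → 0 < t → φ (s • e0) = φ (t • e0) → s = t) :
    ∃ A : E4 ≃ₜ E4, Pr r A ∧ ∀ t : ℝ, 0 < t → A (φ (t • e0)) = t • e0 := by
  have h1 : ∀ t : ℝ, HasDerivAt (fun t : ℝ => φ ((2 : ℝ) ^ (-t) • e0))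
      (fderiv ℝ φ ((2 : ℝ) ^ (-t) • e0) ((-(Real.log 2 * (2 : ℝ) ^ (-t))) • e0)) t := by
    intro t
    have h2 : HasDerivAt (fun t : ℝ => (2 : ℝ) ^ (-t) • e0)
        ((-(Real.log 2 * (2 : ℝ) ^ (-t))) • e0) t := (ex_pow_deriv t).smul_const e0
    exact HasFDerivAt.comp_hasDerivAt t (ex_hasF hr (ex_pow_pos t)) h2
  obtain ⟨A, hA, hAc⟩ := straighten_curve_r hf (fun t : ℝ => φ ((2 : ℝ) ^ (-t) • e0))
    (by
      rw [contDiff_iff_contDiffAt]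
      intro t
      have h2 : ContDiffAt ℝ ∞ (fun t : ℝ => (2 : ℝ) ^ (-t) • e0) t :=
        (ex_pow_smooth.smul contDiff_const).contDiffAt
      exact ContDiffAt.comp (g := φ) t (ex_reg hr (ex_pow_pos t)).1 h2)
    (fun s t hst => ex_pow_inj (hi _ _ (ex_pow_pos s) (ex_pow_pos t) hst))
    (fun t => by
      rw [(h1 t).deriv]
      intro h0
      have h2 := ex_inj (ex_reg hr (ex_pow_pos t)).2 (h0.trans (map_zero _).symm)
      rcases smul_eq_zero.1 h2 with h3 | h3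
      · exact (mul_pos (Real.log_pos one_lt_two) (ex_pow_pos t)).ne' (neg_eq_zero.1 h3)
      · exact ex_e0_ne h3)
    (fun t => by
      obtain ⟨δ, hδ, h⟩ := he
      show φ ((2 : ℝ) ^ (-(t + 1)) • e0) = (2⁻¹ : ℝ) • r (φ ((2 : ℝ) ^ (-t) • e0))
      have h2 := h _ (smul_e0_mem_Cone hδ.le (ex_pow_pos t).le)
      rw [map_smul, hf.fix0] at h2
      rw [ex_pow_add, mul_smul]
      exact h2)
  refine ⟨A, hA, fun s hs => ?_⟩
  obtain ⟨t, rfl⟩ := ex_pow_surj hs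
  exact hAc t

/-- the derivative along the ray, `D (s / 2) (r v) = r (D s v)` -/
private theorem ex_D_half {r : E4 ≃ₗᵢ[ℝ] E4} (hf : Rf r) {φ : E4 → E4} (hr : RegRay φ)
    (he : EqvR r φ) {s : ℝ} (hs : 0 < s) (v : E4) :
    fderiv ℝ φ ((2⁻¹ * s) • e0) (r v) = r (fderiv ℝ φ (s • e0) v) := by
  obtain ⟨δ, hδ, h⟩ := he
  obtain ⟨R, hR⟩ : ∃ R : E4 →L[ℝ] E4, ∀ x, R x = r x :=
    ⟨(r.toContinuousLinearEquiv : E4 →L[ℝ] E4), fun _ => rfl⟩
  have h1 : (fun z => φ ((2⁻¹ : ℝ) • R z)) =ᶠ[𝓝 (s • e0)] fun z => (2⁻¹ : ℝ) • R (φ z) := by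
    filter_upwards [Cone_mem_nhds hδ hs] with x hx
    rw [hR, hR]
    exact h x hx
  have h2 := h1.fderiv_eq (𝕜 := ℝ)
  have h3 : HasFDerivAt (fun z => φ ((2⁻¹ : ℝ) • R z))
      ((fderiv ℝ φ ((2⁻¹ * s) • e0)).comp ((2⁻¹ : ℝ) • R)) (s • e0) := by
    have h4 : HasFDerivAt (fun z : E4 => (2⁻¹ : ℝ) • R z) ((2⁻¹ : ℝ) • R) (s • e0) :=
      R.hasFDerivAt.const_smul (2⁻¹ : ℝ)
    have h5 : HasFDerivAt φ (fderiv ℝ φ ((2⁻¹ * s) • e0)) ((2⁻¹ : ℝ) • R (s • e0)) := by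
      have h5' := ex_hasF hr (show (0 : ℝ) < 2⁻¹ * s by positivity)
      have h6 : (2⁻¹ : ℝ) • R (s • e0) = (2⁻¹ * s) • e0 := by
        rw [map_smul, hR, hf.fix0, mul_smul]
      rw [h6]
      exact h5'
    exact h5.comp (s • e0) h4
  have h6 : HasFDerivAt (fun z => (2⁻¹ : ℝ) • R (φ z))
      ((2⁻¹ : ℝ) • R.comp (fderiv ℝ φ (s • e0))) (s • e0) :=
    (R.hasFDerivAt.comp (s • e0) (ex_hasF hr hs)).const_smul (2⁻¹ : ℝ)
  rw [h3.fderiv, h6.fderiv] at h2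
  have h7 := DFunLike.congr_fun h2 v
  change fderiv ℝ φ ((2⁻¹ * s) • e0) ((2⁻¹ : ℝ) • R v) =
    (2⁻¹ : ℝ) • R (fderiv ℝ φ (s • e0) v) at h7
  rw [map_smul, hR, hR] at h7
  exact smul_right_injective E4 (by norm_num : (2⁻¹ : ℝ) ≠ 0) h7

/-- the derivative along the ray fixes `e0` -/
private theorem ex_D_e0 {φ : E4 → E4} (hr : RegRay φ)
    (hf : ∀ t : ℝ, 0 < t → φ (t • e0) = t • e0) {s : ℝ} (hs : 0 < s) :
    fderiv ℝ φ (s • e0) e0 = e0 := by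
  have h1 : HasDerivAt (fun t : ℝ => t • e0) e0 s := by
    have := (hasDerivAt_id s).smul_const e0
    simpa using this
  have h2 : HasDerivAt (fun t : ℝ => φ (t • e0)) (fderiv ℝ φ (s • e0) e0) s :=
    HasFDerivAt.comp_hasDerivAt s (ex_hasF hr hs) h1
  have h3 : (fun t : ℝ => φ (t • e0)) =ᶠ[𝓝 s] fun t => t • e0 := by
    filter_upwards [Ioi_mem_nhds hs] with t ht using hf t ht
  exact h2.unique (h1.congr_of_eventuallyEq h3)

/-- smoothness of the derivative along the ray -/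
private theorem ex_D_smooth {φ : E4 → E4} (hr : RegRay φ) {s : ℝ} (hs : 0 < s) :
    ContDiffAt ℝ ∞ (fun s : ℝ => fderiv ℝ φ (s • e0)) s := by
  have h1 : ContDiffAt ℝ ∞ (fderiv ℝ φ) (s • e0) :=
    (ex_reg hr hs).1.fderiv_right (by simp)
  have h2 : ContDiffAt ℝ ∞ (fun s : ℝ => s • e0) s := contDiffAt_id.smul contDiffAt_const
  exact ContDiffAt.comp (g := fderiv ℝ φ) s h1 h2

/-- steps (B) and (C): a germ fixing the ray pointwise extends -/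
private theorem ex_stepBC {r : E4 ≃ₗᵢ[ℝ] E4} (hrf : Rf r) (φ : E4 → E4) (hr : RegRay φ)
    (he : EqvR r φ) (hf : ∀ t : ℝ, 0 < t → φ (t • e0) = t • e0) :
    ∃ ψ : E4 ≃ₜ E4, Pr r ψ ∧ AgreeNear ψ φ := by
  obtain ⟨D, hD⟩ : ∃ D : ℝ → E4 →L[ℝ] E4, D = fun s => fderiv ℝ φ (s • e0) := ⟨_, rfl⟩
  have hDs : ∀ s, 0 < s → ContDiffAt ℝ ∞ D s := fun s hs => by
    rw [hD]
    exact ex_D_smooth hr hs
  have hDh : ∀ s, 0 < s → ∀ x, D (2⁻¹ * s) (r x) = r (D s x) := fun s hs x => by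
    rw [hD]
    exact ex_D_half hrf hr he hs x
  have hDe : ∀ s, 0 < s → D s e0 = e0 := fun s hs => by
    rw [hD]
    exact ex_D_e0 hr hf hs
  have hDd : ∀ s, 0 < s → (D s).det ≠ 0 := fun s hs => by
    rw [hD]
    exact (ex_reg hr hs).2
  obtain ⟨Ψ, hΨ, hΨr, hΨd⟩ := norm_map_r hrf D hDs hDh hDe hDd
  obtain ⟨p, hp⟩ : ∃ p : E4 →L[ℝ] ℝ, ∀ x, p x = x 0 := ⟨EuclideanSpace.proj 0, fun _ => rfl⟩
  obtain ⟨Ψ', hΨ', hΨr', hΨd'⟩ := germ_shear_r hrf (fun s => p.comp (D s) - p)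
    (fun s hs => ((contDiffAt_const (c := p)).clm_comp (hDs s hs)).sub contDiffAt_const)
    (fun s hs x => by
      show p (D (2⁻¹ * s) (r x)) - p (r x) = p (D s x) - p x
      rw [hDh s hs, hp, hp, hp, hp, hrf.apply_zero, hrf.apply_zero])
    (fun s hs => by
      show p (D s e0) - p e0 = 0
      rw [hDe s hs, sub_self])
  -- the derivative of the composition
  obtain ⟨B, hB⟩ : ∃ B : E4 ≃ₜ E4, B = Ψ * Ψ' := ⟨_, rfl⟩
  have hBP : Pr r B := by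
    rw [hB]
    exact hΨ.mul hΨ'
  have hBr : ∀ t : ℝ, 0 < t → B (t • e0) = t • e0 := fun t ht => by
    rw [hB, mul_apply', hΨr' t ht, hΨr t ht]
  have hne : ∀ t : ℝ, 0 < t → t • e0 ≠ 0 := fun t ht => smul_ne_zero ht.ne' ex_e0_ne
  have hBd : ∀ t : ℝ, 0 < t → fderiv ℝ B (t • e0) = D t := by
    intro t ht
    have h1 : HasFDerivAt Ψ (fderiv ℝ Ψ (t • e0)) (Ψ' (t • e0)) := by
      rw [hΨr' t ht]
      exact ((hΨ.sm.2 _ (hne t ht)).1.differentiableAt (by simp)).hasFDerivAt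
    have h2 : HasFDerivAt Ψ' (fderiv ℝ Ψ' (t • e0)) (t • e0) :=
      ((hΨ'.sm.2 _ (hne t ht)).1.differentiableAt (by simp)).hasFDerivAt
    have h3 := h1.comp (t • e0) h2
    have h4 : (Ψ : E4 → E4) ∘ Ψ' = B := by
      rw [hB]
      rfl
    rw [h4] at h3
    rw [h3.fderiv]
    ext1 v
    rw [ContinuousLinearMap.comp_apply, hΨd' t ht, hΨd t ht]
    show (v + (p (D t v) - p v) • e0) 0 • e0 + pr (D t (v + (p (D t v) - p v) • e0)) = D t v
    rw [map_add, map_smul, hDe t ht, pr_add, pr_smul, pr_e0, smul_zero, add_zero,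
      PiLp.add_apply, PiLp.smul_apply, e0_apply_zero, hp, hp, smul_eq_mul, mul_one,
      add_sub_cancel]
    exact (eq_add_pr (D t v)).symm
  -- the germ with trivial derivative
  obtain ⟨φ₂, hφ₂⟩ : ∃ φ₂ : E4 → E4, φ₂ = fun x => (B⁻¹ : E4 ≃ₜ E4) (φ x) := ⟨_, rfl⟩
  have hr₂ : RegRay φ₂ := by
    rw [hφ₂]
    exact ex_comp_reg hBP.inv hr fun t ht => by
      rw [hf t ht]
      exact hne t ht
  have he₂ : EqvR r φ₂ := by
    rw [hφ₂]
    exact ex_comp_eqv hBP.inv he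
  have hf₂ : ∀ t : ℝ, 0 < t → φ₂ (t • e0) = t • e0 := by
    intro t ht
    rw [hφ₂]
    show (B⁻¹ : E4 ≃ₜ E4) (φ (t • e0)) = t • e0
    rw [hf t ht]
    conv_lhs => rw [← hBr t ht]
    exact inv_apply_self' _ _
  have hd₂ : ∀ t : ℝ, 0 < t → fderiv ℝ φ₂ (t • e0) = ContinuousLinearMap.id ℝ E4 := by
    intro t ht
    have h1 : HasFDerivAt B (D t) (φ₂ (t • e0)) := by
      rw [hf₂ t ht, ← hBd t ht]
      exact ((hBP.sm.2 _ (hne t ht)).1.differentiableAt (by simp)).hasFDerivAt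
    have h2 := h1.comp (t • e0) (ex_hasF hr₂ ht)
    have h3 : (B : E4 → E4) ∘ φ₂ = φ := by
      funext x
      rw [hφ₂]
      exact apply_inv_self' _ _
    rw [h3] at h2
    have h4 : fderiv ℝ φ (t • e0) = (D t).comp (fderiv ℝ φ₂ (t • e0)) := h2.fderiv
    ext1 v
    apply ex_inj (hDd t ht)
    have h5 := DFunLike.congr_fun h4 v
    rw [ContinuousLinearMap.comp_apply] at h5
    rw [← h5, hD]
    rfl
  obtain ⟨ε, hε, hgerm⟩ := germ_near_r hrf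
  obtain ⟨A, hA, δ, hδ, hAδ⟩ := hgerm φ₂ hr₂ he₂ hf₂ (fun t ht => by
    rw [hd₂ t ht, sub_self, norm_zero]
    exact hε.le)
  refine ⟨B * A, hBP.mul hA, δ, hδ, fun x hx => ?_⟩
  rw [mul_apply', hAδ x hx, hφ₂]
  exact apply_inv_self' _ _

/-- **the extension lemma**: an equivariant germ of an embedding along the ray extends to an
element of `Pr r` -/
theorem extend_germ_r {r : E4 ≃ₗᵢ[ℝ] E4} (hr : Rf r) (φ : E4 → E4) (hreg : RegRay φ)
    (he : EqvR r φ) (hi : ∀ s t : ℝ, 0 < s → 0 < t → φ (s • e0) = φ (t • e0) → s = t) :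
    ∃ ψ : E4 ≃ₜ E4, Pr r ψ ∧ AgreeNear ψ φ := by
  obtain ⟨A, hA, hAf⟩ := ex_stepA hr φ hreg he hi
  have hne : ∀ t : ℝ, 0 < t → φ (t • e0) ≠ 0 := by
    intro t ht h0
    have h1 := hAf t ht
    rw [h0, hA.sm.1] at h1
    exact smul_ne_zero ht.ne' ex_e0_ne h1.symm
  obtain ⟨ψ, hψ, δ, hδ, h⟩ := ex_stepBC hr (fun x => A (φ x)) (ex_comp_reg hA hreg hne)
    (ex_comp_eqv hA he) hAf
  refine ⟨A⁻¹ * ψ, hA.inv.mul hψ, δ, hδ, fun x hx => ?_⟩
  rw [mul_apply', h x hx]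
  exact inv_apply_self' _ _

end Pool.Agent.HopfTw
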