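import Pool.Agent.HopfFin.Statement

/-!
# The definitions used in the statement, non-orientable case
-/

set_option autoImplicit false

open scoped ContDiff Topology Manifold
open Set Filter Metric

namespace Pool.Agent.HopfCov.Smooth

/-- the point lies on the open ray through the second basis vector -/
def OnRay (y : E4) : Prop := y 0 = 0 ∧ 0 < y 1 ∧ y 2 = 0 ∧ y 3 = 0

/-- `M` is homeomorphic to the twisted product `X`, the orbit space of `(z₀, z₁, z₂, z₃) ↦ (- z₀,
z₁, z₂, z₃) / 2`, by a homeomorphism which is a local diffeomorphism at the points over the circle
which is the image of the ray through the second basis vector -/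
def NearSection (M : Mfd4) : Prop :=
  ∃ (X : Mfd4) (p : Punctured → X) (F : M ≃ₜ X), Orbit X p rho ∧
    ∀ (x : M) (y : Punctured), F x = p y → OnRay (val y) → LocalDiffeoAt F x

/-- the class `T`: smooth structures on the twisted product (smooth near a circle) with universal
covering diffeomorphic to `ℝ⁴ ∖ 0` -/
structure InT (M : Mfd4) : Prop where
  circle : NearSection M
  univ : ∃ p : Punctured → M, IsCoveringMap p ∧ LocalDiffeo p

/-- `M` is homeomorphic to the twisted product by a homeomorphism which is a local diffeomorphism at
all points but one -/
def OffPointT (M : Mfd4) : Prop := ∃ X : Mfd4, TwistedProduct X ∧ OffPointTo M X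

/-- the class `T` contains only finitely many diffeomorphism types -/
def FinitelyManyT : Prop :=
  ∃ (n : ℕ) (F : Fin n → Mfd4), ∀ M : Mfd4, InT M → ∃ i, Diffeomorphic M (F i)

end Pool.Agent.HopfCov.Smooth
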