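import Pool.Agent.HopfTw.Basic
import Pool.Agent.HopfFin.Boost

/-!
# Boosts

Plan: the maps in `HopfFin/Boost.lean` are of the form `x ↦ f x • e0 - pr x` with `f (r x) = f x`,
so they commute with `r` (make the map of `boost_mk` explicit, or repeat its proof).
-/

set_option autoImplicit false

open scoped ContDiff Topology
open Set Filter Metric

namespace Pool.Agent.HopfTw

open Pool.Agent.HopfCov hiding pr
open Pool.Agent.HopfFin

private theorem le_of_sq {a b : ℝ} (h : a ^ 2 ≤ b ^ 2) (hb : 0 ≤ b) : a ≤ b :=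
  (le_abs_self a).trans (abs_le_of_sq_le_sq h hb)

/-- the boost composed with the reflection -/
private noncomputable def boostL (s c : ℝ) (x : E4) : E4 := (s * ‖x‖ - c * x 0) • e0 + pr x

private theorem boostL_zero (s c : ℝ) (x : E4) : (boostL s c x) 0 = s * ‖x‖ - c * x 0 := by
  have h1 : (boostL s c x) 0 = (s * ‖x‖ - c * x 0) * e0 0 + pr x 0 := rfl
  rw [h1, e0_apply_zero, pr_apply_zero, mul_one, add_zero]

private theorem boostL_pr (s c : ℝ) (x : E4) : pr (boostL s c x) = pr x := by
  have h2 : pr (pr x) = pr x := by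
    conv_lhs => rw [pr]
    rw [pr_apply_zero, zero_smul, sub_zero]
  rw [boostL, pr_add, pr_smul, pr_e0, smul_zero, zero_add, h2]

private theorem abs_le_norm' (x : E4) : |x 0| ≤ ‖x‖ := by
  have h := norm_sq_eq x
  have h1 : x 0 ^ 2 ≤ ‖x‖ ^ 2 := by
    have := sq_nonneg ‖pr x‖
    linarith
  exact abs_le_of_sq_le_sq h1 (norm_nonneg x)

private theorem boostL_norm {s c : ℝ} (hs : 0 ≤ s) (hc : 0 ≤ c) (hcs : c ^ 2 = 1 + s ^ 2)
    (x : E4) : ‖boostL s c x‖ = c * ‖x‖ - s * x 0 := by
  have h1 := norm_sq_eq (boostL s c x)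
  rw [boostL_zero, boostL_pr] at h1
  have h2 := norm_sq_eq x
  have hle : s ≤ c := by
    by_contra hcon
    push Not at hcon
    nlinarith
  have h3 : 0 ≤ c * ‖x‖ - s * x 0 := by
    have h4 : x 0 ≤ ‖x‖ := (le_abs_self _).trans (abs_le_norm' x)
    have h5 : s * x 0 ≤ s * ‖x‖ := mul_le_mul_of_nonneg_left h4 hs
    have h6 : s * ‖x‖ ≤ c * ‖x‖ := mul_le_mul_of_nonneg_right hle (norm_nonneg x)
    linarith
  have h7 : ‖boostL s c x‖ ^ 2 = (c * ‖x‖ - s * x 0) ^ 2 := by
    rw [h1]
    have h8 : ‖pr x‖ ^ 2 = ‖x‖ ^ 2 - x 0 ^ 2 := by linarith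
    rw [h8]
    have h9 : c ^ 2 * ‖x‖ ^ 2 = (1 + s ^ 2) * ‖x‖ ^ 2 := by rw [hcs]
    have h10 : c ^ 2 * x 0 ^ 2 = (1 + s ^ 2) * x 0 ^ 2 := by rw [hcs]
    nlinarith
  exact (sq_eq_sq₀ (norm_nonneg _) h3).mp h7

private theorem boostL_invol {s c : ℝ} (hs : 0 ≤ s) (hc : 0 ≤ c) (hcs : c ^ 2 = 1 + s ^ 2)
    (x : E4) : boostL s c (boostL s c x) = x := by
  have h1 : boostL s c (boostL s c x) =
      (s * ‖boostL s c x‖ - c * (boostL s c x) 0) • e0 + pr (boostL s c x) := rfl
  rw [h1, boostL_norm hs hc hcs, boostL_zero, boostL_pr]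
  have h2 : s * (c * ‖x‖ - s * x 0) - c * (s * ‖x‖ - c * x 0) = x 0 := by
    have h3 : c ^ 2 * x 0 = (1 + s ^ 2) * x 0 := by rw [hcs]
    nlinarith
  rw [h2]
  exact (eq_add_pr x).symm

private theorem boostL_smul {s c r : ℝ} (hr : 0 ≤ r) (x : E4) :
    boostL s c (r • x) = r • boostL s c x := by
  have h1 : boostL s c (r • x) = (s * ‖r • x‖ - c * (r • x) 0) • e0 + pr (r • x) := rfl
  have h2 : (r • x) 0 = r * x 0 := rfl
  rw [h1, norm_smul, h2, pr_smul, Real.norm_eq_abs, abs_of_nonneg hr, boostL, smul_add,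
    smul_smul]
  congr 2
  ring

private theorem contDiff_coord : ContDiff ℝ ∞ (fun x : E4 => x 0) :=
  (EuclideanSpace.proj (0 : Fin 4) : E4 →L[ℝ] ℝ).contDiff

private theorem contDiff_pr : ContDiff ℝ ∞ (pr : E4 → E4) := by
  have h : (pr : E4 → E4) = fun x => x - x 0 • e0 := rfl
  rw [h]
  exact contDiff_id.sub (contDiff_coord.smul contDiff_const)

private theorem boostL_smooth (s c : ℝ) {x : E4} (hx : x ≠ 0) :
    ContDiffAt ℝ ∞ (boostL s c) x := by
  have h : boostL s c = fun x => (s * ‖x‖ - c * x 0) • e0 + pr x := rfl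
  rw [h]
  exact (((contDiffAt_const.mul (contDiffAt_norm ℝ hx)).sub
    (contDiffAt_const.mul contDiff_coord.contDiffAt)).smul contDiffAt_const).add
      contDiff_pr.contDiffAt

private theorem boostL_cont (s c : ℝ) : Continuous (boostL s c) := by
  have h : boostL s c = fun x => (s * ‖x‖ - c * x 0) • e0 + pr x := rfl
  rw [h]
  exact (((continuous_const.mul continuous_norm).sub
    (continuous_const.mul contDiff_coord.continuous)).smul continuous_const).add
      contDiff_pr.continuous

private theorem boostL_cone {s c δ : ℝ} (hδ : 0 < δ) (hs : 4 / δ + 2 ≤ s) (hs' : 1 / (2 * δ) ≤ s)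
    (hc : 0 ≤ c) (hcs : c ^ 2 = 1 + s ^ 2) {x : E4} (hx : x ∉ Cone δ) :
    boostL s c x ∈ Cone 1 := by
  have hs0 : 0 < s := lt_of_lt_of_le (by positivity) hs
  have hs2 : 2 ≤ s := by
    have : 0 < 4 / δ := by positivity
    linarith
  have hx1 : δ * x 0 < ‖pr x‖ := by
    by_contra hcon
    push Not at hcon
    exact hx hcon
  change ‖pr (boostL s c x)‖ ≤ 1 * (boostL s c x) 0
  rw [boostL_zero, boostL_pr, one_mul]
  have hn := norm_sq_eq x
  have hu : 0 ≤ ‖pr x‖ := norm_nonneg _
  have hun : ‖pr x‖ ≤ ‖x‖ := by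
    refine le_of_sq ?_ (norm_nonneg x)
    have := sq_nonneg (x 0)
    linarith
  rcases le_or_gt (x 0) 0 with h0 | h0
  · have h1 : c * x 0 ≤ 0 := mul_nonpos_of_nonneg_of_nonpos hc h0
    have h2 : ‖x‖ ≤ s * ‖x‖ := by
      have := mul_le_mul_of_nonneg_right (show (1 : ℝ) ≤ s by linarith) (norm_nonneg x)
      linarith
    linarith
  · set a := x 0 with ha
    set u := ‖pr x‖ with hu'
    set N := ‖x‖ with hN
    have hN0 : 0 ≤ N := norm_nonneg x
    have hupos : 0 < u := lt_trans (mul_pos hδ h0) hx1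
    have hc1 : c ≤ s + 1 / (2 * s) := by
      refine le_of_sq ?_ (by positivity)
      rw [hcs]
      have h3 : (s + 1 / (2 * s)) ^ 2 = s ^ 2 + 1 + (1 / (2 * s)) ^ 2 := by
        field_simp
        ring
      rw [h3]
      have := sq_nonneg (1 / (2 * s))
      linarith
    have hau : a ≤ u / δ := by
      rw [le_div_iff₀ hδ]
      linarith
    have hNa : u * δ / (2 + δ) ≤ N - a := by
      have h4 : (N - a) * (N + a) = u ^ 2 := by nlinarith
      have h5 : N ≤ a + u := by
        refine le_of_sq ?_ (by positivity)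
        nlinarith
      have h6 : N + a ≤ u * (2 + δ) / δ := by
        have h7 : u * (2 + δ) / δ = 2 * (u / δ) + u := by
          field_simp
        rw [h7]
        linarith
      have h8 : 0 < N + a := by linarith
      have h9 : 0 ≤ N - a := by
        by_contra hcon
        push Not at hcon
        nlinarith
      have h10 : u ^ 2 ≤ (N - a) * (u * (2 + δ) / δ) := by
        rw [← h4]
        exact mul_le_mul_of_nonneg_left h6 h9
      have h11 : u ≤ (N - a) * ((2 + δ) / δ) := by
        have h12 : (N - a) * (u * (2 + δ) / δ) = u * ((N - a) * ((2 + δ) / δ)) := by ring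
        rw [h12, pow_two] at h10
        exact le_of_mul_le_mul_left h10 hupos
      rw [div_le_iff₀ (by positivity)]
      have h13 : (N - a) * ((2 + δ) / δ) * δ = (N - a) * (2 + δ) := by
        field_simp
      have h14 := mul_le_mul_of_nonneg_right h11 hδ.le
      rw [h13] at h14
      exact h14
    have h15 : 2 * u ≤ s * (N - a) := by
      have h16 : (4 / δ + 2) * (u * δ / (2 + δ)) = 2 * u := by
        field_simp
        ring
      rw [← h16]
      exact mul_le_mul hs hNa (by positivity) hs0.le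
    have h17 : a / (2 * s) ≤ u := by
      have h18 : a / (2 * s) ≤ (u / δ) / (2 * s) :=
        div_le_div_of_nonneg_right hau (by positivity)
      have h19 : (u / δ) / (2 * s) ≤ u := by
        rw [div_div, div_le_iff₀ (by positivity)]
        have h20 : 1 ≤ δ * (2 * s) := by
          rw [div_le_iff₀ (by positivity)] at hs'
          linarith
        nlinarith
      exact h18.trans h19
    have h21 : c * a ≤ s * a + a / (2 * s) := by
      have h22 := mul_le_mul_of_nonneg_right hc1 h0.le
      have h23 : (s + 1 / (2 * s)) * a = s * a + a / (2 * s) := by ring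
      rw [h23] at h22
      exact h22
    have h24 : s * (N - a) = s * N - s * a := by ring
    rw [h24] at h15
    linarith

private theorem boostL_r {r : E4 ≃ₗᵢ[ℝ] E4} (hr : Rf r) (s c : ℝ) (x : E4) :
    boostL s c (r x) = r (boostL s c x) := by
  have h1 : boostL s c (r x) = (s * ‖r x‖ - c * (r x) 0) • e0 + pr (r x) := rfl
  rw [h1, r.norm_map, hr.apply_zero, hr.pr, boostL, map_add, map_smul, hr.fix0]

/-- an element of `Pr r` which maps the complement of a thin cone around the ray into `Cone 1` -/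
theorem boost_r {r : E4 ≃ₗᵢ[ℝ] E4} (hr : Rf r) (δ : ℝ) (hδ : 0 < δ) :
    ∃ L : E4 ≃ₜ E4, Pr r L ∧ ∀ x, x ∉ Cone δ → L x ∈ Cone 1 := by
  set s : ℝ := 4 / δ + 2 + 1 / (2 * δ) with hsdef
  have hs0 : 0 < s := by positivity
  set c : ℝ := √(1 + s ^ 2) with hcdef
  have hc0 : 0 ≤ c := Real.sqrt_nonneg _
  have hcs : c ^ 2 = 1 + s ^ 2 := Real.sq_sqrt (by positivity)
  have hinv := boostL_invol hs0.le hc0 hcs
  let L : E4 ≃ₜ E4 :=
    { toFun := boostL s c
      invFun := boostL s c
      left_inv := hinv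
      right_inv := hinv
      continuous_toFun := boostL_cont s c
      continuous_invFun := boostL_cont s c }
  have hL0 : boostL s c 0 = 0 := by
    have h := boostL_smul (s := s) (c := c) (le_refl (0 : ℝ)) (0 : E4)
    rw [zero_smul, zero_smul] at h
    exact h
  refine ⟨L, ⟨⟨hL0, fun x hx => ⟨boostL_smooth s c hx, ?_⟩⟩, fun x => ?_⟩, fun x hx => ?_⟩
  · have hLx : boostL s c x ≠ 0 := by
      intro h
      apply hx
      rw [← hinv x, h, hL0]
    have h1 : HasFDerivAt (boostL s c) (fderiv ℝ (boostL s c) x) x :=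
      ((boostL_smooth s c hx).differentiableAt (by simp)).hasFDerivAt
    have h2 : HasFDerivAt (boostL s c) (fderiv ℝ (boostL s c) (boostL s c x)) (boostL s c x) :=
      ((boostL_smooth s c hLx).differentiableAt (by simp)).hasFDerivAt
    have h3 := h2.comp x h1
    have h4 : boostL s c ∘ boostL s c = id := funext hinv
    rw [h4] at h3
    have h5 := h3.unique (hasFDerivAt_id x)
    have h6 := congrArg ContinuousLinearMap.det h5
    intro h0
    have h7 : (fderiv ℝ (boostL s c) x).det = 0 := h0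
    have h8 : ((fderiv ℝ (boostL s c) (boostL s c x)).comp (fderiv ℝ (boostL s c) x)).det =
        (fderiv ℝ (boostL s c) (boostL s c x)).det * (fderiv ℝ (boostL s c) x).det :=
      LinearMap.det_comp _ _
    rw [h8, h7, mul_zero] at h6
    have h9 : (ContinuousLinearMap.id ℝ E4).det = 1 := LinearMap.det_id
    rw [h9] at h6
    exact zero_ne_one h6
  · show boostL s c ((2⁻¹ : ℝ) • r x) = (2⁻¹ : ℝ) • r (boostL s c x)
    rw [boostL_smul (by norm_num), boostL_r hr]
  · refine boostL_cone hδ ?_ ?_ hc0 hcs hx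
    · rw [hsdef]
      have : 0 < 1 / (2 * δ) := by positivity
      linarith
    · rw [hsdef]
      have : 0 < 4 / δ := by positivity
      linarith

end Pool.Agent.HopfTw
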