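import Pool.Agent.HopfTw.Path

/-!
# Rearrangement of planar configurations

Plan. Call two families of placements (data `c`, `a`, `R`, `θ` with `c, R > 0` and `R i + R j <
‖pt (a i) - pt (a j)‖` for `i ≠ j`) equivalent if the conclusion of `conf` holds; this is an
equivalence relation (`Pr.inv`, `Pr.mul`). STEP 1: shrinking (`conf_path` with the centres fixed,
the radii decreasing, `c` moving linearly to `1` and `θ` to `0`): every family is equivalent to
`(1, a, ρ, 0)` for every sufficiently small `ρ > 0`. STEP 2: if `a`, `a'` are injective and for `i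
≠ j` the segment from `a i - a j` to `a' i - a' j` does not contain `0`, then `(1, a, ρ, 0)` and
`(1, a', ρ, 0)` are equivalent for small `ρ`: straight line paths; the distances have a positive
minimum on the compact `[0, 1]`. STEP 3: for given injective `a`, `a'` there is an injective `e`
such that STEP 2 applies to `a, e` and to `e, a'`: take `e i = (i, s * i ^ 2)`; if `0` lies on the
segment from `a i - a j` to `e i - e j` (`i ≠ j`, both ends are nonzero) then the two vectors are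
linearly dependent, that is, `(i - j) * (a i - a j).2 = s * (i ^ 2 - j ^ 2) * (a i - a j).1`; for
each pair this excludes at most one value of `s` (if `(a i - a j).1 = 0` then `(a i - a j).2 ≠ 0`
and there is no solution), so a suitable `s` exists (the set of the excluded values is finite).
-/

set_option autoImplicit false

open scoped ContDiff Topology
open Set Filter Metric

namespace Pool.Agent.HopfTw

open Pool.Agent.HopfCov hiding pr
open Pool.Agent.HopfFin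

/-! ### points of the plane -/

private theorem cf_pt_sub (a b : ℝ × ℝ) : pt a - pt b = pt (a - b) := by
  unfold pt
  rw [Prod.fst_sub, Prod.snd_sub]
  module

private theorem cf_pt_zero {a : ℝ × ℝ} (h : pt a = 0) : a = 0 := by
  have h1 : a.1 = 0 := by
    have := congrArg (fun x : E4 => x 1) h
    simpa [pt, e1, e2] using this
  have h2 : a.2 = 0 := by
    have := congrArg (fun x : E4 => x 2) h
    simpa [pt, e1, e2] using this
  exact Prod.ext h1 h2

private theorem cf_pt_cont : Continuous pt := by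
  unfold pt
  fun_prop

/-- a finite family of positive numbers has a positive lower bound -/
private theorem cf_min {ι : Type} [Finite ι] {P : ι → ℝ → Prop}
    (hP : ∀ i x y, P i x → 0 < y → y ≤ x → P i y) (h : ∀ i, ∃ x, 0 < x ∧ P i x) :
    ∃ x, 0 < x ∧ ∀ i, P i x := by
  choose f hf hf' using h
  rcases isEmpty_or_nonempty ι with h0 | h0
  · exact ⟨1, one_pos, fun i => (h0.false i).elim⟩
  · obtain ⟨i₀, hi₀⟩ := Finite.exists_min f
    exact ⟨f i₀, hf i₀, fun i => hP i _ _ (hf' i) (hf i₀) (hi₀ i)⟩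

/-! ### the relation -/

/-- the relation of two families of placements -/
private def cfQ (r : E4 ≃ₗᵢ[ℝ] E4) {N : ℕ} (A B : Fin N → E4 → E4) : Prop :=
  ∃ ψ : E4 ≃ₜ E4, Pr r ψ ∧ ∀ i, ∀ x ∈ Cone 1, ψ (A i x) = B i x

private theorem cfQ_symm {r : E4 ≃ₗᵢ[ℝ] E4} {N : ℕ} {A B : Fin N → E4 → E4} (h : cfQ r A B) :
    cfQ r B A := by
  obtain ⟨ψ, h1, h2⟩ := h
  exact ⟨ψ⁻¹, h1.inv, fun i x hx => by rw [← h2 i x hx]; exact inv_apply_self' _ _⟩

private theorem cfQ_trans {r : E4 ≃ₗᵢ[ℝ] E4} {N : ℕ} {A B C : Fin N → E4 → E4} (h : cfQ r A B)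
    (h' : cfQ r B C) : cfQ r A C := by
  obtain ⟨ψ, h1, h2⟩ := h
  obtain ⟨ψ', h1', h2'⟩ := h'
  exact ⟨ψ' * ψ, h1'.mul h1, fun i x hx => by rw [mul_apply', h2 i x hx, h2' i x hx]⟩

/-- shrinking -/
private theorem cf_shrink {r : E4 ≃ₗᵢ[ℝ] E4} (hr : Rf r) {N : ℕ} {c R θ : Fin N → ℝ}
    {a : Fin N → ℝ × ℝ} (hc : ∀ i, 0 < c i)
    (hd : ∀ i j, i ≠ j → R i + R j < ‖pt (a i) - pt (a j)‖) {ρ : ℝ} (hρ : 0 < ρ)
    (hρR : ∀ i, ρ ≤ R i) :
    cfQ r (fun i => plr (c i) (a i) (R i) (θ i)) (fun i => plr 1 (a i) ρ 0) := by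
  obtain ⟨ψ, h1, h2⟩ := conf_path hr (fun i t => (1 - t) * c i + t)
    (fun i t => (1 - t) * R i + t * ρ) (fun i t => (1 - t) * θ i) (fun i _ => a i)
    (fun i => by fun_prop) (fun i => by fun_prop) (fun i => by fun_prop) (fun i => by fun_prop)
    (fun i t ht => by
      rcases eq_or_lt_of_le ht.2 with h | h
      · rw [h]; norm_num
      · have := mul_pos (sub_pos.2 h) (hc i)
        linarith [ht.1])
    (fun i t ht => by
      rcases eq_or_lt_of_le ht.2 with h | h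
      · rw [h]; simpa using hρ
      · have h3 := mul_pos (sub_pos.2 h) (hρ.trans_le (hρR i))
        have h4 := mul_nonneg ht.1 hρ.le
        linarith)
    (fun i j hij t ht => by
      have h3 := mul_nonneg ht.1 (sub_nonneg.2 (hρR i))
      have h4 := mul_nonneg ht.1 (sub_nonneg.2 (hρR j))
      have h5 := hd i j hij
      show (1 - t) * R i + t * ρ + ((1 - t) * R j + t * ρ) < _
      nlinarith)
  refine ⟨ψ, h1, fun i x hx => ?_⟩
  have h3 := h2 i x hx
  have g1 : (1 - (0 : ℝ)) * c i + 0 = c i := by ring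
  have g2 : (1 - (0 : ℝ)) * R i + 0 * ρ = R i := by ring
  have g3 : (1 - (0 : ℝ)) * θ i = θ i := by ring
  have g4 : (1 - (1 : ℝ)) * c i + 1 = 1 := by ring
  have g5 : (1 - (1 : ℝ)) * R i + 1 * ρ = ρ := by ring
  have g6 : (1 - (1 : ℝ)) * θ i = 0 := by ring
  simp only [g1, g2, g3, g4, g5, g6] at h3
  exact h3

/-- straight line motion -/
private theorem cf_move {r : E4 ≃ₗᵢ[ℝ] E4} (hr : Rf r) {N : ℕ} (a b : Fin N → ℝ × ℝ)
    (hab : ∀ i j, i ≠ j → ∀ t ∈ Icc (0 : ℝ) 1,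
      (1 - t) • (a i - a j) + t • (b i - b j) ≠ 0) :
    ∃ ρ₀ : ℝ, 0 < ρ₀ ∧ ∀ ρ, 0 < ρ → ρ ≤ ρ₀ →
      cfQ r (fun i => plr 1 (a i) ρ 0) (fun i => plr 1 (b i) ρ 0) := by
  set A : Fin N → ℝ → ℝ × ℝ := fun i t => (1 - t) • a i + t • b i with hA
  have hAc : ∀ i, Continuous (A i) := fun i => by
    rw [hA]
    fun_prop
  have hdist : ∀ p : {p : Fin N × Fin N // p.1 ≠ p.2}, ∃ m : ℝ, 0 < m ∧
      ∀ t ∈ Icc (0 : ℝ) 1, m + m < ‖pt (A p.1.1 t) - pt (A p.1.2 t)‖ := by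
    rintro ⟨⟨i, j⟩, hij⟩
    obtain ⟨t₀, ht₀, hmin⟩ := (isCompact_Icc (a := (0 : ℝ)) (b := 1)).exists_isMinOn
      ⟨0, by simp⟩ ((cf_pt_cont.comp (hAc i)).sub (cf_pt_cont.comp (hAc j))).norm.continuousOn
    have h0 : 0 < ‖pt (A i t₀) - pt (A j t₀)‖ := by
      rw [norm_pos_iff, cf_pt_sub]
      intro h
      refine hab i j hij t₀ ht₀ ?_
      rw [← cf_pt_zero h, hA]
      module
    refine ⟨‖pt (A i t₀) - pt (A j t₀)‖ / 3, by positivity, fun t ht => ?_⟩
    have h1 : ‖pt (A i t₀) - pt (A j t₀)‖ ≤ ‖pt (A i t) - pt (A j t)‖ := hmin ht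
    show ‖pt (A i t₀) - pt (A j t₀)‖ / 3 + ‖pt (A i t₀) - pt (A j t₀)‖ / 3 <
      ‖pt (A i t) - pt (A j t)‖
    linarith
  obtain ⟨P, hP⟩ : ∃ P : {p : Fin N × Fin N // p.1 ≠ p.2} → ℝ → Prop, ∀ p m, P p m ↔
      ∀ t ∈ Icc (0 : ℝ) 1, m + m < ‖pt (A p.1.1 t) - pt (A p.1.2 t)‖ :=
    ⟨_, fun _ _ => Iff.rfl⟩
  obtain ⟨ρ₀, hρ₀, hall⟩ := cf_min (P := P)
    (fun p x y hx hy hxy => (hP p y).2 fun t ht =>
      lt_of_le_of_lt (add_le_add hxy hxy) ((hP p x).1 hx t ht))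
    (fun p => by
      obtain ⟨m, h1, h2⟩ := hdist p
      exact ⟨m, h1, (hP p m).2 h2⟩)
  refine ⟨ρ₀, hρ₀, fun ρ hρ hρρ => ?_⟩
  obtain ⟨ψ, h1, h2⟩ := conf_path hr (fun _ _ => 1) (fun _ _ => ρ) (fun _ _ => 0) A
    (fun i => by fun_prop) (fun i => by fun_prop) (fun i => by fun_prop) hAc
    (fun i t ht => one_pos) (fun i t ht => hρ)
    (fun i j hij t ht => lt_of_le_of_lt (add_le_add hρρ hρρ)
      ((hP _ _).1 (hall ⟨(i, j), hij⟩) t ht))
  refine ⟨ψ, h1, fun i x hx => ?_⟩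
  have h3 := h2 i x hx
  have g1 : A i 0 = a i := by
    rw [hA]
    show (1 - (0 : ℝ)) • a i + (0 : ℝ) • b i = a i
    module
  have g2 : A i 1 = b i := by
    rw [hA]
    show (1 - (1 : ℝ)) • a i + (1 : ℝ) • b i = b i
    module
  rw [g1, g2] at h3
  exact h3

/-- the intermediate configuration -/
private def cfe {N : ℕ} (s : ℝ) (i : Fin N) : ℝ × ℝ := ((i : ℕ), s * ((i : ℕ) : ℝ) ^ 2)

private theorem cf_generic {N : ℕ} {s : ℝ} {a : Fin N → ℝ × ℝ} {i j : Fin N} (hij : i ≠ j)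
    (ha : a i ≠ a j)
    (hs : s ≠ (a i - a j).2 / ((((i : ℕ) : ℝ) + ((j : ℕ) : ℝ)) * (a i - a j).1)) {t : ℝ}
    (h : (1 - t) • (a i - a j) + t • (cfe s i - cfe s j) = 0) : False := by
  set u : ℝ × ℝ := a i - a j with hu
  have hu0 : u ≠ 0 := sub_ne_zero.2 ha
  set x : ℝ := ((i : ℕ) : ℝ) with hx
  set y : ℝ := ((j : ℕ) : ℝ) with hy
  have hxy : x - y ≠ 0 := by
    rw [sub_ne_zero]
    intro h0
    apply hij
    rw [hx, hy] at h0
    exact Fin.ext (Nat.cast_injective h0)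
  have hx0 : 0 ≤ x := Nat.cast_nonneg _
  have hy0 : 0 ≤ y := Nat.cast_nonneg _
  have hxy' : 0 < x + y := by
    rcases hx0.eq_or_lt with h1 | h1
    · rcases hy0.eq_or_lt with h2 | h2
      · exact absurd (by rw [← h1, ← h2, sub_self]) hxy
      · linarith
    · linarith
  have e1 : (1 - t) * u.1 + t * (x - y) = 0 := congrArg Prod.fst h
  have e2 : (1 - t) * u.2 + t * (s * x ^ 2 - s * y ^ 2) = 0 := congrArg Prod.snd h
  have ht1 : 1 - t ≠ 0 := by
    intro h0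
    rw [h0, zero_mul, zero_add] at e1
    have ht : t = 1 := by linarith
    rw [ht, one_mul] at e1
    exact hxy e1
  have ht0 : t ≠ 0 := by
    intro h0
    rw [h0] at e1 e2
    refine hu0 (Prod.ext ?_ ?_)
    · show u.1 = 0
      linarith
    · show u.2 = 0
      linarith
  -- the cross product vanishes
  have e3 : (1 - t) * (x - y) * (s * (x + y) * u.1 - u.2) = 0 := by
    have : (1 - t) * (x - y) * (s * (x + y) * u.1 - u.2) =
        ((1 - t) * u.1 + t * (x - y)) * (s * x ^ 2 - s * y ^ 2) -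
        ((1 - t) * u.2 + t * (s * x ^ 2 - s * y ^ 2)) * (x - y) := by ring
    rw [this, e1, e2]
    ring
  have e4 : s * (x + y) * u.1 - u.2 = 0 :=
    (mul_eq_zero.1 e3).resolve_left (mul_ne_zero ht1 hxy)
  by_cases h1 : u.1 = 0
  · refine hu0 (Prod.ext h1 ?_)
    show u.2 = 0
    rw [h1] at e4
    linarith
  · apply hs
    rw [eq_div_iff (mul_ne_zero hxy'.ne' h1)]
    linarith

/-- any two families of disjoint placements are related by an element of `Pr r` -/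
theorem conf {r : E4 ≃ₗᵢ[ℝ] E4} (hr : Rf r) {N : ℕ} (c R θ c' R' θ' : Fin N → ℝ)
    (a a' : Fin N → ℝ × ℝ) (hc : ∀ i, 0 < c i) (hR : ∀ i, 0 < R i) (hc' : ∀ i, 0 < c' i)
    (hR' : ∀ i, 0 < R' i) (hd : ∀ i j, i ≠ j → R i + R j < ‖pt (a i) - pt (a j)‖)
    (hd' : ∀ i j, i ≠ j → R' i + R' j < ‖pt (a' i) - pt (a' j)‖) :
    ∃ ψ : E4 ≃ₜ E4, Pr r ψ ∧ ∀ i, ∀ x ∈ Cone 1,
      ψ (plr (c i) (a i) (R i) (θ i) x) = plr (c' i) (a' i) (R' i) (θ' i) x := by
  classical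
  have ha : ∀ i j, i ≠ j → a i ≠ a j := by
    intro i j hij h
    have h1 := hd i j hij
    rw [h, sub_self, norm_zero] at h1
    linarith [hR i, hR j]
  have ha' : ∀ i j, i ≠ j → a' i ≠ a' j := by
    intro i j hij h
    have h1 := hd' i j hij
    rw [h, sub_self, norm_zero] at h1
    linarith [hR' i, hR' j]
  obtain ⟨s, hs⟩ := Infinite.exists_notMem_finset
    ((Finset.univ.image fun p : Fin N × Fin N => (a p.1 - a p.2).2 /
        ((((p.1 : ℕ) : ℝ) + ((p.2 : ℕ) : ℝ)) * (a p.1 - a p.2).1)) ∪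
      (Finset.univ.image fun p : Fin N × Fin N => (a' p.1 - a' p.2).2 /
        ((((p.1 : ℕ) : ℝ) + ((p.2 : ℕ) : ℝ)) * (a' p.1 - a' p.2).1)))
  rw [Finset.mem_union, not_or] at hs
  obtain ⟨hs1, hs2⟩ := hs
  obtain ⟨ρ₁, hρ₁, h1⟩ := cf_move hr a (cfe s) fun i j hij t _ h =>
    cf_generic hij (ha i j hij) (fun h0 => hs1 (Finset.mem_image.2 ⟨(i, j), Finset.mem_univ _,
      h0.symm⟩)) h
  obtain ⟨ρ₂, hρ₂, h2⟩ := cf_move hr a' (cfe s) fun i j hij t _ h =>
    cf_generic hij (ha' i j hij) (fun h0 => hs2 (Finset.mem_image.2 ⟨(i, j), Finset.mem_univ _,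
      h0.symm⟩)) h
  obtain ⟨ρ₃, hρ₃, h3⟩ := cf_min (ι := Fin N) (P := fun i x => x ≤ R i ∧ x ≤ R' i)
    (fun i x y hx _ hyx => ⟨hyx.trans hx.1, hyx.trans hx.2⟩)
    (fun i => ⟨min (R i) (R' i), lt_min (hR i) (hR' i), min_le_left _ _, min_le_right _ _⟩)
  set ρ : ℝ := min ρ₃ (min ρ₁ ρ₂) with hρ
  have hρ0 : 0 < ρ := lt_min hρ₃ (lt_min hρ₁ hρ₂)
  have k3 : ρ ≤ ρ₃ := min_le_left _ _
  have k1 : ρ ≤ ρ₁ := (min_le_right _ _).trans (min_le_left _ _)
  have k2 : ρ ≤ ρ₂ := (min_le_right _ _).trans (min_le_right _ _)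
  exact cfQ_trans (cfQ_trans (cf_shrink hr hc hd hρ0 fun i => k3.trans (h3 i).1)
    (h1 ρ hρ0 k1)) (cfQ_trans (cfQ_symm (h2 ρ hρ0 k2))
    (cfQ_symm (cf_shrink hr hc' hd' hρ0 fun i => k3.trans (h3 i).2)))

end Pool.Agent.HopfTw
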