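import Pool.Agent.HopfTw.Basic

/-!
# Generic end curves

Notation: `P x = (x + r x) / 2`, `N x = (x - r x) / 2` (the projections to the fixed and to the
anti-fixed subspace). For parameters `v, b` the end curve is
`u t = 2^(-t) (P v + cos (π t) N v + sin (π t) N b)`; it satisfies `u (t + 1) = r (u t) / 2`.

Plan. Put `α = 2^(-t) - 2^(-s)`, `β = 2^(-t) cos (π t) - 2^(-s) cos (π s)`, `γ = 2^(-t) sin (π t)
- 2^(-s) sin (π s)`, `d = c t - c s`. Then `u t - u s = α P v + β N v + γ N b`, and for `t ≠ s`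
one has `α ≠ 0` and `(β, γ) ≠ (0, 0)` (the complex numbers `2^(-t) exp (i π t)` have different
absolute values). If `u t - u s = l d` with `t ≠ s`, then with `q = β^2 + γ^2`, `m = l / (α q)`,
`v = m q P d + m α β N d - γ N w'`, `b = P w' + m α γ N d + β N w'`
where `w' = P b + (β N b - γ N v) / q`. (Check: `P v = l P d / α`; `N v = (β l N d - γ n) / q`, `N
b = (γ l N d + β n) / q` with `n = β N b - γ N v`.) So `(v, b)` is in the range of a smooth map `ℝ
× ℝ × ℝ × E4 → E4 × E4`, `(t, s, m, w') ↦ (m q P d + m α β N d - γ N w', P w' + m α γ N d + β N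
w')`, from dimension `7` to dimension `8`. The same for the velocity: `u' t = α P v + β N v + γ N
b` with `α = - log 2 * 2^(-t)`, `β = 2^(-t) (- log 2 cos (π t) - π sin (π t))`, `γ = 2^(-t) (- log
2 sin (π t) + π cos (π t))`, `d = deriv c t`; and the set `P v = 0` is the kernel of a nonzero
linear map (as `P e0 = e0`). The union of three sets, two ranges of smooth maps from smaller
dimension (`ContDiff.dense_compl_range_of_finrank_lt_finrank`, or better: all three sets have
measure zero, `MeasureTheory.addHaar_image_eq_zero_of_det_fderiv_eq_zero`, see how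
`HopfFin/Dir.lean` combines such sets) is not everything.
-/

set_option autoImplicit false

open scoped ContDiff Topology
open Set Filter Metric

namespace Pool.Agent.HopfTw

open Pool.Agent.HopfCov hiding pr
open Pool.Agent.HopfFin

/-- the end curve with parameters `v`, `b` -/
noncomputable def ec (r : E4 ≃ₗᵢ[ℝ] E4) (v b : E4) (t : ℝ) : E4 :=
  (2 : ℝ) ^ (-t) • ((2⁻¹ : ℝ) • (v + r v) + (Real.cos (Real.pi * t) * 2⁻¹) • (v - r v) +
    (Real.sin (Real.pi * t) * 2⁻¹) • (b - r b))

/-! ### the projections -/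

/-- the projection to the fixed subspace -/
private noncomputable def eP (r : E4 ≃ₗᵢ[ℝ] E4) (x : E4) : E4 := (2⁻¹ : ℝ) • (x + r x)

/-- the projection to the anti-fixed subspace -/
private noncomputable def eN (r : E4 ≃ₗᵢ[ℝ] E4) (x : E4) : E4 := (2⁻¹ : ℝ) • (x - r x)

private theorem eP_add_eN (r : E4 ≃ₗᵢ[ℝ] E4) (x : E4) : eP r x + eN r x = x := by
  unfold eP eN
  module

private theorem eP_add (r : E4 ≃ₗᵢ[ℝ] E4) (x y : E4) : eP r (x + y) = eP r x + eP r y := by
  unfold eP
  rw [map_add]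
  module

private theorem eN_add (r : E4 ≃ₗᵢ[ℝ] E4) (x y : E4) : eN r (x + y) = eN r x + eN r y := by
  unfold eN
  rw [map_add]
  module

private theorem eP_smul (r : E4 ≃ₗᵢ[ℝ] E4) (a : ℝ) (x : E4) : eP r (a • x) = a • eP r x := by
  unfold eP
  rw [map_smul]
  module

private theorem eN_smul (r : E4 ≃ₗᵢ[ℝ] E4) (a : ℝ) (x : E4) : eN r (a • x) = a • eN r x := by
  unfold eN
  rw [map_smul]
  module

private theorem eP_eP {r : E4 ≃ₗᵢ[ℝ] E4} (hr : Rf r) (x : E4) : eP r (eP r x) = eP r x := by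
  unfold eP
  rw [map_smul, map_add, hr.sq]
  module

private theorem eN_eN {r : E4 ≃ₗᵢ[ℝ] E4} (hr : Rf r) (x : E4) : eN r (eN r x) = eN r x := by
  unfold eN
  rw [map_smul, map_sub, hr.sq]
  module

private theorem eP_eN {r : E4 ≃ₗᵢ[ℝ] E4} (hr : Rf r) (x : E4) : eP r (eN r x) = 0 := by
  unfold eP eN
  rw [map_smul, map_sub, hr.sq]
  module

private theorem eN_eP {r : E4 ≃ₗᵢ[ℝ] E4} (hr : Rf r) (x : E4) : eN r (eP r x) = 0 := by
  unfold eP eN
  rw [map_smul, map_add, hr.sq]
  module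

private theorem eP_smooth (r : E4 ≃ₗᵢ[ℝ] E4) : ContDiff ℝ 1 (eP r) := by
  unfold eP
  exact (contDiff_id.add r.toContinuousLinearEquiv.contDiff).const_smul _

private theorem eN_smooth (r : E4 ≃ₗᵢ[ℝ] E4) : ContDiff ℝ 1 (eN r) := by
  unfold eN
  exact (contDiff_id.sub r.toContinuousLinearEquiv.contDiff).const_smul _

/-! ### the parametrisation of the bad sets -/

/-- the parametrisation -/
private noncomputable def eG (r : E4 ≃ₗᵢ[ℝ] E4) (α β γ m : ℝ) (d w : E4) : E4 × E4 :=
  ((m * (β ^ 2 + γ ^ 2)) • eP r d + (m * α * β) • eN r d - γ • eN r w,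
    eP r w + (m * α * γ) • eN r d + β • eN r w)

private theorem eG_surj {r : E4 ≃ₗᵢ[ℝ] E4} (hr : Rf r) {α β γ l : ℝ} {d v b : E4} (hα : α ≠ 0)
    (hq : β ^ 2 + γ ^ 2 ≠ 0) (h : α • eP r v + β • eN r v + γ • eN r b = l • d) :
    ∃ (m : ℝ) (w : E4), eG r α β γ m d w = (v, b) := by
  have h1 : α • eP r v = l • eP r d := by
    have := congrArg (eP r) h
    rw [eP_add, eP_add, eP_smul, eP_smul, eP_smul, eP_smul, eP_eP hr, eP_eN hr, eP_eN hr,
      smul_zero, smul_zero, add_zero, add_zero] at this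
    exact this
  have h2 : β • eN r v + γ • eN r b = l • eN r d := by
    have := congrArg (eN r) h
    rw [eN_add, eN_add, eN_smul, eN_smul, eN_smul, eN_smul, eN_eP hr, eN_eN hr, eN_eN hr,
      smul_zero, zero_add] at this
    exact this
  set q : ℝ := β ^ 2 + γ ^ 2 with hqd
  refine ⟨l / (α * q), eP r b + q⁻¹ • (β • eN r b - γ • eN r v), ?_⟩
  have e1 : eN r (eP r b + q⁻¹ • (β • eN r b - γ • eN r v)) =
      q⁻¹ • (β • eN r b - γ • eN r v) := by
    rw [eN_add, eN_eP hr, zero_add, eN_smul, sub_eq_add_neg, ← neg_smul, eN_add, eN_smul,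
      eN_smul, eN_eN hr, eN_eN hr]
  have e2 : eP r (eP r b + q⁻¹ • (β • eN r b - γ • eN r v)) = eP r b := by
    rw [eP_add, eP_eP hr, eP_smul, sub_eq_add_neg, ← neg_smul, eP_add, eP_smul,
      eP_smul, eP_eN hr, eP_eN hr, smul_zero, smul_zero, add_zero, smul_zero, add_zero]
  have e3 : (l / (α * q) * q) • eP r d = eP r v := by
    have : l / (α * q) * q = α⁻¹ * l := by field_simp
    rw [this, mul_smul, ← h1, smul_smul, inv_mul_cancel₀ hα, one_smul]
  have e4 : ∀ c : ℝ, (l / (α * q) * α * c) • eN r d = (q⁻¹ * c) • (β • eN r v + γ • eN r b) := by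
    intro c
    have : l / (α * q) * α * c = (q⁻¹ * c) * l := by field_simp
    rw [this, mul_smul, ← h2]
  unfold eG
  rw [← hqd, e1, e2, e3, e4, e4]
  refine Prod.ext ?_ ?_
  · have e5 : v = eP r v + eN r v := (eP_add_eN r v).symm
    have e6 : (q⁻¹ * β) • (β • eN r v + γ • eN r b) - γ • q⁻¹ • (β • eN r b - γ • eN r v) =
        (q⁻¹ * (β ^ 2 + γ ^ 2)) • eN r v := by module
    show eP r v + (q⁻¹ * β) • (β • eN r v + γ • eN r b) -
      γ • q⁻¹ • (β • eN r b - γ • eN r v) = v
    rw [add_sub_assoc, e6, ← hqd, inv_mul_cancel₀ hq, one_smul]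
    exact e5.symm
  · have e5 : b = eP r b + eN r b := (eP_add_eN r b).symm
    have e6 : (q⁻¹ * γ) • (β • eN r v + γ • eN r b) + β • q⁻¹ • (β • eN r b - γ • eN r v) =
        (q⁻¹ * (β ^ 2 + γ ^ 2)) • eN r b := by module
    show eP r b + (q⁻¹ * γ) • (β • eN r v + γ • eN r b) +
      β • q⁻¹ • (β • eN r b - γ • eN r v) = b
    rw [add_assoc, e6, ← hqd, inv_mul_cancel₀ hq, one_smul]
    exact e5.symm

/-! ### the coefficients -/

private noncomputable def ea (t : ℝ) : ℝ := (2 : ℝ) ^ (-t)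

private noncomputable def eb (t : ℝ) : ℝ := (2 : ℝ) ^ (-t) * Real.cos (Real.pi * t)

private noncomputable def eg (t : ℝ) : ℝ := (2 : ℝ) ^ (-t) * Real.sin (Real.pi * t)

private theorem ea_smooth : ContDiff ℝ 1 ea := by
  have h : ea = fun t => Real.exp (Real.log 2 * -t) := by
    funext t
    rw [ea, Real.rpow_def_of_pos two_pos]
  rw [h]
  exact Real.contDiff_exp.comp (contDiff_const.mul contDiff_neg)

private theorem eb_smooth : ContDiff ℝ 1 eb :=
  ea_smooth.mul (Real.contDiff_cos.comp (contDiff_const.mul contDiff_id))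

private theorem eg_smooth : ContDiff ℝ 1 eg :=
  ea_smooth.mul (Real.contDiff_sin.comp (contDiff_const.mul contDiff_id))

private theorem ea_pos (t : ℝ) : 0 < ea t := Real.rpow_pos_of_pos two_pos _

private theorem ea_deriv (t : ℝ) : HasDerivAt ea (-(Real.log 2 * ea t)) t := by
  have h : ea = fun t => Real.exp (Real.log 2 * -t) := by
    funext t
    rw [ea, Real.rpow_def_of_pos two_pos]
  have h1 : HasDerivAt (fun t : ℝ => Real.log 2 * -t) (-Real.log 2) t := by
    have := (hasDerivAt_neg t).const_mul (Real.log 2)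
    simpa using this
  have h2 := h1.exp
  rw [h]
  convert h2 using 1
  ring

private theorem eb_deriv (t : ℝ) :
    HasDerivAt eb (-(Real.log 2 * eb t) - Real.pi * eg t) t := by
  have h1 : HasDerivAt (fun t : ℝ => Real.pi * t) Real.pi t := by
    simpa using (hasDerivAt_id t).const_mul Real.pi
  refine ((ea_deriv t).mul h1.cos).congr_deriv ?_
  unfold eb eg ea
  ring

private theorem eg_deriv (t : ℝ) :
    HasDerivAt eg (-(Real.log 2 * eg t) + Real.pi * eb t) t := by
  have h1 : HasDerivAt (fun t : ℝ => Real.pi * t) Real.pi t := by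
    simpa using (hasDerivAt_id t).const_mul Real.pi
  refine ((ea_deriv t).mul h1.sin).congr_deriv ?_
  unfold eb eg ea
  ring

private theorem eb_eg_sq (t : ℝ) : eb t ^ 2 + eg t ^ 2 = ea t ^ 2 := by
  unfold eb eg ea
  have := Real.cos_sq_add_sin_sq (Real.pi * t)
  calc _ = ((2 : ℝ) ^ (-t)) ^ 2 * (Real.cos (Real.pi * t) ^ 2 + Real.sin (Real.pi * t) ^ 2) := by
        ring
    _ = _ := by rw [this, mul_one]

private theorem ea_inj {t s : ℝ} (h : ea t = ea s) : t = s := by
  unfold ea at h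
  have := (Real.rpow_right_inj two_pos (by norm_num)).1 h
  linarith

private theorem ec_eq (r : E4 ≃ₗᵢ[ℝ] E4) (v b : E4) (t : ℝ) :
    ec r v b t = ea t • eP r v + eb t • eN r v + eg t • eN r b := by
  unfold ec ea eb eg eP eN
  module

/-- a generic end curve -/
theorem exists_ec {r : E4 ≃ₗᵢ[ℝ] E4} (hr : Rf r) (c : ℝ → E4) (hc : ContDiff ℝ ∞ c) :
    ∃ v b : E4, v + r v ≠ 0 ∧
      (∀ t s l : ℝ, t ≠ s → ec r v b t - ec r v b s ≠ l • (c t - c s)) ∧
      ∀ t l : ℝ, deriv (ec r v b) t ≠ l • deriv c t := by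
  have hc1 : ContDiff ℝ 1 c := hc.of_le (by exact_mod_cast le_top)
  have hd1 : ContDiff ℝ 1 (deriv c) := by
    have h2 : ContDiff ℝ ∞ (deriv c) := (contDiff_infty_iff_deriv.mp hc).2
    exact h2.of_le (by exact_mod_cast le_top)
  -- general smoothness of the parametrisation
  have hG : ∀ {X : Type} [NormedAddCommGroup X] [NormedSpace ℝ X] {A B C M : X → ℝ}
      {D W : X → E4}, ContDiff ℝ 1 A → ContDiff ℝ 1 B → ContDiff ℝ 1 C → ContDiff ℝ 1 M →
      ContDiff ℝ 1 D → ContDiff ℝ 1 W →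
      ContDiff ℝ 1 fun p => eG r (A p) (B p) (C p) (M p) (D p) (W p) := by
    intro X _ _ A B C M D W hA hB hC hM hD hW
    have hPD := (eP_smooth r).comp hD
    have hND := (eN_smooth r).comp hD
    have hPW := (eP_smooth r).comp hW
    have hNW := (eN_smooth r).comp hW
    exact ((((hM.mul ((hB.pow 2).add (hC.pow 2))).smul hPD).add
      (((hM.mul hA).mul hB).smul hND)).sub (hC.smul hNW)).prodMk
      ((hPW.add (((hM.mul hA).mul hC).smul hND)).add (hB.smul hNW))
  set F1 : ℝ × ℝ × ℝ × E4 → E4 × E4 := fun p =>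
    eG r (ea p.1 - ea p.2.1) (eb p.1 - eb p.2.1) (eg p.1 - eg p.2.1) p.2.2.1
      (c p.1 - c p.2.1) p.2.2.2 with hF1
  set F2 : ℝ × ℝ × E4 → E4 × E4 := fun p =>
    eG r (-(Real.log 2 * ea p.1)) (-(Real.log 2 * eb p.1) - Real.pi * eg p.1)
      (-(Real.log 2 * eg p.1) + Real.pi * eb p.1) p.2.1 (deriv c p.1) p.2.2 with hF2
  set F3 : ℝ × E4 → E4 × E4 := fun p => (p.1 • EuclideanSpace.single 3 1, p.2) with hF3
  have h1 : ContDiff ℝ 1 F1 := by
    have p1 : ContDiff ℝ 1 (fun p : ℝ × ℝ × ℝ × E4 => p.1) := contDiff_fst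
    have p2 : ContDiff ℝ 1 (fun p : ℝ × ℝ × ℝ × E4 => p.2.1) := contDiff_snd.fst
    exact hG ((ea_smooth.comp p1).sub (ea_smooth.comp p2))
      ((eb_smooth.comp p1).sub (eb_smooth.comp p2)) ((eg_smooth.comp p1).sub (eg_smooth.comp p2))
      contDiff_snd.snd.fst ((hc1.comp p1).sub (hc1.comp p2)) contDiff_snd.snd.snd
  have h2 : ContDiff ℝ 1 F2 := by
    have p1 : ContDiff ℝ 1 (fun p : ℝ × ℝ × E4 => p.1) := contDiff_fst
    exact hG (contDiff_const.mul (ea_smooth.comp p1)).neg
      ((contDiff_const.mul (eb_smooth.comp p1)).neg.sub (contDiff_const.mul (eg_smooth.comp p1)))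
      ((contDiff_const.mul (eg_smooth.comp p1)).neg.add (contDiff_const.mul (eb_smooth.comp p1)))
      contDiff_snd.fst (hd1.comp p1) contDiff_snd.snd
  have h3 : ContDiff ℝ 1 F3 := (contDiff_fst.smul contDiff_const).prodMk contDiff_snd
  have hE : Module.finrank ℝ E4 = 4 := by
    change Module.finrank ℝ (EuclideanSpace ℝ (Fin 4)) = 4
    rw [finrank_euclideanSpace_fin]
  have d1 : dimH (range F1) < 8 := by
    refine lt_of_le_of_lt h1.dimH_range_le ?_
    rw [Module.finrank_prod, Module.finrank_prod, Module.finrank_prod, Module.finrank_self, hE]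
    norm_num
  have d2 : dimH (range F2) < 8 := by
    refine lt_of_le_of_lt h2.dimH_range_le ?_
    rw [Module.finrank_prod, Module.finrank_prod, Module.finrank_self, hE]
    norm_num
  have d3 : dimH (range F3) < 8 := by
    refine lt_of_le_of_lt h3.dimH_range_le ?_
    rw [Module.finrank_prod, Module.finrank_self, hE]
    norm_num
  have hd : dimH (range F1 ∪ (range F2 ∪ range F3)) < Module.finrank ℝ (E4 × E4) := by
    rw [dimH_union, dimH_union, Module.finrank_prod, hE]
    exact max_lt (by exact_mod_cast d1) (max_lt (by exact_mod_cast d2) (by exact_mod_cast d3))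
  obtain ⟨⟨v, b⟩, hq⟩ := (dense_compl_of_dimH_lt_finrank hd).nonempty
  simp only [mem_compl_iff, mem_union, mem_range, not_or, not_exists] at hq
  obtain ⟨q1, q2, q3⟩ := hq
  refine ⟨v, b, fun h => ?_, fun t s l hts h => ?_, fun t l h => ?_⟩
  · refine q3 (v 3, b) (Prod.ext ?_ rfl)
    show v 3 • (EuclideanSpace.single 3 1 : E4) = v
    have k0 : v 0 = 0 := by
      have := congrArg (fun x : E4 => x 0) h
      simp only [PiLp.add_apply, hr.apply_zero, PiLp.zero_apply] at this
      linarith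
    have k1 : v 1 = 0 := by
      have := congrArg (fun x : E4 => x 1) h
      simp only [PiLp.add_apply, hr.apply_one, PiLp.zero_apply] at this
      linarith
    have k2 : v 2 = 0 := by
      have := congrArg (fun x : E4 => x 2) h
      simp only [PiLp.add_apply, hr.apply_two, PiLp.zero_apply] at this
      linarith
    ext i
    fin_cases i <;> simp [k0, k1, k2]
  · have e1 : (ea t - ea s) • eP r v + (eb t - eb s) • eN r v + (eg t - eg s) • eN r b =
        l • (c t - c s) := by
      rw [← h, ec_eq, ec_eq]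
      module
    obtain ⟨m, w, hm⟩ := eG_surj hr (sub_ne_zero.2 fun h0 => hts (ea_inj h0)) (fun h0 => by
      have k1 : eb t - eb s = 0 := by nlinarith [sq_nonneg (eb t - eb s), sq_nonneg (eg t - eg s)]
      have k2 : eg t - eg s = 0 := by nlinarith [sq_nonneg (eb t - eb s), sq_nonneg (eg t - eg s)]
      have k3 : ea t ^ 2 = ea s ^ 2 := by
        rw [← eb_eg_sq, ← eb_eg_sq, sub_eq_zero.1 k1, sub_eq_zero.1 k2]
      exact hts (ea_inj ((sq_eq_sq₀ (ea_pos t).le (ea_pos s).le).1 k3))) e1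
    exact q1 (t, s, m, w) hm
  · have e0 : HasDerivAt (ec r v b) ((-(Real.log 2 * ea t)) • eP r v +
        (-(Real.log 2 * eb t) - Real.pi * eg t) • eN r v +
        (-(Real.log 2 * eg t) + Real.pi * eb t) • eN r b) t := by
      have hf : ec r v b = fun t => ea t • eP r v + eb t • eN r v + eg t • eN r b :=
        funext fun t => ec_eq r v b t
      rw [hf]
      exact (((ea_deriv t).smul_const _).add ((eb_deriv t).smul_const _)).add
        ((eg_deriv t).smul_const _)
    have e1 := e0.deriv.symm.trans h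
    have hl2 : 0 < Real.log 2 := Real.log_pos one_lt_two
    have hat := ea_pos t
    obtain ⟨m, w, hm⟩ := eG_surj hr (neg_ne_zero.2 (mul_pos hl2 hat).ne') (fun h0 => by
      have k1 : (Real.log 2 ^ 2 + Real.pi ^ 2) * ea t ^ 2 = 0 := by
        rw [← eb_eg_sq, ← h0]
        ring
      have k2 : 0 < (Real.log 2 ^ 2 + Real.pi ^ 2) * ea t ^ 2 := by positivity
      exact k2.ne' k1) e1
    exact q2 (t, m, w) hm

end Pool.Agent.HopfTw
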