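import Pool.Agent.HopfTw.Basic
import Pool.Agent.HopfFin.Time
import Pool.Agent.HopfFin.RadPow

/-!
# The time function of an embedded equivariant curve

Plan: deduce it from `exists_time`. Let `μ` be the homeomorphism `x ↦ ‖x‖ • x` (`pow_mk 2`), with
`μ * tau = tau ^ 2 * μ`. The curve `c' t = μ⁻¹ (c (2 * t))` satisfies
`c' (t + 1) = (2⁻¹ : ℝ) • c' t` (as `c (t + 2) = (4⁻¹ : ℝ) • c t`), is smooth (`c` has no zero),
injective and immersed (the derivative of `μ⁻¹` is invertible off `0`). Let `T'` be its time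
function, `T'' x = 2 * T' (μ⁻¹ x)`; then `T'' ((4⁻¹ : ℝ) • x) = T'' x + 2` and `T'' (c t) = t`.
Finally `T x = (T'' x + T'' ((2⁻¹ : ℝ) • r x) - 1) / 2`.
-/

set_option autoImplicit false

open scoped ContDiff Topology
open Set Filter Metric

namespace Pool.Agent.HopfTw

open Pool.Agent.HopfCov hiding pr
open Pool.Agent.HopfFin

private theorem tr_zero {r : E4 ≃ₗᵢ[ℝ] E4} {c : ℝ → E4} (hi : Function.Injective c)
    (he : ∀ t, c (t + 1) = (2⁻¹ : ℝ) • r (c t)) (t : ℝ) : c t ≠ 0 := by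
  intro h0
  have h1 : c (t + 1) = c t := by rw [he, h0, map_zero, smul_zero]
  have h2 := hi h1
  linarith

private theorem tr_two {r : E4 ≃ₗᵢ[ℝ] E4} (hr : Rf r) {c : ℝ → E4}
    (he : ∀ t, c (t + 1) = (2⁻¹ : ℝ) • r (c t)) (t : ℝ) :
    c (t + 2) = (2⁻¹ : ℝ) • (2⁻¹ : ℝ) • c t := by
  have h1 : t + 2 = (t + 1) + 1 := by ring
  rw [h1, he, he, map_smul, hr.sq]

private theorem tr_sq {μ : E4 ≃ₜ E4} (h : μ * tau = tau ^ 2 * μ) (x : E4) :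
    (μ⁻¹ : E4 ≃ₜ E4) ((2⁻¹ : ℝ) • (2⁻¹ : ℝ) • x) = (2⁻¹ : ℝ) • (μ⁻¹ : E4 ≃ₜ E4) x := by
  apply μ.injective
  rw [apply_inv_self']
  have h1 := DFunLike.congr_fun h ((μ⁻¹ : E4 ≃ₜ E4) x)
  rw [mul_apply', mul_apply', pow_two, mul_apply', apply_inv_self'] at h1
  exact h1.symm

/-- the time function -/
theorem exists_time_r {r : E4 ≃ₗᵢ[ℝ] E4} (hr : Rf r) (c : ℝ → E4) (hc : ContDiff ℝ ∞ c)
    (hi : Function.Injective c) (hd : ∀ t, deriv c t ≠ 0)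
    (he : ∀ t, c (t + 1) = (2⁻¹ : ℝ) • r (c t)) :
    ∃ T : E4 → ℝ, (∀ x, x ≠ 0 → ContDiffAt ℝ ∞ T x) ∧
      (∀ x, x ≠ 0 → T ((2⁻¹ : ℝ) • r x) = T x + 1) ∧ ∀ t, T (c t) = t := by
  obtain ⟨μ, hμ, -, hμc⟩ := pow_mk 2 two_pos
  have hν := hμ.inv
  set ν : E4 ≃ₜ E4 := μ⁻¹ with hνdef
  have hν2 : ∀ x, ν ((2⁻¹ : ℝ) • (2⁻¹ : ℝ) • x) = (2⁻¹ : ℝ) • ν x := tr_sq hμc
  have hc0 := tr_zero hi he
  have h2c : ContDiff ℝ ∞ (fun t : ℝ => c (2 * t)) := hc.comp (contDiff_const.mul contDiff_id)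
  have hc' : ContDiff ℝ ∞ (fun t : ℝ => ν (c (2 * t))) := by
    rw [contDiff_iff_contDiffAt]
    intro t
    exact ((hν.2 _ (hc0 (2 * t))).1).comp t h2c.contDiffAt
  have hi' : Function.Injective (fun t : ℝ => ν (c (2 * t))) := fun s t h => by
    have h1 := hi (ν.injective h)
    linarith
  have hd' : ∀ t, deriv (fun t : ℝ => ν (c (2 * t))) t ≠ 0 := by
    intro t h0
    have hcd : HasDerivAt c (deriv c (2 * t)) (2 * t) :=
      (hc.differentiable (by simp)).differentiableAt.hasDerivAt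
    have h2 : HasDerivAt (fun t : ℝ => c (2 * t)) ((2 : ℝ) • deriv c (2 * t)) t := by
      have h3 : HasDerivAt (fun t : ℝ => 2 * t) (2 : ℝ) t := by
        simpa using (hasDerivAt_id t).const_mul (2 : ℝ)
      exact hcd.scomp t h3
    have h4 : HasFDerivAt ν (fderiv ℝ ν (c (2 * t))) (c (2 * t)) :=
      (((hν.2 _ (hc0 (2 * t))).1).differentiableAt (by simp)).hasFDerivAt
    have h5 : HasDerivAt (fun t : ℝ => ν (c (2 * t)))
        (fderiv ℝ ν (c (2 * t)) ((2 : ℝ) • deriv c (2 * t))) t :=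
      h4.comp_hasDerivAt t h2
    rw [h5.deriv] at h0
    have h6 : Function.Injective (fderiv ℝ ν (c (2 * t))) :=
      ((fderiv ℝ ν (c (2 * t))).toContinuousLinearEquivOfDetNeZero
        (hν.2 _ (hc0 (2 * t))).2).injective
    have h7 := h6 (h0.trans (map_zero _).symm)
    exact hd (2 * t) ((smul_eq_zero.1 h7).resolve_left two_ne_zero)
  have he' : ∀ t : ℝ, ν (c (2 * (t + 1))) = (2⁻¹ : ℝ) • ν (c (2 * t)) := fun t => by
    rw [mul_add, mul_one, tr_two hr he, hν2]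
  obtain ⟨T', hT1, hT2, hT3⟩ := exists_time (fun t : ℝ => ν (c (2 * t))) hc' hi' hd' he'
  have hS1 : ∀ x, x ≠ 0 → ContDiffAt ℝ ∞ (fun y => T' (ν y)) x := fun x hx =>
    (hT1 _ (hν.ne hx)).comp x (hν.2 x hx).1
  have hS2 : ∀ x, x ≠ 0 → T' (ν ((2⁻¹ : ℝ) • (2⁻¹ : ℝ) • x)) = T' (ν x) + 1 := fun x hx => by
    rw [hν2, hT2 _ (hν.ne hx)]
  have hS3 : ∀ t, T' (ν (c t)) = t / 2 := fun t => by
    have h := hT3 (t / 2)
    have h2 : 2 * (t / 2) = t := by ring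
    simp only [h2] at h
    exact h
  have hr2 : ∀ x : E4, r ((2⁻¹ : ℝ) • r x) = (2⁻¹ : ℝ) • x := fun x => by
    rw [map_smul, hr.sq]
  have hr0 : ∀ x : E4, x ≠ 0 → (2⁻¹ : ℝ) • r x ≠ 0 := fun x hx => by
    rw [Ne, smul_eq_zero, not_or]
    exact ⟨by norm_num, fun h => hx (r.injective (h.trans (map_zero r).symm))⟩
  refine ⟨fun x => T' (ν x) + T' (ν ((2⁻¹ : ℝ) • r x)) - 1 / 2, fun x hx => ?_, fun x hx => ?_,
    fun t => ?_⟩
  · refine ((hS1 x hx).add ?_).sub contDiffAt_const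
    have h1 : ContDiffAt ℝ ∞ (fun y : E4 => (2⁻¹ : ℝ) • r y) x :=
      (r.contDiff.const_smul (2⁻¹ : ℝ)).contDiffAt
    exact ContDiffAt.comp (g := fun y => T' (ν y)) x (hS1 _ (hr0 x hx)) h1
  · show T' (ν ((2⁻¹ : ℝ) • r x)) + T' (ν ((2⁻¹ : ℝ) • r ((2⁻¹ : ℝ) • r x))) - 1 / 2 =
      T' (ν x) + T' (ν ((2⁻¹ : ℝ) • r x)) - 1 / 2 + 1
    rw [hr2, hS2 x hx]
    ring
  · show T' (ν (c t)) + T' (ν ((2⁻¹ : ℝ) • r (c t))) - 1 / 2 = t
    rw [← he, hS3, hS3]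
    ring

end Pool.Agent.HopfTw
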