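import Pool.Agent.HopfTw.NearId
import Pool.Agent.HopfTw.Time
import Pool.Agent.HopfTw.Dir

/-!
# Straightening of equivariant curves

Plan. `move_curve_r`: as `move_curve` in `HopfFin/Curve.lean`. `straighten_curve_r`: two steps as
in `HopfFin/Curve.lean` (the relation `∃ ψ, Pr r ψ ∧ ∀ t, ψ (C σ t) = C σ' t` on the parameters `σ
∈ ℝ` is an equivalence relation with open classes). STEP 1: `C σ t = (1 - σ) • c t + σ • u t` with
the generic end curve `u = ec r v b` (`exists_ec`): a coincidence `C σ t = C σ s`, `t ≠ s`, gives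
`σ • (u t - u s) = (σ - 1) • (c t - c s)`, a contradiction if `σ ≠ 0`; the same for the
velocities. STEP 2: `C σ t = 2^(-t) (P v + (1 - σ) (cos (π t) N v + sin (π t) N b))`: its
component fixed by `r` is `2^(-t) P v` with `P v ≠ 0`, so it is injective and immersed. After this
the curve is `t ↦ 2^(-t) • q`, `q = P v` fixed by `r`. Finally `exists_isom_r` for `q / ‖q‖` and a
dilation by `‖q‖⁻¹`.
-/

set_option autoImplicit false

open scoped ContDiff Topology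
open Set Filter Metric

namespace Pool.Agent.HopfTw

open Pool.Agent.HopfCov hiding pr
open Pool.Agent.HopfFin

/-- small equivariant displacements of an embedded equivariant curve are realised -/
theorem move_curve_r {r : E4 ≃ₗᵢ[ℝ] E4} (hr : Rf r) (c : ℝ → E4) (hc : ContDiff ℝ ∞ c)
    (hi : Function.Injective c) (hd : ∀ t, deriv c t ≠ 0)
    (he : ∀ t, c (t + 1) = (2⁻¹ : ℝ) • r (c t)) (u : ℝ → E4)
    (hu : ContDiff ℝ ∞ u) (hue : ∀ t, u (t + 1) = (2⁻¹ : ℝ) • r (u t)) :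
    ∃ δ : ℝ, 0 < δ ∧ ∀ s : ℝ, |s| < δ → ∃ ψ : E4 ≃ₜ E4, Pr r ψ ∧
      ∀ t, ψ (c t) = c t + s • u t := by
  obtain ⟨T, hT, hTe, hTc⟩ := exists_time_r hr c hc hi hd he
  have hc0 : ∀ t, c t ≠ 0 := by
    intro t h0
    have h1 := he t
    rw [h0, map_zero, smul_zero, ← h0] at h1
    have h2 := hi h1
    linarith
  set w : E4 → E4 := fun x => if x = 0 then 0 else u (T x) with hw
  have hw0 : w 0 = 0 := if_pos rfl
  have hwx : ∀ x, x ≠ 0 → w x = u (T x) := fun x hx => if_neg hx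
  obtain ⟨δ, hδ, h⟩ := near_id_smul_r hr w hw0 (fun x hx => by
    have h1 : ContDiffAt ℝ ∞ (fun y => u (T y)) x := hu.contDiffAt.comp x (hT x hx)
    refine h1.congr_of_eventuallyEq ?_
    filter_upwards [isOpen_ne.mem_nhds hx] with y hy using hwx y hy) (fun x => by
    by_cases hx : x = 0
    · rw [hx, map_zero, smul_zero, hw0, map_zero, smul_zero]
    · have hrx : r x ≠ 0 := fun h0 => hx (r.map_eq_zero_iff.1 h0)
      rw [hwx _ (smul_ne_zero (by norm_num) hrx), hwx x hx, hTe x hx, hue])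
  refine ⟨δ, hδ, fun s hs => ?_⟩
  obtain ⟨F, hF, hFx⟩ := h s hs
  refine ⟨F, hF, fun t => ?_⟩
  rw [hFx, hwx _ (hc0 t), hTc]

/-- an affine family of embedded equivariant curves is realised by `Pr r` -/
private theorem cvT_family {r : E4 ≃ₗᵢ[ℝ] E4} (hr : Rf r) (C : ℝ → ℝ → E4)
    (hC : ∀ σ, ContDiff ℝ ∞ (C σ)) (hi : ∀ σ, Function.Injective (C σ))
    (hd : ∀ σ t, deriv (C σ) t ≠ 0) (he : ∀ σ t, C σ (t + 1) = (2⁻¹ : ℝ) • r (C σ t))
    (u : ℝ → E4) (hu : ContDiff ℝ ∞ u) (hue : ∀ t, u (t + 1) = (2⁻¹ : ℝ) • r (u t))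
    (hCu : ∀ σ σ' t, C σ' t = C σ t + (σ' - σ) • u t) :
    ∃ ψ : E4 ≃ₜ E4, Pr r ψ ∧ ∀ t, ψ (C 0 t) = C 1 t := by
  have hloc : ∀ σ : ℝ, ∃ δ : ℝ, 0 < δ ∧ ∀ σ' : ℝ, |σ' - σ| < δ →
      ∃ ψ : E4 ≃ₜ E4, Pr r ψ ∧ ∀ t, ψ (C σ t) = C σ' t := by
    intro σ
    obtain ⟨δ, hδ, h⟩ := move_curve_r hr (C σ) (hC σ) (hi σ) (hd σ) (he σ) u hu hue
    refine ⟨δ, hδ, fun σ' hσ' => ?_⟩
    obtain ⟨ψ, hψ, h1⟩ := h (σ' - σ) hσ'
    exact ⟨ψ, hψ, fun t => by rw [h1, ← hCu]⟩
  set S : Set ℝ := {σ | ∃ ψ : E4 ≃ₜ E4, Pr r ψ ∧ ∀ t, ψ (C 0 t) = C σ t} with hS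
  have hopen : IsOpen S := by
    rw [Metric.isOpen_iff]
    rintro σ ⟨ψ, hψ, h1⟩
    obtain ⟨δ, hδ, h⟩ := hloc σ
    refine ⟨δ, hδ, fun σ' hσ' => ?_⟩
    obtain ⟨ψ', hψ', h2⟩ := h σ' (by rwa [mem_ball, Real.dist_eq] at hσ')
    exact ⟨ψ' * ψ, hψ'.mul hψ, fun t => by rw [mul_apply', h1, h2]⟩
  have hclosed : IsClosed S := by
    rw [← isOpen_compl_iff, Metric.isOpen_iff]
    intro σ hσ
    obtain ⟨δ, hδ, h⟩ := hloc σ
    refine ⟨δ, hδ, fun σ' hσ' hmem => hσ ?_⟩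
    obtain ⟨ψ', hψ', h2⟩ := h σ' (by rwa [mem_ball, Real.dist_eq] at hσ')
    obtain ⟨ψ, hψ, h1⟩ := hmem
    refine ⟨ψ'⁻¹ * ψ, hψ'.inv.mul hψ, fun t => ?_⟩
    rw [mul_apply', h1, ← h2]
    exact ψ'.injective (apply_inv_self' _ _)
  have h0 : (0 : ℝ) ∈ S := ⟨1, Pr.one r, fun t => rfl⟩
  have huniv : S = univ := IsClopen.eq_univ ⟨hclosed, hopen⟩ ⟨0, h0⟩
  have h1 : (1 : ℝ) ∈ S := by
    rw [huniv]
    exact mem_univ _
  exact h1

private theorem cvT_pow_smooth : ContDiff ℝ ∞ (fun t : ℝ => (2 : ℝ) ^ (-t)) := by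
  have h : (fun t : ℝ => (2 : ℝ) ^ (-t)) = fun t => Real.exp (Real.log 2 * -t) := by
    funext t
    rw [Real.rpow_def_of_pos two_pos]
  rw [h]
  exact Real.contDiff_exp.comp (contDiff_const.mul contDiff_neg)

private theorem cvT_pow_deriv (t : ℝ) :
    HasDerivAt (fun t : ℝ => (2 : ℝ) ^ (-t)) (-(Real.log 2 * (2 : ℝ) ^ (-t))) t := by
  have h : (fun t : ℝ => (2 : ℝ) ^ (-t)) = fun t => Real.exp (Real.log 2 * -t) := by
    funext t
    rw [Real.rpow_def_of_pos two_pos]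
  have h1 : HasDerivAt (fun t : ℝ => Real.log 2 * -t) (-Real.log 2) t := by
    have := (hasDerivAt_neg t).const_mul (Real.log 2)
    simpa using this
  have h2 := h1.exp
  rw [h]
  convert h2 using 1
  rw [Real.rpow_def_of_pos two_pos]
  ring

private theorem cvT_pow_pos (t : ℝ) : 0 < (2 : ℝ) ^ (-t) := Real.rpow_pos_of_pos two_pos _

private theorem cvT_pow_add (t : ℝ) : (2 : ℝ) ^ (-(t + 1)) = 2⁻¹ * (2 : ℝ) ^ (-t) := by
  rw [neg_add, Real.rpow_add two_pos, Real.rpow_neg_one]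
  ring

/-- the curves with the fixed component `p` and the anti-fixed components `ρ n`, `ρ m` -/
private noncomputable def cvT (p n m : E4) (ρ t : ℝ) : E4 :=
  (2 : ℝ) ^ (-t) • (p + (ρ * Real.cos (Real.pi * t)) • n + (ρ * Real.sin (Real.pi * t)) • m)

private theorem cvT_smooth (p n m : E4) (ρ : ℝ) : ContDiff ℝ ∞ (cvT p n m ρ) := by
  have h1 : ContDiff ℝ ∞ fun t : ℝ => ρ * Real.cos (Real.pi * t) :=
    contDiff_const.mul (Real.contDiff_cos.comp (contDiff_const.mul contDiff_id))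
  have h2 : ContDiff ℝ ∞ fun t : ℝ => ρ * Real.sin (Real.pi * t) :=
    contDiff_const.mul (Real.contDiff_sin.comp (contDiff_const.mul contDiff_id))
  unfold cvT
  exact cvT_pow_smooth.smul ((contDiff_const.add (h1.smul contDiff_const)).add
    (h2.smul contDiff_const))

private theorem cvT_eqv {r : E4 ≃ₗᵢ[ℝ] E4} {p n m : E4} (hp : r p = p) (hn : r n = -n)
    (hm : r m = -m) (ρ t : ℝ) : cvT p n m ρ (t + 1) = (2⁻¹ : ℝ) • r (cvT p n m ρ t) := by
  unfold cvT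
  rw [cvT_pow_add, mul_add, mul_one, Real.cos_add_pi, Real.sin_add_pi, map_smul, map_add,
    map_add, map_smul, map_smul, hp, hn, hm]
  module

private theorem cvT_fix {r : E4 ≃ₗᵢ[ℝ] E4} {p n m : E4} (hp : r p = p) (hn : r n = -n)
    (hm : r m = -m) (ρ t : ℝ) :
    cvT p n m ρ t + r (cvT p n m ρ t) = (2 * (2 : ℝ) ^ (-t)) • p := by
  unfold cvT
  rw [map_smul, map_add, map_add, map_smul, map_smul, hp, hn, hm]
  module

private theorem cvT_inj {r : E4 ≃ₗᵢ[ℝ] E4} {p n m : E4} (hp : r p = p) (hn : r n = -n)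
    (hm : r m = -m) (hp0 : p ≠ 0) (ρ : ℝ) : Function.Injective (cvT p n m ρ) := by
  intro t s hts
  have h1 := cvT_fix hp hn hm ρ t
  rw [hts, cvT_fix hp hn hm ρ s] at h1
  have h2 := smul_left_injective ℝ hp0 h1
  have h3 : (2 : ℝ) ^ (-s) = (2 : ℝ) ^ (-t) := mul_left_cancel₀ two_ne_zero h2
  have h4 := (Real.rpow_right_inj two_pos (by norm_num)).1 h3
  linarith

private theorem cvT_deriv {r : E4 ≃ₗᵢ[ℝ] E4} {p n m : E4} (hp : r p = p) (hn : r n = -n)
    (hm : r m = -m) (hp0 : p ≠ 0) (ρ t : ℝ) : deriv (cvT p n m ρ) t ≠ 0 := by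
  intro h0
  have h1 : HasDerivAt (cvT p n m ρ) (deriv (cvT p n m ρ) t) t :=
    ((cvT_smooth p n m ρ).differentiable (by simp) t).hasDerivAt
  rw [h0] at h1
  have h2 : HasDerivAt (fun t => r (cvT p n m ρ t)) (r.toContinuousLinearEquiv 0) t :=
    r.toContinuousLinearEquiv.hasFDerivAt.comp_hasDerivAt t h1
  have h3 := h1.add h2
  have h4 : HasDerivAt (fun t : ℝ => (2 * (2 : ℝ) ^ (-t)) • p)
      ((2 * -(Real.log 2 * (2 : ℝ) ^ (-t))) • p) t :=
    ((cvT_pow_deriv t).const_mul 2).smul_const p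
  have h5 : (fun t : ℝ => (2 * (2 : ℝ) ^ (-t)) • p) =
      (fun t => cvT p n m ρ t + r (cvT p n m ρ t)) := by
    funext t
    rw [cvT_fix hp hn hm]
  rw [h5] at h4
  have h6 := h4.unique h3
  rw [map_zero, add_zero] at h6
  rcases smul_eq_zero.1 h6 with h7 | h7
  · have h8 : 0 < Real.log 2 * (2 : ℝ) ^ (-t) :=
      mul_pos (Real.log_pos one_lt_two) (cvT_pow_pos t)
    linarith
  · exact hp0 h7

/-- an embedded equivariant curve is straightened by an element of `Pr r` -/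
theorem straighten_curve_r {r : E4 ≃ₗᵢ[ℝ] E4} (hr : Rf r) (c : ℝ → E4) (hc : ContDiff ℝ ∞ c)
    (hi : Function.Injective c) (hd : ∀ t, deriv c t ≠ 0)
    (he : ∀ t, c (t + 1) = (2⁻¹ : ℝ) • r (c t)) :
    ∃ ψ : E4 ≃ₜ E4, Pr r ψ ∧ ∀ t, ψ (c t) = (2 : ℝ) ^ (-t) • e0 := by
  obtain ⟨v, b, hv, hvb, hvd⟩ := exists_ec hr c hc
  set p : E4 := (2⁻¹ : ℝ) • (v + r v) with hpd
  set n : E4 := (2⁻¹ : ℝ) • (v - r v) with hnd
  set m : E4 := (2⁻¹ : ℝ) • (b - r b) with hmd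
  have hp : r p = p := by
    rw [hpd, map_smul, map_add, hr.sq, add_comm]
  have hn : r n = -n := by
    rw [hnd, map_smul, map_sub, hr.sq]
    module
  have hm : r m = -m := by
    rw [hmd, map_smul, map_sub, hr.sq]
    module
  have hp0 : p ≠ 0 := smul_ne_zero (by norm_num) hv
  have hec : ec r v b = cvT p n m 1 := by
    funext t
    unfold ec cvT
    rw [hpd, hnd, hmd]
    module
  rw [hec] at hvb hvd
  -- the first step
  obtain ⟨ψ₁, hψ₁, h₁⟩ := cvT_family hr (fun σ t => (1 - σ) • c t + σ • cvT p n m 1 t)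
    (fun σ => (hc.const_smul (1 - σ)).add ((cvT_smooth p n m 1).const_smul σ))
    (fun σ t s hts => by
      by_contra hne
      have h1 : (1 - σ) • c t + σ • cvT p n m 1 t = (1 - σ) • c s + σ • cvT p n m 1 s := hts
      by_cases hσ : σ = 0
      · rw [hσ, sub_zero, one_smul, one_smul, zero_smul, zero_smul, add_zero, add_zero] at h1
        exact hne (hi h1)
      · refine hvb t s (σ⁻¹ * (σ - 1)) hne ?_
        have h2 : σ • (cvT p n m 1 t - cvT p n m 1 s) = (σ - 1) • (c t - c s) := by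
          have h3 : σ • cvT p n m 1 t = (1 - σ) • c s + σ • cvT p n m 1 s - (1 - σ) • c t := by
            rw [← h1]
            abel
          rw [smul_sub, h3]
          module
        rw [mul_smul, ← h2, inv_smul_smul₀ hσ])
    (fun σ t h0 => by
      have h1 : HasDerivAt c (deriv c t) t := (hc.differentiable (by simp) t).hasDerivAt
      have h2 : HasDerivAt (cvT p n m 1) (deriv (cvT p n m 1) t) t :=
        ((cvT_smooth p n m 1).differentiable (by simp) t).hasDerivAt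
      have h3 : HasDerivAt (fun t => (1 - σ) • c t + σ • cvT p n m 1 t)
          ((1 - σ) • deriv c t + σ • deriv (cvT p n m 1) t) t :=
        (h1.const_smul (1 - σ)).add (h2.const_smul σ)
      have h4 : (1 - σ) • deriv c t + σ • deriv (cvT p n m 1) t = 0 := h3.deriv.symm.trans h0
      by_cases hσ : σ = 0
      · rw [hσ, sub_zero, one_smul, zero_smul, add_zero] at h4
        exact hd t h4
      · refine hvd t (σ⁻¹ * (σ - 1)) ?_
        have h5 : σ • deriv (cvT p n m 1) t = (σ - 1) • deriv c t := by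
          rw [add_comm, add_eq_zero_iff_eq_neg] at h4
          rw [h4]
          module
        rw [mul_smul, ← h5, inv_smul_smul₀ hσ])
    (fun σ t => by
      rw [he, cvT_eqv hp hn hm, map_add, map_smul, map_smul]
      module)
    (fun t => cvT p n m 1 t - c t) ((cvT_smooth p n m 1).sub hc)
    (fun t => by
      rw [he, cvT_eqv hp hn hm, map_sub]
      module)
    (fun σ σ' t => by
      module)
  -- the second step
  obtain ⟨ψ₂, hψ₂, h₂⟩ := cvT_family hr (fun σ t => cvT p n m (1 - σ) t)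
    (fun σ => cvT_smooth p n m (1 - σ)) (fun σ => cvT_inj hp hn hm hp0 (1 - σ))
    (fun σ => cvT_deriv hp hn hm hp0 (1 - σ)) (fun σ => cvT_eqv hp hn hm (1 - σ))
    (cvT 0 n m (-1)) (cvT_smooth 0 n m (-1)) (cvT_eqv (map_zero r) hn hm (-1))
    (fun σ σ' t => by
      unfold cvT
      module)
  -- the end
  clear_value p
  have hq : 0 < ‖p‖ := norm_pos_iff.2 hp0
  obtain ⟨L, hL, hLr⟩ := exists_isom_r hr (‖p‖⁻¹ • p) (by
    rw [norm_smul, norm_inv, norm_norm, inv_mul_cancel₀ hq.ne']) (by rw [map_smul, hp])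
  have hLp : L p = ‖p‖ • e0 := by
    rw [← hL, map_smul, smul_smul, mul_inv_cancel₀ hq.ne', one_smul]
  refine ⟨lamH (Real.logb 2 ‖p‖) * (linH L * (ψ₂ * ψ₁)),
    (Pr_lamH hr _).mul ((Pr_of_Pz (isom_pz L) hLr).mul (hψ₂.mul hψ₁)), fun t => ?_⟩
  have h3 := h₁ t
  have h4 := h₂ t
  simp only [sub_zero, one_smul, zero_smul, add_zero, sub_self, zero_add] at h3 h4
  have h5 : cvT p n m 0 t = (2 : ℝ) ^ (-t) • p := by
    unfold cvT
    rw [zero_mul, zero_mul, zero_smul, zero_smul, add_zero, add_zero]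
  rw [mul_apply', mul_apply', mul_apply', h3, h4, h5]
  have h6 : linH L ((2 : ℝ) ^ (-t) • p) = L ((2 : ℝ) ^ (-t) • p) := rfl
  rw [h6, map_smul, hLp, smul_smul, lamH_apply, lam_smul_e0, Real.rpow_neg zero_le_two,
    Real.rpow_logb two_pos (by norm_num) hq]
  congr 1
  field_simp

end Pool.Agent.HopfTw
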