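import Pool.Agent.HopfFin.Cones
import Pool.Agent.HopfFin.Conj
import Pool.Agent.HopfFin.Lam

/-!
# The twisted product: basic definitions (library `HopfTw`, owners helper64, helper29)

This library extends `HopfFin` from the contraction `x ↦ x / 2` to the contraction
`tauL r : x ↦ r x / 2`, where `r` is the identity or the reflection in the last coordinate. For
`r = 1` the definitions reduce to those of `HopfFin`.
-/

set_option autoImplicit false

open scoped ContDiff Topology
open Set Filter Metric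

namespace Pool.Agent.HopfTw

open Pool.Agent.HopfCov hiding pr
open Pool.Agent.HopfFin

/-- the third basis vector -/
noncomputable def e2 : E4 := EuclideanSpace.single 2 1

/-- an involutive isometry which fixes the first three basis vectors -/
structure Rf (r : E4 ≃ₗᵢ[ℝ] E4) : Prop where
  sq : ∀ x, r (r x) = x
  fix0 : r e0 = e0
  fix1 : r e1 = e1
  fix2 : r e2 = e2

/-- `h` is a diffeomorphism of `ℝ⁴ ∖ 0` commuting with `x ↦ r x / 2` -/
structure Pr (r : E4 ≃ₗᵢ[ℝ] E4) (h : E4 ≃ₜ E4) : Prop where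
  sm : Sm h
  eqv : ∀ x, h ((2⁻¹ : ℝ) • r x) = (2⁻¹ : ℝ) • r (h x)

/-- the map `f` commutes with `x ↦ r x / 2` on a thin cone -/
def EqvR (r : E4 ≃ₗᵢ[ℝ] E4) (f : E4 → E4) : Prop :=
  ∃ δ : ℝ, 0 < δ ∧ ∀ x ∈ Cone δ, f ((2⁻¹ : ℝ) • r x) = (2⁻¹ : ℝ) • r (f x)

/-- `T` is a homeomorphism conjugating `G` to `x ↦ r x / 2`, and a local diffeomorphism near the
points which it maps to the ray `ℝ₊ e0` -/
structure GoodR (r : E4 ≃ₗᵢ[ℝ] E4) (G T : E4 ≃ₜ E4) : Prop where
  zero : T 0 = 0
  conj : T * G = tauL r * T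
  reg : ∀ t : ℝ, 0 < t → Reg T ((T⁻¹ : E4 ≃ₜ E4) (t • e0))

/-- the reflection in the last coordinate -/
noncomputable def r3 : E4 ≃ₗᵢ[ℝ] E4 := (ℝ ∙ (EuclideanSpace.single 3 1 : E4))ᗮ.reflection

end Pool.Agent.HopfTw
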