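import Pool.Agent.HopfTw.Level
import Pool.Agent.HopfTw.Lift
import Pool.Agent.HopfTw.Space
import Pool.Agent.HopfTw.OffIn
import Pool.Agent.HopfFin.Final

/-!
# The finiteness theorem, non-orientable case
-/

set_option autoImplicit false

open scoped ContDiff Topology Manifold
open Set Filter Metric

namespace Pool.Agent.HopfTw

open Pool.Agent.HopfCov hiding pr
open Pool.Agent.HopfFin
open Pool.Agent.HopfCov.Smooth

/-- **Theorem F, non-orientable case** -/
theorem infinite_family_T {M : Mfd4} (hM : InT M) (hO : ¬ OffPointT M) :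
    ∃ N : ℕ → Mfd4, (∀ k, InT (N k)) ∧ ∀ i j, i ≠ j → ¬ Diffeomorphic (N i) (N j) := by
  obtain ⟨h1, h2, p, g, G, T, h3, h4, h5, h6, h7⟩ := lift_good_neg hM
  have hO' : ¬ Off G := fun h =>
    hO (offPointT_of_Off ⟨h1, h2⟩ h3 h4 (h7.PD h5) h6 h)
  obtain ⟨V, h8, h9⟩ := main_G_neg h5 h7 hO'
  choose T' h10 using fun k => (h8 k).2
  choose N q γ i1 i2 i3 i4 i5 using fun k => space_good_neg (h8 k).1 (h10 k)
  exact ⟨N, i1, fun i j hij hd => h9 i j hij (cjV_of_diffeo ⟨i2 i, i3 i⟩ ⟨i2 j, i3 j⟩ (i4 i) (i4 j)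
    (i5 i) (i5 j) ((h10 i).contr Rf_r3) ((h10 j).contr Rf_r3) hd)⟩

/-- if the class `T` is finite up to diffeomorphism then all its members are standard off one
point -/
theorem offPointT_of_finite (h : FinitelyManyT) {M : Mfd4} (hM : InT M) : OffPointT M := by
  by_contra hO
  obtain ⟨N, h1, h2⟩ := infinite_family_T hM hO
  obtain ⟨n, F, hF⟩ := h
  choose i hi using fun k => hF (N k) (h1 k)
  obtain ⟨a, b, hab, he⟩ := Finite.exists_ne_map_eq_of_infinite i
  exact h2 a b hab (diffeo_trans (hi a) (by rw [he]; exact diffeo_symm (hi b)))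

/-- two twisted products are diffeomorphic -/
private theorem diffeo_of_twisted_Final {M N : Mfd4} (h : TwistedProduct M)
    (h' : TwistedProduct N) : Diffeomorphic M N := by
  obtain ⟨p, hp⟩ := h
  obtain ⟨p', hp'⟩ := h'
  refine (conj_final hp hp').2 ⟨1, grpP.one_mem, ?_⟩
  rw [inv_one, mul_one, one_mul, mul_inv_cancel]
  exact derD.one_mem

/-- all members of `T` are standard if and only if `[P, P] = D` and `T` is finite. Plan: `→`:
`FinitelyManyT` with one manifold (a twisted product; two twisted products are diffeomorphic by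
`diffeomorphic` of orbit spaces of the same generator), `derP = grpD` by `uniq_neg` and
`inT_of_offPoint`; `←`: `offPointT_of_finite`, `almost_off`, `uniq_neg`. -/
theorem unique_iff_T : (∀ M : Mfd4, InT M → TwistedProduct M) ↔ derP = grpD ∧ FinitelyManyT := by
  constructor
  · intro h
    refine ⟨uniq_neg.1 fun M X hX hM => h M (inT_of_offPoint hX hM), ?_⟩
    obtain ⟨X, hX⟩ := exists_twisted
    have hX' : TwistedProduct X := twistedProduct_iff.2 hX
    exact ⟨1, fun _ => X, fun M hM => ⟨0, diffeo_of_twisted_Final (h M hM) hX'⟩⟩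
  · rintro ⟨h1, h2⟩ M hM
    obtain ⟨X, hX, hMX⟩ := offPointT_of_finite h2 hM
    exact uniq_neg.2 h1 M X hX ((almost_off (Or.inr hX)).2 hMX)

/-- both classes -/
theorem unique_both : ((∀ M : Mfd4, InS M → DiffeoS1S3 M) ∧ ∀ M : Mfd4, InT M → TwistedProduct M) ↔
    derD = grpD ∧ FinitelyMany ∧ FinitelyManyT := by
  rw [unique_iff, unique_iff_T]
  exact ⟨fun h => ⟨h.1.1, h.1.2, h.2.2⟩, fun h => ⟨⟨h.1, h.2.1⟩, pos_neg h.1, h.2.2⟩⟩

end Pool.Agent.HopfTw
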