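import Pool.Agent.HopfTw.Place
import Pool.Agent.HopfFin.Sum

/-!
# The manifolds `V` and the circle sums with signs

Plan of `VT_eq`: as `VV_eq` in `HopfFin/Sum.lean`. Put `F k = PT k * K * (PT k)⁻¹` for all `k`
(with `N = n * c`). The `F k`, `k < N`, commute; `ZT * F k * ZT⁻¹ = F (k + c)` (`ZT_PT`), and for
`j < c` `F (N + j) = tauL r * F j * (tauL r)⁻¹` (`PT_wrap`) has the same support as `F j`, so it
commutes with `F k` for `k ≠ j`. Hence `KT * ZT * KT⁻¹ = (∏_{k<N} F k) (∏_{k<N} F (k+c))⁻¹ ZT =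
∏_{j<c} (F j * (F (N+j))⁻¹) * ZT`, and `F j * (F (N+j))⁻¹ = PT j * (K * tauL r * K⁻¹ * (tauL r)⁻¹)
* (PT j)⁻¹`, as `PT j` commutes with `tauL r` (`PT_pr`). `VT_good`: `T = T_n * KT⁻¹`, `T_n` from
`tn_mk` (make its formula explicit, or use: `T_n` commutes with `r`, so `T_n * ZT r n = tauL r *
T_n`).
-/

set_option autoImplicit false

open scoped ContDiff Topology
open Set Filter Metric

namespace Pool.Agent.HopfTw

open Pool.Agent.HopfCov hiding pr
open Pool.Agent.HopfFin

/-- the product of the copies of `K` -/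
noncomputable def KT (r : E4 ≃ₗᵢ[ℝ] E4) (K : E4 ≃ₜ E4) (N c : ℕ) : E4 ≃ₜ E4 :=
  ((List.range N).map fun k => PT r N c k * K * (PT r N c k)⁻¹).prod

/-- the homeomorphism `V` with `n * c` copies, `c` of them in each fundamental domain -/
noncomputable def VT (r : E4 ≃ₗᵢ[ℝ] E4) (K : E4 ≃ₜ E4) (n c : ℕ) : E4 ≃ₜ E4 :=
  KT r K (n * c) c * ZT r n * (KT r K (n * c) c)⁻¹

/-- the circle sum -/
noncomputable def YT (r : E4 ≃ₗᵢ[ℝ] E4) (K : E4 ≃ₜ E4) (N c : ℕ) : E4 ≃ₜ E4 :=
  KT r K N c * tauL r * (KT r K N c)⁻¹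

theorem VT_pow {r : E4 ≃ₗᵢ[ℝ] E4} (hr : Rf r) (K : E4 ≃ₜ E4) {n : ℕ} (hn : Odd n) (c : ℕ) :
    VT r K n c ^ n = YT r K (n * c) c := by
  rw [VT, conj_pow, ZT_pow hr hn]
  rfl

/-- the power maps, for any factor `c` -/
private noncomputable def twR (c : ℝ) (x : E4) : E4 := lam (c * Real.logb 2 ‖x‖) x

private theorem norm_twR_STw (c : ℝ) {x : E4} (hx : x ≠ 0) :
    ‖twR c x‖ = ‖x‖ ^ (1 - c) := by
  have h0 : 0 < ‖x‖ := norm_pos_iff.2 hx
  have h1 : (2 : ℝ) ^ (-(c * Real.logb 2 ‖x‖)) = ‖x‖ ^ (-c) := by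
    rw [show -(c * Real.logb 2 ‖x‖) = Real.logb 2 ‖x‖ * (-c) by ring,
      Real.rpow_mul (by norm_num), Real.rpow_logb (by norm_num) (by norm_num) h0]
  rw [twR, norm_lam, h1]
  rw [show (1 - c) = -c + 1 by ring, Real.rpow_add h0, Real.rpow_one]

private theorem twR_zero_STw (c : ℝ) : twR c 0 = 0 := (lamL _).map_zero

private theorem twR_ne_STw (c : ℝ) {x : E4} (hx : x ≠ 0) : twR c x ≠ 0 := by
  rw [← norm_pos_iff, norm_twR_STw c hx]
  exact Real.rpow_pos_of_pos (norm_pos_iff.2 hx) _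

private theorem twR_twR_STw {c c' : ℝ} (h : c + c' * (1 - c) = 0) (x : E4) :
    twR c' (twR c x) = x := by
  rcases eq_or_ne x 0 with rfl | hx
  · rw [twR_zero_STw, twR_zero_STw]
  have h0 : 0 < ‖x‖ := norm_pos_iff.2 hx
  have h1 : Real.logb 2 ‖twR c x‖ = (1 - c) * Real.logb 2 ‖x‖ := by
    rw [norm_twR_STw c hx, Real.logb_rpow_eq_mul_logb_of_pos h0]
  rw [twR, h1, twR, ← lam_add]
  have h2 : c' * ((1 - c) * Real.logb 2 ‖x‖) + c * Real.logb 2 ‖x‖ = 0 := by
    linear_combination (Real.logb 2 ‖x‖) * h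
  rw [h2, lam_zero]

private theorem twR_smooth_STw (c : ℝ) {x : E4} (hx : x ≠ 0) : ContDiffAt ℝ ∞ (twR c) x := by
  have h1 : ContDiffAt ℝ ∞ (fun x : E4 => ‖x‖) x := contDiffAt_norm ℝ hx
  have h2 : ContDiffAt ℝ ∞ (fun x : E4 => c * Real.logb 2 ‖x‖) x := by
    have h3 : ContDiffAt ℝ ∞ (fun x : E4 => Real.log ‖x‖) x := h1.log (norm_ne_zero_iff.2 hx)
    exact contDiffAt_const.mul (h3.div_const _)
  exact ContDiffAt.comp x (g := fun p : ℝ × E4 => lam p.1 p.2)
    (f := fun x : E4 => (c * Real.logb 2 ‖x‖, x)) contDiff_lam.contDiffAt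
    (h2.prodMk contDiffAt_id)

private theorem twR_cont_STw {c : ℝ} (hc : c < 1) : Continuous (twR c) := by
  rw [continuous_iff_continuousAt]
  intro x
  rcases eq_or_ne x 0 with rfl | hx
  · have h1 : ∀ x : E4, ‖twR c x‖ ≤ ‖x‖ ^ (1 - c) := by
      intro x
      rcases eq_or_ne x 0 with rfl | hx
      · rw [twR_zero_STw, norm_zero]
        exact Real.rpow_nonneg le_rfl _
      · exact (norm_twR_STw c hx).le
    have h2 : Tendsto (fun x : E4 => ‖x‖ ^ (1 - c)) (𝓝 0) (𝓝 0) := by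
      have h3 : ContinuousAt (fun x : E4 => ‖x‖ ^ (1 - c)) 0 :=
        continuous_norm.continuousAt.rpow_const (Or.inr (by linarith))
      have h4 := h3.tendsto
      rwa [norm_zero, Real.zero_rpow (by linarith)] at h4
    have h5 := squeeze_zero_norm h1 h2
    rw [ContinuousAt, twR_zero_STw]
    exact h5
  · exact (twR_smooth_STw c hx).continuousAt


private theorem tn_mk_STw (n : ℕ) (hn : 0 < n) : ∃ T : E4 ≃ₜ E4, Sm T ∧
    T * lamH (1 / n) = tau * T ∧ (∀ t : ℝ, 0 < t → T (t • e0) = t ^ n • e0) ∧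
    ∀ r : E4 ≃ₗᵢ[ℝ] E4, Rf r → ∀ x, T (r x) = r (T x) := by
  have hn' : (0 : ℝ) < n := by exact_mod_cast hn
  obtain ⟨c, hc⟩ : ∃ c : ℝ, c = 1 - n := ⟨_, rfl⟩
  obtain ⟨c', hc'⟩ : ∃ c' : ℝ, c' = 1 - 1 / n := ⟨_, rfl⟩
  have e1 : c + c' * (1 - c) = 0 := by
    rw [hc, hc']
    field_simp
    ring
  have e2 : c' + c * (1 - c') = 0 := by
    rw [hc, hc']
    field_simp
    ring
  have hc1 : c < 1 := by rw [hc]; linarith
  have hc1' : c' < 1 := by
    rw [hc']
    have : 0 < 1 / (n : ℝ) := by positivity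
    linarith
  let T : E4 ≃ₜ E4 :=
    { toFun := twR c
      invFun := twR c'
      left_inv := twR_twR_STw e1
      right_inv := twR_twR_STw e2
      continuous_toFun := twR_cont_STw hc1
      continuous_invFun := twR_cont_STw hc1' }
  refine ⟨T, ⟨twR_zero_STw c, fun x hx => ⟨twR_smooth_STw c hx, ?_⟩⟩, ?_, ?_, fun r hr x => ?_⟩
  · -- the derivative is invertible
    have hd1 : HasFDerivAt (twR c) (fderiv ℝ (twR c) x) x :=
      ((twR_smooth_STw c hx).differentiableAt (by simp)).hasFDerivAt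
    have hd2 : HasFDerivAt (twR c') (fderiv ℝ (twR c') (twR c x)) (twR c x) :=
      ((twR_smooth_STw c' (twR_ne_STw c hx)).differentiableAt (by simp)).hasFDerivAt
    have hd3 := hd2.comp x hd1
    have hid : twR c' ∘ twR c = fun y => y := by
      funext y
      exact twR_twR_STw e1 y
    rw [hid] at hd3
    have h4 := hd3.fderiv
    have h5 : (1 : ℝ) = (fderiv ℝ (twR c') (twR c x)).det * (fderiv ℝ (twR c) x).det := by
      rw [← det_comp_clm, ← h4, fderiv_fun_id]
      simp [ContinuousLinearMap.det]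
    exact right_ne_zero_of_mul_eq_one h5.symm
  · apply Homeomorph.ext
    intro x
    show twR c (lam (1 / n) x) = (2⁻¹ : ℝ) • twR c x
    rcases eq_or_ne x 0 with rfl | hx
    · have h0 : lam (1 / n) (0 : E4) = 0 := (lamL _).map_zero
      rw [h0, twR_zero_STw, smul_zero]
    have h0 : 0 < ‖x‖ := norm_pos_iff.2 hx
    have h1 : Real.logb 2 ‖lam (1 / n) x‖ = -(1 / n) + Real.logb 2 ‖x‖ := by
      rw [norm_lam, Real.logb_mul (Real.rpow_pos_of_pos (by norm_num) _).ne' h0.ne',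
        Real.logb_rpow (by norm_num) (by norm_num)]
    rw [← lam_one, twR, h1, twR, ← lam_add, ← lam_add]
    congr 1
    rw [hc]
    field_simp
    ring
  · intro t ht
    show twR c (t • e0) = t ^ n • e0
    have h1 : ‖(t • e0 : E4)‖ = t := by
      rw [norm_smul, norm_e0, mul_one, Real.norm_eq_abs, abs_of_pos ht]
    have h2 : (2 : ℝ) ^ (-(c * Real.logb 2 t)) = t ^ (-c) := by
      rw [show -(c * Real.logb 2 t) = Real.logb 2 t * (-c) by ring,
        Real.rpow_mul (by norm_num), Real.rpow_logb (by norm_num) (by norm_num) ht]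
    rw [twR, h1, lam_smul_e0, h2]
    congr 1
    have h3 : t ^ (-c) * t = t ^ (-c + 1) := by rw [Real.rpow_add ht, Real.rpow_one]
    rw [h3, hc, show -(1 - (n : ℝ)) + 1 = (n : ℝ) by ring, Real.rpow_natCast]
  · show twR c (r x) = r (twR c x)
    rw [twR, twR, r.norm_map]
    exact hr.lam _ x

private theorem sum_list_fix_STw (x : E4) : ∀ l : List (E4 ≃ₜ E4), (∀ h ∈ l, h x = x) →
    l.prod x = x := by
  intro l
  induction l with
  | nil => intro _; rfl
  | cons g l ih =>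
    intro h
    rw [List.prod_cons, mul_apply', ih fun k hk => h k (List.mem_cons_of_mem _ hk)]
    exact h g List.mem_cons_self

private theorem PT_zero_STw {r : E4 ≃ₗᵢ[ℝ] E4} (hr : Rf r) (N c k : ℕ) : PT r N c k 0 = 0 :=
  (PT_pr hr N c k).sm.1

private theorem inv_zero_STw {h : E4 ≃ₜ E4} (h0 : h 0 = 0) : (h⁻¹ : E4 ≃ₜ E4) 0 = 0 :=
  h.injective (by rw [apply_inv_self', h0])

private theorem F_zero_STw {r : E4 ≃ₗᵢ[ℝ] E4} (hr : Rf r) {K : E4 ≃ₜ E4} (h0 : K 0 = 0)
    (N c k : ℕ) : (PT r N c k * K * (PT r N c k)⁻¹) 0 = 0 := by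
  rw [mul_apply', mul_apply', inv_zero_STw (PT_zero_STw hr N c k), h0, PT_zero_STw hr]

theorem KT_zero {r : E4 ≃ₗᵢ[ℝ] E4} (hr : Rf r) {K : E4 ≃ₜ E4} (h0 : K 0 = 0) (N c : ℕ) :
    KT r K N c 0 = 0 := by
  refine sum_list_fix_STw 0 _ fun h hh => ?_
  obtain ⟨i, -, rfl⟩ := List.mem_map.mp hh
  exact F_zero_STw hr h0 N c i

/-- the copies of `K` do not touch the ray `ℝ₊ e0` -/
theorem KT_near {r : E4 ≃ₗᵢ[ℝ] E4} (hr : Rf r) {K : E4 ≃ₜ E4} (h0 : K 0 = 0)
    (hK : Supp K (Cone 1)) {N : ℕ} (hN : 0 < N) (c : ℕ) :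
    ∀ x ∈ Cone (1 / 2), KT r K N c x = x := by
  intro x hx
  refine sum_list_fix_STw x _ fun h hh => ?_
  obtain ⟨i, -, rfl⟩ := List.mem_map.mp hh
  by_cases hxi : x ∈ PT r N c i '' Cone 1
  · obtain ⟨y, hy, rfl⟩ := hxi
    rw [PT_off hr hN c i hy hx, PT_zero_STw hr]
    exact F_zero_STw hr h0 N c i
  · exact hK.conj (PT r N c i) x hxi

/-- a product of quotients -/
private theorem prod_div_STw {G : Type*} [Group G] (f g : ℕ → G) (l : List ℕ) (hl : l.Nodup)
    (hf : ∀ i ∈ l, ∀ j ∈ l, i ≠ j → Commute (g i) (f j))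
    (hg : ∀ i ∈ l, ∀ j ∈ l, i ≠ j → Commute (g i) (g j)) :
    (l.map f).prod * (l.map g).prod⁻¹ = (l.map fun j => f j * (g j)⁻¹).prod := by
  induction l with
  | nil => simp
  | cons a l ih =>
    rw [List.nodup_cons] at hl
    have ih' := ih hl.2 (fun i hi j hj => hf i (List.mem_cons_of_mem _ hi) j
      (List.mem_cons_of_mem _ hj)) (fun i hi j hj => hg i (List.mem_cons_of_mem _ hi) j
      (List.mem_cons_of_mem _ hj))
    have hcomm : Commute (g a) ((l.map fun j => f j * (g j)⁻¹).prod) := by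
      refine Commute.list_prod_right _ _ fun h hh => ?_
      obtain ⟨j, hj, rfl⟩ := List.mem_map.mp hh
      have haj : a ≠ j := fun h => hl.1 (h ▸ hj)
      exact (hf a List.mem_cons_self j (List.mem_cons_of_mem _ hj) haj).mul_right
        (hg a List.mem_cons_self j (List.mem_cons_of_mem _ hj) haj).inv_right
    rw [List.map_cons, List.map_cons, List.map_cons, List.prod_cons, List.prod_cons,
      List.prod_cons, mul_inv_rev, mul_assoc (f a), ← mul_assoc _ _ (g a)⁻¹, ih',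
      mul_assoc (f a), hcomm.symm.inv_right.eq]

/-- the key formula -/
theorem VT_eq {r : E4 ≃ₗᵢ[ℝ] E4} (hr : Rf r) {K : E4 ≃ₜ E4} (h0 : K 0 = 0)
    (hK : Supp K (Cone 1)) {n : ℕ} (hn : Odd n) {c : ℕ} (hc : 0 < c) :
    VT r K n c = ((List.range c).map fun j => PT r (n * c) c j *
      (K * tauL r * K⁻¹ * (tauL r)⁻¹) * (PT r (n * c) c j)⁻¹).prod * ZT r n := by
  obtain ⟨m, rfl⟩ : ∃ m, n = m + 1 := ⟨n - 1, by have := hn.pos; omega⟩
  have hNpos : 0 < (m + 1) * c := Nat.mul_pos (Nat.succ_pos _) hc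
  have hNm : (m + 1) * c = c + m * c := by ring
  set n := m + 1 with hn'
  set N := n * c with hN
  set L := ZT r n with hL
  let F : ℕ → (E4 ≃ₜ E4) := fun i => PT r N c i * K * (PT r N c i)⁻¹
  set A := ((List.range c).map F).prod with hA
  set Q := ((List.range (m * c)).map fun i => F (i + c)).prod with hQ
  set B := ((List.range c).map fun i => F (N + i)).prod with hB
  have hP : KT r K N c = A * Q := by
    have h1 : KT r K N c = ((List.range N).map F).prod := rfl
    rw [h1, hNm, List.range_add, List.map_append, List.prod_append, List.map_map]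
    congr 2
    refine List.map_congr_left fun i _ => ?_
    show F (c + i) = F (i + c)
    rw [Nat.add_comm]
  have hF : ∀ i, L * F i * L⁻¹ = F (i + c) := by
    intro i
    change L * (PT r N c i * K * (PT r N c i)⁻¹) * L⁻¹ =
      PT r N c (i + c) * K * (PT r N c (i + c))⁻¹
    have hz : L * PT r N c i = PT r N c (i + c) := ZT_PT hr hc i (Nat.succ_pos m)
    rw [← hz, mul_inv_rev]
    group
  have hLP : L * KT r K N c * L⁻¹ = Q * B := by
    have h1 : ∀ l : List ℕ, L * (l.map F).prod * L⁻¹ = (l.map fun i => F (i + c)).prod := by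
      intro l
      induction l with
      | nil => simp
      | cons a l ih =>
        rw [List.map_cons, List.prod_cons, List.map_cons, List.prod_cons, ← ih, ← hF a]
        group
    have h2 : KT r K N c = ((List.range N).map F).prod := rfl
    have h3 : N = m * c + c := by rw [hN, hn']; ring
    have h4 : ((List.range N).map fun i => F (i + c)) =
        ((List.range (m * c)).map fun i => F (i + c)) ++
          ((List.range c).map fun i => F (N + i)) := by
      conv_lhs => rw [h3, List.range_add, List.map_append, List.map_map]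
      congr 1
      refine List.map_congr_left fun i _ => ?_
      show F (m * c + i + c) = F (N + i)
      rw [h3]
      congr 1
      omega
    rw [h2, h1, h4, List.prod_append]
  have hFG : ∀ j, j < c → F (N + j) = PT r N c j * (tauL r * K * (tauL r)⁻¹) *
      (PT r N c j)⁻¹ := by
    intro j hj
    change PT r N c (N + j) * K * (PT r N c (N + j))⁻¹ = _
    rw [hN, PT_wrap hr hn hj, ← (PT_pr hr _ _ _).comm, mul_inv_rev]
    group
  have hsupF : ∀ k, Supp (F k) (PT r N c k '' Cone 1) := fun k => hK.conj (PT r N c k)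
  have hsupG : ∀ j, j < c → Supp (F (N + j)) (PT r N c j '' Cone 1) := by
    intro j hj
    rw [hFG j hj]
    refine Supp.conj ?_ _
    refine (hK.conj (tauL r)).mono ?_
    rintro _ ⟨y, hy, rfl⟩
    exact Cone_smul (by norm_num) (hr.mem_Cone hy)
  have hF0 : ∀ k, F k 0 = 0 := fun k => F_zero_STw hr h0 N c k
  have hdis : ∀ k l, k < N → l < N → k ≠ l → ∀ x, x ∈ PT r N c k '' Cone 1 →
      x ∈ PT r N c l '' Cone 1 → x = 0 := by
    rintro k l hk hl hkl _ ⟨y, hy, rfl⟩ ⟨z, hz, hyz⟩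
    rw [PT_disjoint hr hNpos c c hk hl hkl hy hz hyz.symm, PT_zero_STw hr]
  have hcN : c ≤ N := by
    have h1 : N = c + m * c := hNm
    omega
  have hcommGF : ∀ i j, i < c → j < N → i ≠ j → Commute (F (N + i)) (F j) := by
    intro i j hi hj hij
    exact (hsupG i hi).commute (hsupF j) (hF0 _) (hF0 _) (hdis i j (by omega) hj hij)
  have hcommGG : ∀ i j, i < c → j < c → i ≠ j → Commute (F (N + i)) (F (N + j)) := by
    intro i j hi hj hij
    exact (hsupG i hi).commute (hsupG j hj) (hF0 _) (hF0 _)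
      (hdis i j (by omega) (by omega) hij)
  have hcommBQ : Commute B Q := by
    rw [hB, hQ]
    refine Commute.list_prod_left _ _ fun g hg => Commute.list_prod_right _ _ fun h hh => ?_
    obtain ⟨i, hi, rfl⟩ := List.mem_map.mp hg
    obtain ⟨j, hj, rfl⟩ := List.mem_map.mp hh
    have hi' := List.mem_range.mp hi
    have hj' := List.mem_range.mp hj
    have h1 : N = c + m * c := hNm
    exact hcommGF i (j + c) hi' (by omega) (by omega)
  have h3 : VT r K n c = KT r K N c * (L * KT r K N c * L⁻¹)⁻¹ * L := by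
    unfold VT
    rw [← hL, ← hN]
    group
  rw [h3, hLP, hP, mul_inv_rev]
  have h4 : A * Q * (B⁻¹ * Q⁻¹) = A * B⁻¹ := by
    have h5 : Q * B⁻¹ = B⁻¹ * Q := hcommBQ.symm.inv_right.eq
    rw [mul_assoc, ← mul_assoc Q, h5, mul_assoc B⁻¹, mul_inv_cancel, mul_one]
  rw [h4, hA, hB, prod_div_STw F (fun i => F (N + i)) _ List.nodup_range
    (fun i hi j hj hij => hcommGF i j (List.mem_range.mp hi)
      ((List.mem_range.mp hj).trans_le hcN) hij)
    (fun i hi j hj hij => hcommGG i j (List.mem_range.mp hi) (List.mem_range.mp hj) hij)]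
  congr 2
  refine List.map_congr_left fun j hj => ?_
  show F j * (F (N + j))⁻¹ = _
  rw [hFG j (List.mem_range.mp hj)]
  change PT r N c j * K * (PT r N c j)⁻¹ *
    (PT r N c j * (tauL r * K * (tauL r)⁻¹) * (PT r N c j)⁻¹)⁻¹ = _
  group

/-- `V` is topologically the linear contraction, smoothly so near the ray -/
theorem VT_good {r : E4 ≃ₗᵢ[ℝ] E4} (hr : Rf r) {K : E4 ≃ₜ E4} (h0 : K 0 = 0)
    (hK : Supp K (Cone 1)) {n : ℕ} (hn : Odd n) {c : ℕ} (hc : 0 < c) :
    ∃ T : E4 ≃ₜ E4, GoodR r (VT r K n c) T := by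
  obtain ⟨T, hT, hTc, hTe, hTr⟩ := tn_mk_STw n hn.pos
  have hNpos : 0 < n * c := Nat.mul_pos hn.pos hc
  have hnear := KT_near hr h0 hK hNpos c
  have hinv : ∀ x ∈ Cone (1 / 2), ((KT r K (n * c) c)⁻¹ : E4 ≃ₜ E4) x = x := fun x hx =>
    (KT r K (n * c) c).injective (by rw [apply_inv_self', hnear x hx])
  have hTZ : T * ZT r n = tauL r * T := by
    have h1 : T * ZT r n = (T * lamH (1 / n)) * linH r := by
      unfold ZT
      group
    rw [h1, hTc]
    refine Homeomorph.ext fun x => ?_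
    rw [mul_apply', mul_apply', mul_apply', linH_apply, hTr r hr, tauL_apply, tau_apply]
  refine ⟨T * (KT r K (n * c) c)⁻¹, ?_, ?_, ?_⟩
  · rw [mul_apply', inv_zero_STw (KT_zero hr h0 _ _), hT.1]
  · unfold VT
    have h1 : T * (KT r K (n * c) c)⁻¹ * (KT r K (n * c) c * ZT r n *
        (KT r K (n * c) c)⁻¹) = (T * ZT r n) * (KT r K (n * c) c)⁻¹ := by group
    rw [h1, hTZ, mul_assoc]
  · intro t ht
    set s : ℝ := t ^ (1 / (n : ℝ)) with hs
    have hs0 : 0 < s := Real.rpow_pos_of_pos ht _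
    have hsn : s ^ n = t := by
      rw [hs, one_div]
      exact Real.rpow_inv_natCast_pow ht.le hn.pos.ne'
    have hpt : ((T * (KT r K (n * c) c)⁻¹)⁻¹ : E4 ≃ₜ E4) (t • e0) = s • e0 := by
      rw [mul_inv_rev, inv_inv, mul_apply']
      have h1 : (T⁻¹ : E4 ≃ₜ E4) (t • e0) = s • e0 :=
        T.injective (by rw [apply_inv_self', hTe s hs0, hsn])
      rw [h1]
      exact hnear _ (smul_e0_mem_Cone (by norm_num) hs0.le)
    rw [hpt]
    have hne : s • e0 ≠ 0 := by
      intro h1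
      have h2 := congrArg norm h1
      rw [norm_smul, norm_e0, norm_zero, mul_one, Real.norm_eq_abs, abs_of_pos hs0] at h2
      exact hs0.ne' h2
    have hreg := hT.reg hne
    have hev : ∀ᶠ y in 𝓝 (s • e0), ∀ᶠ z in 𝓝 y,
        (T * (KT r K (n * c) c)⁻¹ : E4 ≃ₜ E4) z = T z := by
      rw [eventually_eventually_nhds]
      filter_upwards [Cone_mem_nhds (δ := 1 / 2) (by norm_num) hs0] with z hz
      rw [mul_apply', hinv z hz]
    filter_upwards [hreg, hev] with y hy1 hy2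
    have h3 : ((T * (KT r K (n * c) c)⁻¹ : E4 ≃ₜ E4) : E4 → E4) =ᶠ[𝓝 y] T := hy2
    exact ⟨hy1.1.congr_of_eventuallyEq h3, by rw [h3.fderiv_eq]; exact hy1.2⟩

end Pool.Agent.HopfTw
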