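import Pool.Agent.HopfTw.Rearr
import Pool.Agent.HopfTw.Sum
import Pool.Agent.HopfTw.Extend
import Pool.Agent.HopfFin.Remove

/-!
# The removal lemma

Plan. Let `N = n * (2 * d)`, `ψ` from `rearrange_r`. Then `ψ * KT r K (N+1) 1 * ψ⁻¹ = KT r K N
(2*d) * K_C` with `K_C = C * K * C⁻¹`, `C` from `cen_mk` (for each factor both sides are supported
in the image of `Cone 1` and agree there; the factors commute, and `sgm` permutes `{k < N}`:
`List.Perm.prod_eq'` or a product over a `Finset`). The rest is the proof in `HopfFin/Remove.lean`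
with `tau` replaced by `tauL r` and `extend_germ` by `extend_germ_r` (near the ray `YT r K N (2*d)
= tauL r` by `KT_near`).
-/

set_option autoImplicit false

open scoped ContDiff Topology
open Set Filter Metric

namespace Pool.Agent.HopfTw

open Pool.Agent.HopfCov hiding pr
open Pool.Agent.HopfFin

/-- the copy of `K` in a placement depends only on the placement of `Cone 1` -/
private theorem removeR_conj {K : E4 ≃ₜ E4} (hK : Supp K (Cone 1)) {ψ P' P : E4 ≃ₜ E4}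
    (h : ∀ x ∈ Cone 1, ψ (P' x) = P x) :
    ψ * (P' * K * P'⁻¹) * ψ⁻¹ = P * K * P⁻¹ := by
  obtain ⟨Q, hQ⟩ : ∃ Q : E4 ≃ₜ E4, Q = ψ * P' := ⟨_, rfl⟩
  have hQP : ∀ x ∈ Cone 1, Q x = P x := by
    intro x hx
    rw [hQ, mul_apply']
    exact h x hx
  have e : ψ * (P' * K * P'⁻¹) * ψ⁻¹ = Q * K * Q⁻¹ := by
    rw [hQ]
    group
  rw [e]
  refine Homeomorph.ext fun y => ?_
  rw [mul_apply', mul_apply', mul_apply', mul_apply']
  by_cases hx : (P⁻¹ : E4 ≃ₜ E4) y ∈ Cone 1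
  · have h1 : (Q⁻¹ : E4 ≃ₜ E4) y = (P⁻¹ : E4 ≃ₜ E4) y := by
      apply Q.injective
      rw [apply_inv_self', hQP _ hx, apply_inv_self']
    rw [h1]
    exact hQP _ (hK.mem hx)
  · have h2 : (Q⁻¹ : E4 ≃ₜ E4) y ∉ Cone 1 := by
      intro h3
      apply hx
      have h4 := hQP _ h3
      rw [apply_inv_self'] at h4
      have h5 : (P⁻¹ : E4 ≃ₜ E4) y = (Q⁻¹ : E4 ≃ₜ E4) y := by
        apply P.injective
        rw [apply_inv_self', ← h4]
      rw [h5]
      exact h3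
    rw [hK _ hx, hK _ h2, apply_inv_self', apply_inv_self']

/-- the conjugation of the standard sum to `tauL r` can be taken to be the identity near the
ray -/
private theorem removeR_kappa {r : E4 ≃ₗᵢ[ℝ] E4} (hr : Rf r) {K : E4 ≃ₜ E4} (h0 : K 0 = 0)
    (hK : Supp K (Cone 1)) {N c : ℕ} (hN : 0 < N) (h : Cj (YT r K N c) (tauL r)) :
    ∃ κ : E4 ≃ₜ E4, Sm κ ∧ AgreeNear κ id ∧ YT r K N c = κ * tauL r * κ⁻¹ := by
  obtain ⟨φ, hφ, hφH⟩ := h
  have hne : ∀ t : ℝ, 0 < t → t • e0 ≠ 0 := by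
    intro t ht h1
    rcases smul_eq_zero.1 h1 with h2 | h2
    · exact ht.ne' h2
    · have h3 := norm_e0
      rw [h2, norm_zero] at h3
      exact zero_ne_one h3
  have hHt : ∀ x ∈ Cone (1 / 2), YT r K N c x = (2⁻¹ : ℝ) • r x := by
    intro x hx
    have h1 : ((KT r K N c)⁻¹ : E4 ≃ₜ E4) x = x := by
      apply (KT r K N c).injective
      rw [apply_inv_self', KT_near hr h0 hK hN c x hx]
    have h2 : tauL r x = (2⁻¹ : ℝ) • r x := rfl
    unfold YT
    rw [mul_apply', mul_apply', h1, h2]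
    exact KT_near hr h0 hK hN c _ (Cone_smul (by norm_num) (hr.mem_Cone hx))
  have he : EqvR r φ := by
    refine ⟨1 / 2, by norm_num, fun x hx => ?_⟩
    rw [← hHt x hx]
    have h1 := DFunLike.congr_fun hφH x
    rw [mul_apply', mul_apply'] at h1
    exact h1
  obtain ⟨ψ, hψ, hag⟩ := extend_germ_r hr φ (fun t ht => hφ.reg (hne t ht)) he (by
    intro s t hs ht hst
    have h1 : s • e0 = t • e0 := φ.injective hst
    have h2 : (s - t) • e0 = 0 := by rw [sub_smul, h1, sub_self]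
    rcases smul_eq_zero.1 h2 with h3 | h3
    · exact sub_eq_zero.1 h3
    · have h4 := norm_e0
      rw [h3, norm_zero] at h4
      exact absurd h4 zero_ne_one)
  obtain ⟨δ, hδ, hag⟩ := hag
  refine ⟨φ⁻¹ * ψ, hφ.inv.mul hψ.sm, ⟨δ, hδ, fun x hx => ?_⟩, ?_⟩
  · rw [mul_apply', hag x hx, inv_apply_self']
    rfl
  · have h1 : YT r K N c = φ⁻¹ * (tauL r * φ) := by
      rw [← hφH, inv_mul_cancel_left]
    have h2 : ψ * tauL r * ψ⁻¹ = tauL r := by
      rw [hψ.comm, mul_inv_cancel_right]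
    calc YT r K N c = φ⁻¹ * (tauL r * φ) := h1
      _ = φ⁻¹ * ((ψ * tauL r * ψ⁻¹) * φ) := by rw [h2]
      _ = φ⁻¹ * ψ * tauL r * (φ⁻¹ * ψ)⁻¹ := by group

/-- a product of commuting factors over the permuted indices -/
private theorem removeR_perm {r : E4 ≃ₗᵢ[ℝ] E4} (hr : Rf r) {K : E4 ≃ₜ E4} (h0 : K 0 = 0)
    (hK : Supp K (Cone 1)) {n d : ℕ} (hn : 0 < n) (hd : 0 < d) (c : ℕ) :
    ((List.range (n * (2 * d))).map fun k => PT r (n * (2 * d)) c (sgm d k) * K *
      (PT r (n * (2 * d)) c (sgm d k))⁻¹).prod = KT r K (n * (2 * d)) c := by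
  have hN : 0 < n * (2 * d) := by positivity
  set N := n * (2 * d) with hNd
  obtain ⟨F, hF⟩ : ∃ F : ℕ → (E4 ≃ₜ E4), ∀ k, F k = PT r N c k * K * (PT r N c k)⁻¹ :=
    ⟨fun k => PT r N c k * K * (PT r N c k)⁻¹, fun _ => rfl⟩
  have h00 : ∀ k, F k 0 = 0 := by
    intro k
    rw [hF, mul_apply', mul_apply', (PT_pr hr N c k).inv.sm.1, h0, (PT_pr hr N c k).sm.1]
  have hc : ∀ k l, k < N → l < N → Commute (F k) (F l) := by
    intro k l hk hl
    by_cases hkl : k = l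
    · rw [hkl]
    have h1 : Supp (F k) (PT r N c k '' Cone 1) := by
      rw [hF]
      exact hK.conj _
    have h2 : Supp (F l) (PT r N c l '' Cone 1) := by
      rw [hF]
      exact hK.conj _
    refine h1.commute h2 (h00 k) (h00 l) ?_
    rintro z ⟨x, hx, rfl⟩ ⟨y, hy, hxy⟩
    rw [PT_disjoint hr hN c c hk hl hkl hx hy hxy.symm, (PT_pr hr N c k).sm.1]
  have hinj : Function.Injective (sgm d) := fun a b hab => by
    rw [← sgm_sgm hd a, hab, sgm_sgm hd b]
  have hperm : ((List.range N).map (sgm d)).Perm (List.range N) := by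
    rw [List.perm_ext_iff_of_nodup (List.nodup_range.map hinj) List.nodup_range]
    intro a
    rw [List.mem_map, List.mem_range]
    constructor
    · rintro ⟨k, hk, rfl⟩
      exact sgm_lt hd (List.mem_range.1 hk)
    · intro ha
      exact ⟨sgm d a, List.mem_range.2 (sgm_lt hd ha), sgm_sgm hd a⟩
  have h1 : KT r K N c = ((List.range N).map F).prod := by
    unfold KT
    congr 1
    exact List.map_congr_left fun k _ => (hF k).symm
  have h2 : (fun k => PT r N c (sgm d k) * K * (PT r N c (sgm d k))⁻¹) = F ∘ sgm d := by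
    funext k
    rw [Function.comp_apply, hF]
  rw [h1, h2, ← List.map_map]
  refine (hperm.map F).prod_eq' ?_
  refine List.pairwise_of_forall_mem_list ?_
  intro a ha b hb
  obtain ⟨k, hk, rfl⟩ := List.mem_map.1 ha
  obtain ⟨l, hl, rfl⟩ := List.mem_map.1 hb
  exact hc k l (List.mem_range.1 (hperm.mem_iff.1 hk)) (List.mem_range.1 (hperm.mem_iff.1 hl))

/-- **the removal lemma** -/
theorem removal_r {r : E4 ≃ₗᵢ[ℝ] E4} (hr : Rf r) {K : E4 ≃ₜ E4} (h0 : K 0 = 0)
    (hK : Supp K (Cone 1)) {n d : ℕ} (hn : 0 < n) (hd : 0 < d)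
    (h : Cj (YT r K (n * (2 * d)) (2 * d)) (tauL r)) :
    Cj (YT r K (n * (2 * d) + 1) 1) (K * tauL r * K⁻¹) := by
  have hN : 0 < n * (2 * d) := by positivity
  obtain ⟨κ, hκ, hκn, hκH⟩ := removeR_kappa hr h0 hK hN h
  obtain ⟨δ, hδ, hκδ⟩ := hκn
  have hρ : 0 < min (1 / 8) δ := lt_min (by norm_num) hδ
  have hρ' : min (1 / 8) δ ≤ 1 / 8 := min_le_left _ _
  have hρδ : min (1 / 8) δ ≤ δ := min_le_right _ _
  generalize min (1 / 8) δ = ρ at hρ hρ' hρδ
  obtain ⟨ψ, hψ, hψ1, hψ2⟩ := rearrange_r hr hn hd hρ hρ'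
  obtain ⟨C, hC, hCL⟩ := cen_mk hρ.ne'
  have hCr : Pr r C := by
    refine Pr_of_Pz hC fun x => ?_
    rw [hCL, hCL, cenL_apply, cenL_apply, hr.apply_zero, hr.pr, map_add, map_smul, map_smul,
      hr.fix0]
  -- the central copy
  obtain ⟨b, hb⟩ : ∃ b : E4 ≃ₜ E4, b = C * K * C⁻¹ := ⟨_, rfl⟩
  have hbS : Supp b (Cone ρ) := by
    rw [hb]
    refine (hK.conj C).mono ?_
    rintro _ ⟨x, hx, rfl⟩
    rw [hCL]
    exact cenL_mem hρ hx
  have hC0 : (C⁻¹ : E4 ≃ₜ E4) 0 = 0 := hC.inv.sm.1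
  have hb0 : b 0 = 0 := by
    rw [hb, mul_apply', mul_apply', hC0, h0, hC.sm.1]
  -- conjugation by `ψ`
  have hψKK : ψ * KT r K (n * (2 * d) + 1) 1 * ψ⁻¹ = KT r K (n * (2 * d)) (2 * d) * b := by
    have h1 : KT r K (n * (2 * d) + 1) 1 =
        ((List.range (n * (2 * d))).map fun i => PT r (n * (2 * d) + 1) 1 i * K *
          (PT r (n * (2 * d) + 1) 1 i)⁻¹).prod *
          (PT r (n * (2 * d) + 1) 1 (n * (2 * d)) * K *
            (PT r (n * (2 * d) + 1) 1 (n * (2 * d)))⁻¹) := by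
      unfold KT
      rw [List.range_succ, List.map_append, List.prod_append]
      simp
    have h2 : ψ * (PT r (n * (2 * d) + 1) 1 (n * (2 * d)) * K *
        (PT r (n * (2 * d) + 1) 1 (n * (2 * d)))⁻¹) * ψ⁻¹ = b := by
      rw [hb]
      exact removeR_conj hK fun x hx => by rw [hψ2 x hx, hCL]
    have h3 : ψ * ((List.range (n * (2 * d))).map fun i => PT r (n * (2 * d) + 1) 1 i * K *
          (PT r (n * (2 * d) + 1) 1 i)⁻¹).prod * ψ⁻¹ = KT r K (n * (2 * d)) (2 * d) := by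
      rw [← removeR_perm hr h0 hK hn hd (2 * d), ← MulAut.conj_apply, map_list_prod,
        List.map_map]
      congr 1
      refine List.map_congr_left fun i hi => ?_
      rw [Function.comp_apply, MulAut.conj_apply]
      exact removeR_conj hK (hψ1 i (List.mem_range.1 hi))
    rw [h1, ← h2, ← h3]
    group
  have hψt : ψ * tauL r * ψ⁻¹ = tauL r := by
    rw [hψ.comm, mul_inv_cancel_right]
  have hCt : C⁻¹ * tauL r * C = tauL r := by
    rw [mul_assoc, ← hCr.comm, inv_mul_cancel_left]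
  -- commutation
  have hab : KT r K (n * (2 * d)) (2 * d) * b = b * KT r K (n * (2 * d)) (2 * d) := by
    have h1 : Supp (KT r K (n * (2 * d)) (2 * d)) (Cone (1 / 2))ᶜ :=
      fun x hx => KT_near hr h0 hK hN _ x (not_not.1 hx)
    refine (h1.commute hbS (KT_zero hr h0 _ _) hb0 fun x hx hx' => ?_).eq
    exact absurd (Cone_mono hρ (by linarith) hx') hx
  have hkb : κ * b = b * κ := by
    have h1 : Supp κ (Cone δ)ᶜ := fun x hx => hκδ x (not_not.1 hx)
    refine (h1.commute hbS hκ.1 hb0 fun x hx hx' => ?_).eq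
    exact absurd (Cone_mono hρ hρδ hx') hx
  have e1 : ψ * YT r K (n * (2 * d) + 1) 1 * ψ⁻¹ = κ * (b * tauL r * b⁻¹) * κ⁻¹ := by
    calc ψ * YT r K (n * (2 * d) + 1) 1 * ψ⁻¹
        = (ψ * KT r K (n * (2 * d) + 1) 1 * ψ⁻¹) * (ψ * tauL r * ψ⁻¹) *
            (ψ * KT r K (n * (2 * d) + 1) 1 * ψ⁻¹)⁻¹ := by
          unfold YT
          group
      _ = (b * KT r K (n * (2 * d)) (2 * d)) * tauL r *
            (b * KT r K (n * (2 * d)) (2 * d))⁻¹ := by rw [hψKK, hψt, hab]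
      _ = b * YT r K (n * (2 * d)) (2 * d) * b⁻¹ := by
          unfold YT
          group
      _ = b * (κ * tauL r * κ⁻¹) * b⁻¹ := by rw [hκH]
      _ = (b * κ) * tauL r * (b * κ)⁻¹ := by group
      _ = (κ * b) * tauL r * (κ * b)⁻¹ := by rw [hkb]
      _ = κ * (b * tauL r * b⁻¹) * κ⁻¹ := by group
  have e2 : b * tauL r * b⁻¹ = C * (K * tauL r * K⁻¹) * C⁻¹ := by
    calc b * tauL r * b⁻¹ = C * (K * (C⁻¹ * tauL r * C) * K⁻¹) * C⁻¹ := by
          rw [hb]
          group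
      _ = C * (K * tauL r * K⁻¹) * C⁻¹ := by rw [hCt]
  have s1 : Cj (YT r K (n * (2 * d) + 1) 1) (ψ * YT r K (n * (2 * d) + 1) 1 * ψ⁻¹) :=
    Cj_conj _ hψ.sm
  have s2 : Cj (b * tauL r * b⁻¹) (κ * (b * tauL r * b⁻¹) * κ⁻¹) := Cj_conj _ hκ
  have s3 : Cj (K * tauL r * K⁻¹) (C * (K * tauL r * K⁻¹) * C⁻¹) := Cj_conj _ hC.sm
  rw [e1] at s1
  rw [← e2] at s3
  exact s1.trans (s2.symm.trans s3.symm)

end Pool.Agent.HopfTw
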