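import Pool.Agent.HopfTw.Norm
import Pool.Agent.HopfTw.Remove
import Pool.Agent.HopfTw.Class

/-!
# The theorem on the level of punctured diffeomorphisms, orientation reversing case
-/

set_option autoImplicit false

open scoped ContDiff Topology
open Set Filter Metric

namespace Pool.Agent.HopfTw

open Pool.Agent.HopfCov
open Pool.Agent.HopfFin hiding pr

/-- **The theorem for generators.** Plan (compare `main_G` in `HopfFin/Level.lean`). `G` is in `PD
(-1)` and a contraction (`GoodR.PD`, `GoodR.contr`); let `ξ = chi G`. CASE 1: `ξ ^ k ≠ 1` for all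
`k > 0`. Take `V k = G ^ (2 * k + 1)` (`GoodR.pow`); `chi (V k) = ξ ^ (2 * k + 1)` (`chi_pow`) and
`chi_CjV` show that they are pairwise not `CjV`. CASE 2: `ξ ^ d = 1`, `d > 0`. By `Ext_of_chi_pow`
the powers `G ^ (2 * d * k)` are extendable, by `Off_pow` some of them with `k > 0` is `Off`, so
`Cj (G ^ m) tau` for an even `m > 0` (`std_of_Off`); normal form `κ G κ⁻¹ = K * tauL r3 * K⁻¹`
(`normal_form_r`), with the same class `ξ` and not `Off`. For odd `n`: EITHER `(VT r3 K n (2 * d))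
^ n = YT r3 K (n * (2 * d)) (2 * d)` is not `Off`, OR it is `Off`, its class is `ξ ^ (2 * d * n) =
1` (`chi_VT`, `chi_pow`), so it is conjugate to `tauL r3` (`std_of_Off_neg`) and by `removal_r`
the element `YT r3 K (N + 1) 1 = (VT r3 K (N + 1) 1) ^ (N + 1)`, `N = n * (2 * d)` (so `N + 1` is
odd), is conjugate to `K * tauL r3 * K⁻¹`, hence not `Off`. In both cases there are a good `V` and
an odd exponent `e ≥ n` with `V ^ e` not `Off`. Since for each `V` all large powers are `Off`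
(`Off_pow`), one can choose a sequence recursively: `V (k+1)` with `V (k+1) ^ e` not `Off` for an
`e` such that `V j ^ e` is `Off` for all `j ≤ k`; by `CjV.off` the elements of the sequence are
pairwise not `CjV`. -/
theorem main_G_neg {G T : E4 ≃ₜ E4} (hG : Sm G) (hT : GoodR r3 G T) (hO : ¬ Off G) :
    ∃ V : ℕ → (E4 ≃ₜ E4), (∀ k, PD (-1) (V k) ∧ ∃ T' : E4 ≃ₜ E4, GoodR r3 (V k) T') ∧
      ∀ i j, i ≠ j → ¬ CjV (V i) (V j) := by
  have hPD : PD (-1) G := GoodR.PD hG hT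
  have hc : Contr G := hT.contr Rf_r3
  by_cases hA : ∀ k : ℕ, 0 < k → chi G hPD ^ k ≠ 1
  · have hkey : ∀ i j : ℕ, i < j → ¬ CjV (G ^ (2 * i + 1)) (G ^ (2 * j + 1)) := by
      intro i j hij h
      have h1 := chi_CjV h (hc.pow (Nat.succ_pos _)) (hc.pow (Nat.succ_pos _))
        (hPD.pow_odd (odd_two_mul_add_one i)) (hPD.pow_odd (odd_two_mul_add_one j))
      rw [chi_pow hPD (odd_two_mul_add_one j), chi_pow hPD (odd_two_mul_add_one i)] at h1
      refine hA (2 * j + 1 - (2 * i + 1)) (by omega) ?_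
      have h2 : chi G hPD ^ (2 * j + 1 - (2 * i + 1)) * chi G hPD ^ (2 * i + 1) =
          1 * chi G hPD ^ (2 * i + 1) := by
        rw [← pow_add, Nat.sub_add_cancel (by omega), one_mul, h1]
      exact mul_right_cancel h2
    refine ⟨fun k => G ^ (2 * k + 1), fun k => ⟨hPD.pow_odd (odd_two_mul_add_one k),
      hT.pow Rf_r3 (odd_two_mul_add_one k)⟩, fun i j hij hcon => ?_⟩
    rcases lt_or_gt_of_ne hij with h | h
    · exact hkey i j h hcon
    · exact hkey j i h hcon.symm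
  · push Not at hA
    obtain ⟨d, hd, hdx⟩ := hA
    obtain ⟨m₀, hm₀⟩ := Off_pow hc
    have hm : 0 < 2 * d * (m₀ + 1) := by positivity
    have hMm : m₀ ≤ 2 * d * (m₀ + 1) := by nlinarith
    have hE : Ext (G ^ (2 * d * (m₀ + 1))) := Ext_of_chi_pow hPD hdx (Dvd.intro _ rfl)
    have hev : Even (2 * d * (m₀ + 1)) := ⟨d * (m₀ + 1), by ring⟩
    obtain ⟨φ, hφ, hφm⟩ := std_of_Off (hPD.pow_even hev) (hc.pow hm) (hm₀ _ hMm) hE
    obtain ⟨κ, K, hκ, h0, hK, hκK⟩ := normal_form_r Rf_r3 hT hm hev hφ hφm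
    have hcj : Cj G (K * tauL r3 * K⁻¹) := by
      rw [← hκK]
      exact Cj_conj G hκ
    have hg : PD (-1) (K * tauL r3 * K⁻¹) := PD_Cj hcj hPD
    have hgx : chi (K * tauL r3 * K⁻¹) hg ^ d = 1 := by
      rw [chi_Cj hcj hPD hg]
      exact hdx
    have hgO : ¬ Off (K * tauL r3 * K⁻¹) := fun h => hO ((Off.congr hcj).2 h)
    have hVc : ∀ n c : ℕ, Odd n → 0 < c → Contr (VT r3 K n c) := fun n c hn hc1 => by
      obtain ⟨T', hT'⟩ := VT_good Rf_r3 h0 hK hn hc1
      exact hT'.contr Rf_r3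
    -- arbitrarily large odd exponents with a power which is not `Off`
    have hlarge : ∀ N : ℕ, ∃ x : ℕ × ℕ × ℕ, N ≤ x.2.2 ∧ Odd x.1 ∧ 0 < x.2.1 ∧ 0 < x.2.2 ∧
        ¬ Off (VT r3 K x.1 x.2.1 ^ x.2.2) := by
      intro N
      have hn : Odd (2 * N + 1) := odd_two_mul_add_one N
      have hc2 : 0 < 2 * d := by omega
      by_cases h1 : Off (VT r3 K (2 * N + 1) (2 * d) ^ (2 * N + 1))
      · have hV : PD (-1) (VT r3 K (2 * N + 1) (2 * d)) := VT_PD h0 hK hg hn hc2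
        have hVn := hV.pow_odd hn
        have h2d : chi (K * tauL r3 * K⁻¹) hg ^ (2 * d) = 1 := by
          rw [mul_comm 2 d, pow_mul, hgx, one_pow]
        have h2 : chi (VT r3 K (2 * N + 1) (2 * d) ^ (2 * N + 1)) hVn = 1 := by
          rw [chi_pow hV hn, chi_VT h0 hK hg hn hc2, h2d, one_pow]
        have h3 := std_of_Off_neg hVn ((hVc _ _ hn hc2).pow (Nat.succ_pos _)) h1 h2
        rw [VT_pow Rf_r3 K hn] at h3
        have h4 := removal_r Rf_r3 h0 hK (Nat.succ_pos _) hd h3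
        have hodd : Odd ((2 * N + 1) * (2 * d) + 1) := ⟨(2 * N + 1) * d, by ring⟩
        refine ⟨((2 * N + 1) * (2 * d) + 1, 1, (2 * N + 1) * (2 * d) + 1), ?_, hodd,
          Nat.one_pos, Nat.succ_pos _, ?_⟩
        · show N ≤ (2 * N + 1) * (2 * d) + 1
          nlinarith
        · show ¬ Off (VT r3 K ((2 * N + 1) * (2 * d) + 1) 1 ^ ((2 * N + 1) * (2 * d) + 1))
          rw [VT_pow Rf_r3 K hodd, mul_one]
          exact fun h => hgO ((Off.congr h4).1 h)
      · exact ⟨(2 * N + 1, 2 * d, 2 * N + 1), by show N ≤ 2 * N + 1; omega, hn, hc2,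
          Nat.succ_pos _, h1⟩
    -- the sequence
    obtain ⟨f, hf1, hf2⟩ := exists_seq_of_forall_finset_exists
      (fun x : ℕ × ℕ × ℕ => Odd x.1 ∧ 0 < x.2.1 ∧ 0 < x.2.2 ∧
        ¬ Off (VT r3 K x.1 x.2.1 ^ x.2.2))
      (fun x y : ℕ × ℕ × ℕ => Off (VT r3 K x.1 x.2.1 ^ y.2.2)) (by
        intro s hs
        have hb : ∀ x ∈ s, ∃ b : ℕ, ∀ e ≥ b, Off (VT r3 K x.1 x.2.1 ^ e) := fun x hx =>
          Off_pow (hVc _ _ (hs x hx).1 (hs x hx).2.1)
        choose! b hb' using hb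
        obtain ⟨y, hy1, hy2⟩ := hlarge (s.sup b)
        exact ⟨y, hy2, fun x hx => hb' x hx _ (le_trans (Finset.le_sup hx) hy1)⟩)
    have hkey : ∀ i j : ℕ, i < j →
        ¬ CjV (VT r3 K (f i).1 (f i).2.1) (VT r3 K (f j).1 (f j).2.1) := fun i j hij hcon =>
      (hf1 j).2.2.2 (CjV.off (hVc _ _ (hf1 j).1 (hf1 j).2.1) (hVc _ _ (hf1 i).1 (hf1 i).2.1)
        hcon.symm (hf1 j).2.2.1 (hf2 i j hij))
    refine ⟨fun k => VT r3 K (f k).1 (f k).2.1, fun k =>
      ⟨VT_PD h0 hK hg (hf1 k).1 (hf1 k).2.1, VT_good Rf_r3 h0 hK (hf1 k).1 (hf1 k).2.1⟩,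
      fun i j hij hcon => ?_⟩
    rcases lt_or_gt_of_ne hij with h | h
    · exact hkey i j h hcon
    · exact hkey j i h hcon.symm

end Pool.Agent.HopfTw
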