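import Pool.Agent.HopfTw.NearId
import Pool.Agent.HopfFin.MultiPath

/-!
# Moving finitely many cones by paths of linear maps

Plan: the proof in `HopfFin/MultiPath.lean`, with the following changes. The sets
`S i = (A i s '' K i) ∩ sphere 0 1` are invariant under `r`; after `exists_cut` replace `f i` by
`x ↦ (f i x + f i (r x)) / 2`, which is invariant under `r` and has the same properties. Then
`u x = ∑ i, f i (x/‖x‖) • (A i t (A i s)⁻¹ x - x)` satisfies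
`u ((2⁻¹ : ℝ) • r x) = (2⁻¹ : ℝ) • r (u x)`; use `near_id_r`.
-/

set_option autoImplicit false

open scoped ContDiff Topology
open Set Filter Metric

namespace Pool.Agent.HopfTw

open Pool.Agent.HopfCov hiding pr
open Pool.Agent.HopfFin

/-- the differential of a function which is homogeneous of degree `0` -/
private theorem bound_MultiPathTw {f : E4 → ℝ} (hf : ContDiff ℝ ∞ f) (hf1 : ∀ x, 0 ≤ f x ∧ f x ≤ 1) :
    ∃ C : ℝ, 0 < C ∧ ∀ x : E4, x ≠ 0 →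
      ‖fderiv ℝ (fun y : E4 => f (‖y‖⁻¹ • y)) x‖ * ‖x‖ ≤ C := by
  have hs : ∀ x : E4, x ≠ 0 → ContDiffAt ℝ ∞ (fun y : E4 => f (‖y‖⁻¹ • y)) x := fun x hx =>
    hf.contDiffAt.comp x (contDiffAt_nrm hx)
  obtain ⟨C, hC, hCb⟩ := fderiv_bounded (fun y : E4 => f (‖y‖⁻¹ • y) • y)
    (fun x hx => (hs x hx).smul contDiffAt_id) (fun x => by
      show f (‖(2⁻¹ : ℝ) • x‖⁻¹ • ((2⁻¹ : ℝ) • x)) • ((2⁻¹ : ℝ) • x) = _
      rw [nrm_smul (by norm_num : (0 : ℝ) < 2⁻¹), smul_comm])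
  refine ⟨C + 1, by positivity, fun x hx => ?_⟩
  have hxp : 0 < ‖x‖ := norm_pos_iff.2 hx
  rw [← le_div_iff₀ hxp]
  refine ContinuousLinearMap.opNorm_le_bound _ (by positivity) fun y => ?_
  have hdf : DifferentiableAt ℝ (fun y : E4 => f (‖y‖⁻¹ • y)) x :=
    (hs x hx).differentiableAt (by simp)
  have h1 : fderiv ℝ (fun y : E4 => f (‖y‖⁻¹ • y) • y) x y =
      f (‖x‖⁻¹ • x) • y + (fderiv ℝ (fun y : E4 => f (‖y‖⁻¹ • y)) x y) • x := by
    rw [fderiv_fun_smul hdf differentiableAt_fun_id, fderiv_fun_id]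
    rfl
  have h2 : ‖fderiv ℝ (fun y : E4 => f (‖y‖⁻¹ • y) • y) x y‖ ≤ C * ‖y‖ :=
    (ContinuousLinearMap.le_opNorm _ _).trans (by gcongr; exact hCb x hx)
  have h3 : ‖f (‖x‖⁻¹ • x) • y‖ ≤ 1 * ‖y‖ := by
    rw [norm_smul, Real.norm_eq_abs, abs_of_nonneg (hf1 _).1]
    gcongr
    exact (hf1 _).2
  have h4 : ‖fderiv ℝ (fun y : E4 => f (‖y‖⁻¹ • y)) x y‖ * ‖x‖ ≤ (C + 1) * ‖y‖ := by
    rw [← norm_smul]
    have h5 : (fderiv ℝ (fun y : E4 => f (‖y‖⁻¹ • y)) x y) • x =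
        fderiv ℝ (fun y : E4 => f (‖y‖⁻¹ • y) • y) x y - f (‖x‖⁻¹ • x) • y := by
      rw [h1]; abel
    rw [h5]
    calc _ ≤ C * ‖y‖ + 1 * ‖y‖ := (norm_sub_le _ _).trans (add_le_add h2 h3)
      _ = (C + 1) * ‖y‖ := by ring
  rw [div_mul_eq_mul_div, le_div_iff₀ hxp]
  exact h4

/-- the differential of the product of such a function with a linear map -/
private theorem boundL_MultiPathTw {f : E4 → ℝ} (hf : ContDiff ℝ ∞ f) (hf1 : ∀ x, 0 ≤ f x ∧ f x ≤ 1) :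
    ∃ C : ℝ, 0 < C ∧ ∀ (L : E4 →L[ℝ] E4) (x : E4), x ≠ 0 →
      ‖fderiv ℝ (fun y : E4 => f (‖y‖⁻¹ • y) • L y) x‖ ≤ C * ‖L‖ := by
  obtain ⟨C, hC, hCb⟩ := bound_MultiPathTw hf hf1
  refine ⟨C + 1, by positivity, fun L x hx => ?_⟩
  have hs : ContDiffAt ℝ ∞ (fun y : E4 => f (‖y‖⁻¹ • y)) x :=
    hf.contDiffAt.comp x (contDiffAt_nrm hx)
  have hdf : DifferentiableAt ℝ (fun y : E4 => f (‖y‖⁻¹ • y)) x := hs.differentiableAt (by simp)
  refine ContinuousLinearMap.opNorm_le_bound _ (by positivity) fun y => ?_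
  have h1 : fderiv ℝ (fun y : E4 => f (‖y‖⁻¹ • y) • L y) x y =
      f (‖x‖⁻¹ • x) • L y + (fderiv ℝ (fun y : E4 => f (‖y‖⁻¹ • y)) x y) • L x := by
    rw [fderiv_fun_smul hdf L.differentiableAt, L.fderiv]
    rfl
  rw [h1]
  have h2 : ‖f (‖x‖⁻¹ • x) • L y‖ ≤ 1 * (‖L‖ * ‖y‖) := by
    rw [norm_smul, Real.norm_eq_abs, abs_of_nonneg (hf1 _).1]
    exact mul_le_mul (hf1 _).2 (L.le_opNorm y) (norm_nonneg _) zero_le_one
  have h3 : ‖(fderiv ℝ (fun y : E4 => f (‖y‖⁻¹ • y)) x y) • L x‖ ≤ C * (‖L‖ * ‖y‖) := by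
    rw [norm_smul]
    calc _ ≤ (‖fderiv ℝ (fun y : E4 => f (‖y‖⁻¹ • y)) x‖ * ‖y‖) * (‖L‖ * ‖x‖) :=
          mul_le_mul (ContinuousLinearMap.le_opNorm _ _) (L.le_opNorm x) (norm_nonneg _)
            (by positivity)
      _ = (‖fderiv ℝ (fun y : E4 => f (‖y‖⁻¹ • y)) x‖ * ‖x‖) * (‖L‖ * ‖y‖) := by ring
      _ ≤ C * (‖L‖ * ‖y‖) := by
          gcongr
          exact hCb x hx
  calc _ ≤ 1 * (‖L‖ * ‖y‖) + C * (‖L‖ * ‖y‖) := (norm_add_le _ _).trans (add_le_add h2 h3)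
    _ = (C + 1) * ‖L‖ * ‖y‖ := by ring

/-- the relation used in the proof of `multi_path_r` -/
private def RelTw (r : E4 ≃ₗᵢ[ℝ] E4) {ι : Type} (K : ι → Set E4) (A : ι → ℝ → (E4 →L[ℝ] E4))
    (s t : ℝ) : Prop :=
  ∃ ψ : E4 ≃ₜ E4, Pr r ψ ∧ ∀ i, ∀ x ∈ K i, ψ (A i s x) = A i t x

private theorem RelTw_symm {r : E4 ≃ₗᵢ[ℝ] E4} {ι : Type} {K : ι → Set E4}
    {A : ι → ℝ → (E4 →L[ℝ] E4)} {s t : ℝ} (h : RelTw r K A s t) : RelTw r K A t s := by
  obtain ⟨ψ, h1, h2⟩ := h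
  exact ⟨ψ⁻¹, h1.inv, fun i x hx => by rw [← h2 i x hx]; exact inv_apply_self' _ _⟩

private theorem RelTw_trans {r : E4 ≃ₗᵢ[ℝ] E4} {ι : Type} {K : ι → Set E4}
    {A : ι → ℝ → (E4 →L[ℝ] E4)} {q s t : ℝ}
    (h : RelTw r K A q s) (h' : RelTw r K A s t) : RelTw r K A q t := by
  obtain ⟨ψ, h1, h2⟩ := h
  obtain ⟨ψ', h1', h2'⟩ := h'
  exact ⟨ψ' * ψ, h1'.mul h1, fun i x hx => by rw [mul_apply', h2 i x hx, h2' i x hx]⟩

/-- averaging a cut-off over the identity and `r` -/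
private theorem cut_MultiPathTw {r : E4 ≃ₗᵢ[ℝ] E4} (hr : Rf r) {s t : Set E4} (hs : IsClosed s)
    (ht : IsClosed t) (hd : Disjoint s t) (hsr : ∀ x ∈ s, r x ∈ s) (htr : ∀ x ∈ t, r x ∈ t) :
    ∃ f : E4 → ℝ, ContDiff ℝ ∞ f ∧ (∀ x ∈ s, f x = 0) ∧ (∀ x ∈ t, f x = 1) ∧
      (∀ x, 0 ≤ f x ∧ f x ≤ 1) ∧ ∀ x, f (r x) = f x := by
  obtain ⟨f, h1, h2, h3, h4⟩ := exists_cut hs ht hd
  refine ⟨fun x => (f x + f (r x)) / 2, ?_, ?_, ?_, ?_, ?_⟩
  · have h5 : ContDiff ℝ ∞ (fun x => f (r x)) :=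
      h1.comp (r.toContinuousLinearEquiv : E4 ≃L[ℝ] E4).contDiff
    exact (h1.add h5).div_const 2
  · intro x hx
    simp only [h2 x hx, h2 _ (hsr x hx)]
    norm_num
  · intro x hx
    simp only [h3 x hx, h3 _ (htr x hx)]
    norm_num
  · intro x
    have h5 := h4 x
    have h6 := h4 (r x)
    constructor
    · show 0 ≤ (f x + f (r x)) / 2
      linarith [h5.1, h6.1]
    · show (f x + f (r x)) / 2 ≤ 1
      linarith [h5.2, h6.2]
  · intro x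
    show (f (r x) + f (r (r x))) / 2 = (f x + f (r x)) / 2
    rw [hr.sq, add_comm]

private theorem nhds_MultiPathTw {r : E4 ≃ₗᵢ[ℝ] E4} (hr : Rf r) {ι : Type} [Fintype ι]
    {K : ι → Set E4} (hK : ∀ i, IsClosed (K i))
    (hc : ∀ i, ∀ x ∈ K i, ∀ c : ℝ, 0 < c → c • x ∈ K i) (hKr : ∀ i, ∀ x ∈ K i, r x ∈ K i)
    {A : ι → ℝ → (E4 →L[ℝ] E4)} (hA : ∀ i, Continuous (A i)) (hdet : ∀ i t, (A i t).det ≠ 0)
    (hAr : ∀ i t x, A i t (r x) = r (A i t x))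
    {s : ℝ} (hdis : ∀ i j, i ≠ j → ∀ x ∈ K i, ∀ y ∈ K j, A i s x = A j s y → x = 0) :
    ∀ᶠ t in 𝓝 s, RelTw r K A s t := by
  classical
  set B : ι → (E4 ≃L[ℝ] E4) := fun i => (A i s).toContinuousLinearEquivOfDetNeZero (hdet i s)
    with hB
  have hBA : ∀ i x, B i x = A i s x := fun i x => by
    have := ContinuousLinearMap.coe_toContinuousLinearEquivOfDetNeZero (A i s) (hdet i s)
    rw [hB]
    exact DFunLike.congr_fun this x
  have hBr : ∀ i x, (B i).symm (r x) = r ((B i).symm x) := fun i x => by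
    apply (B i).injective
    rw [ContinuousLinearEquiv.apply_symm_apply, hBA, hAr, ← hBA,
      ContinuousLinearEquiv.apply_symm_apply]
  set S : ι → Set E4 := fun i => (B i '' K i) ∩ sphere 0 1 with hS
  have hScl : ∀ i, IsClosed (S i) := fun i =>
    ((B i).toHomeomorph.isClosedMap _ (hK i)).inter isClosed_sphere
  have hSr : ∀ i, ∀ x ∈ S i, r x ∈ S i := by
    rintro i x ⟨⟨a, ha, rfl⟩, hx⟩
    refine ⟨⟨r a, hKr i a ha, ?_⟩, ?_⟩
    · rw [hBA, hBA, hAr]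
    · rw [mem_sphere_zero_iff_norm] at hx ⊢
      rw [r.norm_map, hx]
  have hSd : ∀ i j, i ≠ j → Disjoint (S i) (S j) := by
    intro i j hij
    rw [Set.disjoint_left]
    rintro y ⟨⟨a, ha, rfl⟩, hy⟩ ⟨⟨b, hb, hab⟩, -⟩
    have h1 := hdis i j hij a ha b hb (by rw [← hBA, ← hBA]; exact hab.symm)
    rw [h1, map_zero] at hy
    simp at hy
  have hf : ∀ i, ∃ f : E4 → ℝ, ContDiff ℝ ∞ f ∧ (∀ x ∈ ⋃ j ∈ {j | j ≠ i}, S j, f x = 0) ∧
      (∀ x ∈ S i, f x = 1) ∧ (∀ x, 0 ≤ f x ∧ f x ≤ 1) ∧ ∀ x, f (r x) = f x := by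
    intro i
    refine cut_MultiPathTw hr ((Set.toFinite _).isClosed_biUnion fun j _ => hScl j) (hScl i)
      ?_ ?_ (hSr i)
    · rw [Set.disjoint_left]
      intro y hy hyi
      simp only [Set.mem_iUnion] at hy
      obtain ⟨j, hj, hyj⟩ := hy
      exact Set.disjoint_left.1 (hSd j i hj) hyj hyi
    · intro y hy
      simp only [Set.mem_iUnion] at hy ⊢
      obtain ⟨j, hj, hyj⟩ := hy
      exact ⟨j, hj, hSr j y hyj⟩
  choose f hf1 hf2 hf3 hf4 hf5 using hf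
  have hC := fun i => boundL_MultiPathTw (hf1 i) (hf4 i)
  choose C hC0 hC using hC
  -- the linear maps `A i t (A i s)⁻¹ - 1`
  set L : ι → ℝ → (E4 →L[ℝ] E4) := fun i t =>
    (A i t).comp ((B i).symm : E4 →L[ℝ] E4) - ContinuousLinearMap.id ℝ E4 with hL
  have hLr : ∀ i t x, L i t (r x) = r (L i t x) := by
    intro i t x
    show A i t ((B i).symm (r x)) - r x = r (A i t ((B i).symm x) - x)
    rw [hBr, hAr, map_sub]
  have hLc : ∀ i, Continuous (L i) := fun i =>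
    ((hA i).clm_comp continuous_const).sub continuous_const
  have hLs : ∀ i, L i s = 0 := by
    intro i
    ext1 x
    show A i s ((B i).symm x) - x = 0
    rw [← hBA, ContinuousLinearEquiv.apply_symm_apply, sub_self]
  have hev : ∀ᶠ t in 𝓝 s, ∑ i, C i * ‖L i t‖ < 1 / 2 := by
    have hcont : Continuous fun t => ∑ i, C i * ‖L i t‖ :=
      continuous_finsetSum _ fun i _ => continuous_const.mul (hLc i).norm
    have h0 : (∑ i, C i * ‖L i s‖) < 1 / 2 := by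
      simp [hLs]
    exact hcont.continuousAt.eventually (gt_mem_nhds h0)
  filter_upwards [hev] with t ht
  set u : E4 → E4 := fun x => ∑ i, f i (‖x‖⁻¹ • x) • L i t x with hu
  have hsm : ∀ i, ∀ x : E4, x ≠ 0 →
      ContDiffAt ℝ ∞ (fun x : E4 => f i (‖x‖⁻¹ • x) • L i t x) x := fun i x hx =>
    ((hf1 i).contDiffAt.comp x (contDiffAt_nrm hx)).smul (L i t).contDiff.contDiffAt
  obtain ⟨F, hF1, hF2⟩ := near_id_r hr u (by simp [hu])
    (fun x hx => ContDiffAt.sum fun i _ => hsm i x hx)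
    (fun x hx => by
      have h1 : fderiv ℝ u x = ∑ i, fderiv ℝ (fun x : E4 => f i (‖x‖⁻¹ • x) • L i t x) x :=
        fderiv_fun_sum fun i _ => (hsm i x hx).differentiableAt (by simp)
      rw [h1]
      exact (norm_sum_le _ _).trans ((Finset.sum_le_sum fun i _ => hC i (L i t) x hx).trans
        ht.le))
    (fun x => by
      simp only [hu]
      rw [map_sum, Finset.smul_sum]
      refine Finset.sum_congr rfl fun i _ => ?_
      have h1 : ‖r x‖⁻¹ • r x = r (‖x‖⁻¹ • x) := by rw [r.norm_map, map_smul]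
      rw [nrm_smul (by norm_num : (0 : ℝ) < 2⁻¹), h1, hf5, map_smul, hLr, map_smul, smul_comm])
  refine ⟨F, hF1, fun i x hx => ?_⟩
  by_cases hx0 : x = 0
  · rw [hx0, ContinuousLinearMap.map_zero, ContinuousLinearMap.map_zero]
    exact hF1.sm.1
  have hy0 : A i s x ≠ 0 := by
    rw [← hBA]
    exact fun h => hx0 ((map_eq_zero_iff _ (B i).injective).1 h)
  have hyp : 0 < ‖A i s x‖ := norm_pos_iff.2 hy0
  have hmem : ‖A i s x‖⁻¹ • A i s x ∈ S i := by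
    refine ⟨⟨‖A i s x‖⁻¹ • x, hc i x hx _ (inv_pos.2 hyp), ?_⟩, ?_⟩
    · rw [map_smul, hBA]
    · rw [mem_sphere_zero_iff_norm, norm_smul, norm_inv, norm_norm, inv_mul_cancel₀ hyp.ne']
  rw [hF2]
  have h1 : u (A i s x) = L i t (A i s x) := by
    simp only [hu]
    rw [Finset.sum_eq_single i]
    · rw [hf3 i _ hmem, one_smul]
    · intro j _ hj
      rw [hf2 j _ (Set.mem_biUnion (show i ∈ {k | k ≠ j} from hj.symm) hmem), zero_smul]
    · intro h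
      exact absurd (Finset.mem_univ i) h
  rw [h1]
  show A i s x + (A i t ((B i).symm (A i s x)) - A i s x) = A i t x
  rw [← hBA, ContinuousLinearEquiv.symm_apply_apply]
  abel

/-- finitely many closed cones which stay disjoint along paths of linear isomorphisms can be moved
simultaneously by an element of `Pr r` -/
theorem multi_path_r {r : E4 ≃ₗᵢ[ℝ] E4} (hr : Rf r) {ι : Type} [Fintype ι] (K : ι → Set E4)
    (hK : ∀ i, IsClosed (K i)) (hc : ∀ i, ∀ x ∈ K i, ∀ c : ℝ, 0 < c → c • x ∈ K i)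
    (hKr : ∀ i, ∀ x ∈ K i, r x ∈ K i)
    (A : ι → ℝ → (E4 →L[ℝ] E4)) (hA : ∀ i, Continuous (A i)) (hdet : ∀ i t, (A i t).det ≠ 0)
    (hAr : ∀ i t x, A i t (r x) = r (A i t x))
    (hdis : ∀ i j, i ≠ j → ∀ t : ℝ, 0 ≤ t → t ≤ 1 → ∀ x ∈ K i, ∀ y ∈ K j,
      A i t x = A j t y → x = 0) :
    ∃ ψ : E4 ≃ₜ E4, Pr r ψ ∧ ∀ i, ∀ x ∈ K i, ψ (A i 0 x) = A i 1 x := by
  have hloc : ∀ s ∈ Icc (0 : ℝ) 1, ∀ᶠ t in 𝓝 s, RelTw r K A s t := fun s hs =>
    nhds_MultiPathTw hr hK hc hKr hA hdet hAr fun i j hij x hx y hy h =>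
      hdis i j hij s hs.1 hs.2 x hx y hy h
  have h01 : Icc (0 : ℝ) 1 ⊆ {t | RelTw r K A 0 t} := by
    refine IsClosed.Icc_subset_of_forall_mem_nhdsWithin ?_ ?_ ?_
    · refine isClosed_of_closure_subset fun t ht => ?_
      have ht1 : t ∈ Icc (0 : ℝ) 1 := by
        have := closure_mono (inter_subset_right (s := {t | RelTw r K A 0 t})) ht
        rwa [isClosed_Icc.closure_eq] at this
      obtain ⟨t', h1, h2, -⟩ := mem_closure_iff_nhds.1 ht _ (hloc t ht1)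
      exact ⟨RelTw_trans h2 (RelTw_symm h1), ht1⟩
    · exact ⟨1, Pr.one r, fun i x _ => rfl⟩
    · rintro t ⟨h1, h2⟩
      refine mem_nhdsWithin_of_mem_nhds ?_
      filter_upwards [hloc t ⟨h2.1, h2.2.le⟩] with t' ht'
      exact RelTw_trans h1 ht'
  exact h01 (right_mem_Icc.2 zero_le_one)

end Pool.Agent.HopfTw
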