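import Pool.Agent.HopfTw.Basic
import Pool.Agent.HopfFin.NearId

/-!
# Perturbations of the identity

Plan: the proofs in `HopfFin/NearId.lean` with `x ↦ x / 2` replaced by `x ↦ r x / 2`. (For the norm
bound use that `u` commutes with `x ↦ x / 4`, since `r (r x) = x`. For the bound of the
differential: `x ↦ ‖fderiv ℝ u x‖` is invariant under `x ↦ x / 4`.)
-/

set_option autoImplicit false

open scoped ContDiff Topology
open Set Filter Metric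

namespace Pool.Agent.HopfTw

open Pool.Agent.HopfCov hiding pr
open Pool.Agent.HopfFin

/-- if `‖A‖ ≤ 1 / 2` then `1 + A` is invertible -/
private theorem det_NearIdTw {A : E4 →L[ℝ] E4} (hA : ‖A‖ ≤ 1 / 2) :
    (ContinuousLinearMap.id ℝ E4 + A).det ≠ 0 := by
  intro h0
  have h1 : LinearMap.det ((ContinuousLinearMap.id ℝ E4 + A : E4 →L[ℝ] E4) : E4 →ₗ[ℝ] E4) = 0 :=
    h0
  have h2 : ¬ Function.Injective
      ((ContinuousLinearMap.id ℝ E4 + A : E4 →L[ℝ] E4) : E4 →ₗ[ℝ] E4) := by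
    intro hinj
    have h3 := LinearMap.isUnit_det _ ((LinearMap.isUnit_iff_ker_eq_bot
      ((ContinuousLinearMap.id ℝ E4 + A : E4 →L[ℝ] E4) : E4 →ₗ[ℝ] E4)).2
        (LinearMap.ker_eq_bot.2 hinj))
    rw [h1] at h3
    exact not_isUnit_zero h3
  apply h2
  rw [injective_iff_map_eq_zero]
  intro x hx
  have h4 : x + A x = 0 := hx
  by_contra hx0
  have h5 : ‖x‖ = ‖A x‖ := by
    have : x = -(A x) := eq_neg_of_add_eq_zero_left h4
    calc ‖x‖ = ‖-(A x)‖ := by rw [← this]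
      _ = ‖A x‖ := norm_neg _
  have h6 := A.le_opNorm x
  have h7 : 0 < ‖x‖ := norm_pos_iff.2 hx0
  nlinarith

private theorem half_NearIdTw {u : E4 → E4} (hs : ∀ x, x ≠ 0 → ContDiffAt ℝ ∞ u x)
    (hd : ∀ x, x ≠ 0 → ‖fderiv ℝ u x‖ ≤ 1 / 2) {x y : E4} (h : (0 : E4) ∉ segment ℝ x y) :
    ‖u y - u x‖ ≤ 1 / 2 * ‖y - x‖ := by
  refine (convex_segment x y).norm_image_sub_le_of_norm_fderiv_le (𝕜 := ℝ) (f := u) ?_ ?_
    (left_mem_segment ℝ x y) (right_mem_segment ℝ x y)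
  · intro z hz
    exact (hs z fun h0 => h (h0 ▸ hz)).differentiableAt (by simp)
  · intro z hz
    exact hd z fun h0 => h (h0 ▸ hz)

/-- `u` commutes with `x ↦ x / 4` -/
private theorem quarter_NearIdTw {r : E4 ≃ₗᵢ[ℝ] E4} (hr : Rf r) {u : E4 → E4}
    (he : ∀ x, u ((2⁻¹ : ℝ) • r x) = (2⁻¹ : ℝ) • r (u x)) (x : E4) :
    u ((4⁻¹ : ℝ) • x) = (4⁻¹ : ℝ) • u x := by
  have h1 := he ((2⁻¹ : ℝ) • r x)
  rw [he x] at h1
  simp only [map_smul, hr.sq, smul_smul] at h1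
  have h2 : (2⁻¹ : ℝ) * 2⁻¹ = 4⁻¹ := by norm_num
  rw [h2] at h1
  exact h1

private theorem norm_NearIdTw {u : E4 → E4} (h0 : u 0 = 0)
    (hs : ∀ x, x ≠ 0 → ContDiffAt ℝ ∞ u x) (hd : ∀ x, x ≠ 0 → ‖fderiv ℝ u x‖ ≤ 1 / 2)
    (hq : ∀ x, u ((4⁻¹ : ℝ) • x) = (4⁻¹ : ℝ) • u x) (x : E4) : ‖u x‖ ≤ 1 / 2 * ‖x‖ := by
  by_cases hx : x = 0
  · simp [hx, h0]
  have hseg : (0 : E4) ∉ segment ℝ ((4⁻¹ : ℝ) • x) x := by
    rintro ⟨a, b, ha, hb, hab, h⟩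
    rw [smul_smul, ← add_smul] at h
    rcases smul_eq_zero.1 h with h1 | h1
    · nlinarith
    · exact hx h1
  have h1 := half_NearIdTw hs hd hseg
  rw [hq] at h1
  have h2 : ∀ y : E4, ‖y - (4⁻¹ : ℝ) • y‖ = 3 / 4 * ‖y‖ := by
    intro y
    have : y - (4⁻¹ : ℝ) • y = (3 / 4 : ℝ) • y := by
      rw [sub_eq_iff_eq_add, ← add_smul]
      norm_num
    rw [this, norm_smul]
    norm_num
  rw [h2, h2] at h1
  linarith

private theorem lip_NearIdTw {u : E4 → E4} (h0 : u 0 = 0)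
    (hs : ∀ x, x ≠ 0 → ContDiffAt ℝ ∞ u x) (hd : ∀ x, x ≠ 0 → ‖fderiv ℝ u x‖ ≤ 1 / 2)
    (hq : ∀ x, u ((4⁻¹ : ℝ) • x) = (4⁻¹ : ℝ) • u x) (x y : E4) :
    ‖u x - u y‖ ≤ 1 / 2 * ‖x - y‖ := by
  by_cases h : (0 : E4) ∈ segment ℝ y x
  · have h1 := norm_NearIdTw h0 hs hd hq x
    have h2 := norm_NearIdTw h0 hs hd hq y
    have h3 : ‖x - y‖ = ‖x‖ + ‖y‖ := by
      have h4 := dist_add_dist_of_mem_segment h
      rw [dist_zero_right, dist_zero_left, dist_comm, dist_eq_norm] at h4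
      rw [← h4, add_comm]
    rw [h3]
    refine (norm_sub_le _ _).trans ?_
    linarith
  · exact half_NearIdTw hs hd h

/-- an equivariant map with small differential is a perturbation of the identity -/
theorem near_id_r {r : E4 ≃ₗᵢ[ℝ] E4} (hr : Rf r) (u : E4 → E4) (h0 : u 0 = 0)
    (hs : ∀ x, x ≠ 0 → ContDiffAt ℝ ∞ u x) (hd : ∀ x, x ≠ 0 → ‖fderiv ℝ u x‖ ≤ 1 / 2)
    (he : ∀ x, u ((2⁻¹ : ℝ) • r x) = (2⁻¹ : ℝ) • r (u x)) :
    ∃ F : E4 ≃ₜ E4, Pr r F ∧ ∀ x, F x = x + u x := by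
  have happ : ApproximatesLinearOn (fun x => x + u x)
      ((ContinuousLinearEquiv.refl ℝ E4 : E4 ≃L[ℝ] E4) : E4 →L[ℝ] E4) univ (1 / 2) := by
    intro x _ y _
    have h1 : (x + u x) - (y + u y) -
        ((ContinuousLinearEquiv.refl ℝ E4 : E4 ≃L[ℝ] E4) : E4 →L[ℝ] E4) (x - y) = u x - u y := by
      simp only [ContinuousLinearEquiv.coe_refl, ContinuousLinearMap.coe_id', id_eq]
      abel
    rw [h1]
    have := lip_NearIdTw h0 hs hd (quarter_NearIdTw hr he) x y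
    simpa using this
  have hcc : Subsingleton E4 ∨
      (1 / 2 : NNReal) < ‖((ContinuousLinearEquiv.refl ℝ E4).symm : E4 →L[ℝ] E4)‖₊⁻¹ := by
    right
    have h1 : ‖((ContinuousLinearEquiv.refl ℝ E4).symm : E4 →L[ℝ] E4)‖₊ = 1 := by
      simp
    rw [h1, inv_one]
    exact NNReal.half_lt_self one_ne_zero
  have hb : Function.Bijective (fun x => x + u x) := (happ.toHomeomorph _ hcc).bijective
  obtain ⟨F, h1, h2⟩ := mk_Pr (r := r) (fun x => x + u x) hb (by simp [h0]) (fun x hx => by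
    refine ⟨contDiffAt_id.add (hs x hx), ?_⟩
    have hdf : DifferentiableAt ℝ u x := (hs x hx).differentiableAt (by simp)
    have h1 : fderiv ℝ (fun x => x + u x) x = ContinuousLinearMap.id ℝ E4 + fderiv ℝ u x := by
      rw [fderiv_fun_add differentiableAt_fun_id hdf, fderiv_fun_id]
    rw [h1]
    exact det_NearIdTw (hd x hx)) (fun x => by rw [he, map_add, smul_add])
  exact ⟨F, h1, h2⟩

/-- the differential of an equivariant map is bounded -/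
theorem fderiv_bounded_r {r : E4 ≃ₗᵢ[ℝ] E4} (hr : Rf r) (u : E4 → E4)
    (hs : ∀ x, x ≠ 0 → ContDiffAt ℝ ∞ u x)
    (he : ∀ x, u ((2⁻¹ : ℝ) • r x) = (2⁻¹ : ℝ) • r (u x)) :
    ∃ C : ℝ, 0 < C ∧ ∀ x, x ≠ 0 → ‖fderiv ℝ u x‖ ≤ C := by
  have hq : ∀ x, fderiv ℝ u ((4⁻¹ : ℝ) • x) = fderiv ℝ u x := by
    intro x
    have h1 : (fun y => u ((4⁻¹ : ℝ) • y)) = fun y => (4⁻¹ : ℝ) • u y :=
      funext (quarter_NearIdTw hr he)
    have h2 : fderiv ℝ (fun y => u ((4⁻¹ : ℝ) • y)) x =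
        (4⁻¹ : ℝ) • fderiv ℝ u ((4⁻¹ : ℝ) • x) := fderiv_comp_smul (4⁻¹ : ℝ)
    have h3 : fderiv ℝ (fun y => (4⁻¹ : ℝ) • u y) x = (4⁻¹ : ℝ) • fderiv ℝ u x :=
      congrFun (fderiv_const_smul_field (𝕜 := ℝ) (f := u) (4⁻¹ : ℝ)) x
    rw [h1, h3] at h2
    exact (smul_right_injective _ (by norm_num : (4⁻¹ : ℝ) ≠ 0) h2).symm
  have hc : ∀ x, x ≠ 0 → ContinuousAt (fun x => ‖fderiv ℝ u x‖) x := fun x hx =>
    ((hs x hx).continuousAt_fderiv (by simp)).norm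
  obtain ⟨C, hC, hb⟩ := bounded_of_invariant
    (F := fun x => ‖fderiv ℝ u x‖ + ‖fderiv ℝ u ((2⁻¹ : ℝ) • x)‖) (fun x hx => by
      refine (hc x hx).add ?_
      have h1 : ContinuousAt (fun x => ‖fderiv ℝ u x‖) ((2⁻¹ : ℝ) • x) :=
        hc _ (smul_ne_zero (by norm_num) hx)
      have h2 : ContinuousAt (fun x : E4 => (2⁻¹ : ℝ) • x) x :=
        (continuous_const_smul (2⁻¹ : ℝ)).continuousAt
      exact ContinuousAt.comp (f := fun x : E4 => (2⁻¹ : ℝ) • x) h1 h2) (fun x hx => by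
      have h1 : (2⁻¹ : ℝ) • (2⁻¹ : ℝ) • x = (4⁻¹ : ℝ) • x := by
        rw [smul_smul]
        norm_num
      show ‖fderiv ℝ u ((2⁻¹ : ℝ) • x)‖ + ‖fderiv ℝ u ((2⁻¹ : ℝ) • (2⁻¹ : ℝ) • x)‖ =
        ‖fderiv ℝ u x‖ + ‖fderiv ℝ u ((2⁻¹ : ℝ) • x)‖
      rw [h1, hq, add_comm])
  refine ⟨C, hC, fun x hx => ?_⟩
  have h1 := hb x hx
  rw [Real.norm_eq_abs, abs_of_nonneg (by positivity)] at h1
  have h2 : 0 ≤ ‖fderiv ℝ u ((2⁻¹ : ℝ) • x)‖ := norm_nonneg _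
  linarith

/-- small multiples of an equivariant vector field -/
theorem near_id_smul_r {r : E4 ≃ₗᵢ[ℝ] E4} (hr : Rf r) (u : E4 → E4) (h0 : u 0 = 0)
    (hs : ∀ x, x ≠ 0 → ContDiffAt ℝ ∞ u x)
    (he : ∀ x, u ((2⁻¹ : ℝ) • r x) = (2⁻¹ : ℝ) • r (u x)) :
    ∃ δ : ℝ, 0 < δ ∧ ∀ s : ℝ, |s| < δ → ∃ F : E4 ≃ₜ E4, Pr r F ∧ ∀ x, F x = x + s • u x := by
  obtain ⟨C, hC, hCb⟩ := fderiv_bounded_r hr u hs he
  refine ⟨1 / (2 * C), by positivity, fun s hs' => ?_⟩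
  refine near_id_r hr (fun x => s • u x) (by simp [h0]) (fun x hx => (hs x hx).const_smul s)
    (fun x hx => ?_) (fun x => by rw [he, map_smul, smul_comm])
  have hdf : DifferentiableAt ℝ u x := (hs x hx).differentiableAt (by simp)
  have h1 : fderiv ℝ (fun x => s • u x) x = s • fderiv ℝ u x := fderiv_fun_const_smul hdf s
  rw [h1, norm_smul, Real.norm_eq_abs]
  calc |s| * ‖fderiv ℝ u x‖ ≤ 1 / (2 * C) * C := by
        gcongr
        exact hCb x hx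
    _ = 1 / 2 := by field_simp

end Pool.Agent.HopfTw
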