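import Pool.Agent.HopfTw.Boost
import Pool.Agent.HopfFin.Norm

/-!
# The normal form

Plan: the proof in `HopfFin/Norm.lean`. `σ = T⁻¹`, so `G = σ (tauL r) σ⁻¹` and, as `m` is even, `G
^ m = σ tau ^ m σ⁻¹` (`tauL_even`). `ψ₀ = φ σ μ_m` commutes with `tau`, so the extension lemma of
`HopfFin` (`extend_germ`, not its `r`-version) gives `ψ` in `Pz` which agrees with `ψ₀` near the
ray; `κ₁ = μ ψ⁻¹ φ`, `K₁ = κ₁ σ = μ (ψ⁻¹ ψ₀) μ⁻¹` is the identity on a thin cone, and `κ₁ G κ₁⁻¹ =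
K₁ (tauL r) K₁⁻¹`. Finally conjugate by `L` from `boost_r`, which commutes with `tauL r`
(`Pr.comm`).
-/

set_option autoImplicit false

open scoped ContDiff Topology
open Set Filter Metric

namespace Pool.Agent.HopfTw

open Pool.Agent.HopfCov hiding pr
open Pool.Agent.HopfFin

/-- **the normal form** -/
theorem normal_form_r {r : E4 ≃ₗᵢ[ℝ] E4} (hr : Rf r) {G T φ : E4 ≃ₜ E4} (hT : GoodR r G T)
    {m : ℕ} (hm : 0 < m) (hev : Even m) (hφ : Sm φ) (hφm : φ * G ^ m = tau * φ) :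
    ∃ κ K : E4 ≃ₜ E4, Sm κ ∧ K 0 = 0 ∧ Supp K (Cone 1) ∧ κ * G * κ⁻¹ = K * tauL r * K⁻¹ := by
  obtain ⟨μ, hμ, hμx, hμt⟩ := pow_mk m hm
  have hσ0 : (T⁻¹ : E4 ≃ₜ E4) 0 = 0 := T.injective (by rw [apply_inv_self', hT.zero])
  have hσG : T⁻¹ * tauL r = G * T⁻¹ := by
    have h1 := hT.conj
    calc T⁻¹ * tauL r = T⁻¹ * (tauL r * T) * T⁻¹ := by group
      _ = T⁻¹ * (T * G) * T⁻¹ := by rw [h1]
      _ = G * T⁻¹ := by group
  have hσGm' : ∀ n : ℕ, T⁻¹ * tauL r ^ n = G ^ n * T⁻¹ := by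
    intro n
    induction n with
    | zero => rw [pow_zero, pow_zero, mul_one, one_mul]
    | succ n ih =>
      rw [pow_succ, pow_succ, ← mul_assoc, ih, mul_assoc, hσG, mul_assoc]
  have hσGm : T⁻¹ * tau ^ m = G ^ m * T⁻¹ := by rw [← tauL_even hr hev, hσGm']
  obtain ⟨ψ₀, hψ₀⟩ : ∃ ψ₀ : E4 ≃ₜ E4, ψ₀ = φ * T⁻¹ * μ := ⟨_, rfl⟩
  have hψ₀t : ψ₀ * tau = tau * ψ₀ := by
    calc ψ₀ * tau = φ * T⁻¹ * (μ * tau) := by rw [hψ₀, mul_assoc]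
      _ = φ * (T⁻¹ * tau ^ m) * μ := by rw [hμt]; group
      _ = (φ * G ^ m) * T⁻¹ * μ := by rw [hσGm]; group
      _ = tau * ψ₀ := by rw [hφm, hψ₀]; group
  have he0 : (e0 : E4) ≠ 0 := fun h => by
    have h1 := norm_e0
    rw [h, norm_zero] at h1
    exact zero_ne_one h1
  have hμray : ∀ t : ℝ, 0 < t → μ (t • e0) = (t ^ m) • e0 := by
    intro t ht
    rw [hμx, norm_smul, norm_e0, mul_one, Real.norm_of_nonneg ht.le, smul_smul, ← pow_succ]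
    congr 2
    omega
  have hray : RegRay ψ₀ := by
    intro t ht
    have h1 : Reg μ (t • e0) := hμ.reg (smul_ne_zero ht.ne' he0)
    have h2 : Reg (T⁻¹ : E4 ≃ₜ E4) (μ (t • e0)) := by
      rw [hμray t ht]
      have h3 := (hT.reg (t ^ m) (pow_pos ht m)).symm
      rwa [apply_inv_self'] at h3
    have h4 : (T⁻¹ : E4 ≃ₜ E4) (μ (t • e0)) ≠ 0 := by
      intro h5
      have h6 : μ (t • e0) = 0 := (T⁻¹ : E4 ≃ₜ E4).injective (by rw [h5, hσ0])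
      exact hμ.ne (smul_ne_zero ht.ne' he0) h6
    have h7 : Reg φ ((T⁻¹ : E4 ≃ₜ E4) (μ (t • e0))) := hφ.reg h4
    have h8 : (ψ₀ : E4 → E4) = φ ∘ ((T⁻¹ : E4 ≃ₜ E4) ∘ μ) := by
      rw [hψ₀]
      rfl
    show Reg ψ₀ (t • e0)
    rw [h8]
    exact Reg.comp h7 (Reg.comp h2 h1)
  have heq : EqvNear ψ₀ := ⟨1, one_pos, fun x _ => DFunLike.congr_fun hψ₀t x⟩
  have hinj : ∀ s t : ℝ, 0 < s → 0 < t → ψ₀ (s • e0) = ψ₀ (t • e0) → s = t := by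
    intro s t _ _ h
    exact smul_left_injective ℝ he0 (ψ₀.injective h)
  obtain ⟨ψ, hψ, δ, hδ, hag⟩ := extend_germ ψ₀ hray heq hinj
  obtain ⟨L, hL, hLc⟩ := boost_r hr δ hδ
  obtain ⟨κ₁, hκ₁⟩ : ∃ κ₁ : E4 ≃ₜ E4, κ₁ = μ * ψ⁻¹ * φ := ⟨_, rfl⟩
  obtain ⟨K₁, hK₁⟩ : ∃ K₁ : E4 ≃ₜ E4, K₁ = κ₁ * T⁻¹ := ⟨_, rfl⟩
  have hκ₁s : Sm κ₁ := by
    rw [hκ₁]
    exact (hμ.mul hψ.sm.inv).mul hφ
  have hK₁0 : K₁ 0 = 0 := by
    rw [hK₁, mul_apply', hσ0, hκ₁s.1]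
  have hK₁c : ∀ x ∈ Cone δ, K₁ x = x := by
    intro x hx
    obtain ⟨y, hy⟩ : ∃ y, y = (μ⁻¹ : E4 ≃ₜ E4) x := ⟨_, rfl⟩
    have hμy : μ y = x := by rw [hy, apply_inv_self']
    by_cases hx0 : x = 0
    · rw [hx0, hK₁0]
    have hy0 : y ≠ 0 := by
      intro h
      rw [h, hμ.1] at hμy
      exact hx0 hμy.symm
    have hc : 0 < ‖y‖ ^ (m - 1) := pow_pos (norm_pos_iff.2 hy0) _
    have hyx : y = (‖y‖ ^ (m - 1))⁻¹ • x := by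
      rw [← hμy, hμx, smul_smul, inv_mul_cancel₀ hc.ne', one_smul]
    have hyc : y ∈ Cone δ := by
      rw [hyx]
      exact Cone_smul (inv_nonneg.2 hc.le) hx
    have h1 : ψ y = ψ₀ y := hag y hyc
    have h2 : ψ₀ y = φ ((T⁻¹ : E4 ≃ₜ E4) x) := by
      rw [hψ₀, mul_apply', mul_apply', hμy]
    rw [hK₁, hκ₁, mul_apply', mul_apply', mul_apply', ← h2, ← h1, inv_apply_self', hμy]
  refine ⟨L * κ₁, L * K₁ * L⁻¹, hL.sm.mul hκ₁s, ?_, ?_, ?_⟩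
  · rw [mul_apply', mul_apply', hL.inv.sm.1, hK₁0, hL.sm.1]
  · intro x hx
    have h1 : (L⁻¹ : E4 ≃ₜ E4) x ∈ Cone δ := by
      by_contra hcon
      have h2 := hLc _ hcon
      rw [apply_inv_self'] at h2
      exact hx h2
    rw [mul_apply', mul_apply', hK₁c _ h1, apply_inv_self']
  · have h1 : G = T⁻¹ * tauL r * T := by
      rw [hσG]
      group
    have h2 : L⁻¹ * tauL r * L = tauL r := by
      rw [mul_assoc, ← hL.comm]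
      group
    calc L * κ₁ * G * (L * κ₁)⁻¹ = L * (κ₁ * T⁻¹) * tauL r * (κ₁ * T⁻¹)⁻¹ * L⁻¹ := by
          rw [h1]
          group
      _ = L * K₁ * (L⁻¹ * tauL r * L) * K₁⁻¹ * L⁻¹ := by rw [h2, hK₁]
      _ = L * K₁ * L⁻¹ * tauL r * (L * K₁ * L⁻¹)⁻¹ := by group

end Pool.Agent.HopfTw
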