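import Pool.Agent.HopfTw.MultiPath
import Pool.Agent.HopfFin.Place

/-!
# Placements of the cone with centres in a plane

The placement with data `c` (scale), `a` (centre in the affine chart `x 0 = 1`, in the plane
spanned by `e1`, `e2`), `R` (radius) and `θ` (rotation) is `x ↦ c • (x 0 • e0 + x 0 • a + R • rot
θ (pr x))`. It commutes with `r`. Two placements have images of `Cone 1` which meet only in `0` if
the distance of the centres exceeds the sum of the radii: compare the coordinates `x 0`, divide,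
and use `‖pr x‖ ≤ x 0`.

Plan of `conf_path`: `multi_path_r` with `K i = Cone 1` and `A i t` the placement with the data at
`max 0 (min 1 t)`.
-/

set_option autoImplicit false

open scoped ContDiff Topology
open Set Filter Metric

namespace Pool.Agent.HopfTw

open Pool.Agent.HopfCov hiding pr
open Pool.Agent.HopfFin

/-- rotation of the coordinates `x 1`, `x 2` -/
noncomputable def rotL (θ : ℝ) (x : E4) : E4 :=
  WithLp.toLp 2 ![x 0, Real.cos θ * x 1 - Real.sin θ * x 2,
    Real.sin θ * x 1 + Real.cos θ * x 2, x 3]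

/-- the point of the plane spanned by `e1`, `e2` with coordinates `a` -/
noncomputable def pt (a : ℝ × ℝ) : E4 := a.1 • e1 + a.2 • e2

/-- the placement -/
noncomputable def plr (c : ℝ) (a : ℝ × ℝ) (R θ : ℝ) (x : E4) : E4 :=
  c • (x 0 • e0 + x 0 • pt a + R • rotL θ (pr x))

private theorem pth_rot_add (θ : ℝ) (x y : E4) : rotL θ (x + y) = rotL θ x + rotL θ y := by
  ext i
  fin_cases i <;> simp [rotL] <;> ring

private theorem pth_rot_smul (θ c : ℝ) (x : E4) : rotL θ (c • x) = c • rotL θ x := by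
  ext i
  fin_cases i <;> simp [rotL] <;> ring

private theorem pth_rot_norm (θ : ℝ) (x : E4) : ‖rotL θ x‖ = ‖x‖ := by
  have h : ‖rotL θ x‖ ^ 2 = ‖x‖ ^ 2 := by
    rw [EuclideanSpace.norm_sq_eq, EuclideanSpace.norm_sq_eq, Fin.sum_univ_four,
      Fin.sum_univ_four]
    simp only [Real.norm_eq_abs, sq_abs]
    have h1 := Real.sin_sq_add_cos_sq θ
    have e0' : rotL θ x 0 = x 0 := rfl
    have e1' : rotL θ x 1 = Real.cos θ * x 1 - Real.sin θ * x 2 := rfl
    have e2' : rotL θ x 2 = Real.sin θ * x 1 + Real.cos θ * x 2 := rfl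
    have e3' : rotL θ x 3 = x 3 := rfl
    rw [e0', e1', e2', e3']
    linear_combination (x 1 ^ 2 + x 2 ^ 2) * h1
  exact (sq_eq_sq₀ (norm_nonneg _) (norm_nonneg _)).1 h

private theorem pth_zero (c : ℝ) (a : ℝ × ℝ) (R θ : ℝ) (x : E4) :
    plr c a R θ x 0 = c * x 0 := by
  simp [plr, rotL, pt, pr, e0, e1, e2]

theorem plr_lam (s R : ℝ) (x : E4) : lam s (plc R x) =
    plr ((2 : ℝ) ^ (-s)) (Real.cos (2 * Real.pi * s), Real.sin (2 * Real.pi * s)) R
      (2 * Real.pi * s) x := by
  ext i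
  fin_cases i <;> simp [lam, plc, plr, rotL, pt, pr, e0, e1, e2] <;> ring

theorem plr_cen (R : ℝ) (x : E4) : cenL R x = plr 1 (0, 0) R 0 x := by
  rw [cenL_apply]
  ext i
  fin_cases i <;> simp [plr, rotL, pt, pr, e0, e1, e2]

theorem plr_r {r : E4 ≃ₗᵢ[ℝ] E4} (hr : Rf r) (c : ℝ) (a : ℝ × ℝ) (R θ : ℝ) (x : E4) :
    plr c a R θ (r x) = r (plr c a R θ x) := by
  rcases hr.eq_or with h | h
  · subst h
    rfl
  · subst h
    ext i
    rw [r3_apply]
    fin_cases i <;> simp [plr, rotL, pt, pr, e0, e1, e2, r3_apply]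

/-- disjointness -/
theorem plr_disjoint {c c' R R' θ θ' : ℝ} {a a' : ℝ × ℝ} (hc : 0 < c) (hc' : 0 < c') (hR : 0 < R)
    (hR' : 0 < R') (hd : R + R' < ‖pt a - pt a'‖) {x y : E4} (hx : x ∈ Cone 1) (hy : y ∈ Cone 1)
    (h : plr c a R θ x = plr c' a' R' θ' y) : x = 0 := by
  by_contra hne
  have hx0 := Cone_apply_nonneg one_pos hx
  have hxp : 0 < x 0 := lt_of_le_of_ne hx0 fun h0 => hne (Cone_eq_zero hx h0.symm)
  have h0 : c * x 0 = c' * y 0 := by
    rw [← pth_zero c a R θ x, h, pth_zero]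
  have hyp : 0 < y 0 := by
    have h1 : 0 < c' * y 0 := by
      rw [← h0]
      exact mul_pos hc hxp
    exact (mul_pos_iff_of_pos_left hc').1 h1
  have hp : 0 < c * x 0 := mul_pos hc hxp
  have h1 : (c * x 0) • (pt a - pt a') = (c' * R') • rotL θ' (pr y) - (c * R) • rotL θ (pr x) := by
    have h2 : c • (x 0 • e0 + x 0 • pt a + R • rotL θ (pr x)) =
        c' • (y 0 • e0 + y 0 • pt a' + R' • rotL θ' (pr y)) := h
    have h3 : (c * x 0) • e0 + (c * x 0) • pt a + (c * R) • rotL θ (pr x) =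
        (c * x 0) • e0 + (c * x 0) • pt a' + (c' * R') • rotL θ' (pr y) := by
      have e1' : (c * x 0) • e0 + (c * x 0) • pt a + (c * R) • rotL θ (pr x) =
          c • (x 0 • e0 + x 0 • pt a + R • rotL θ (pr x)) := by
        simp only [smul_add, mul_smul]
      have e2' : (c * x 0) • e0 + (c * x 0) • pt a' + (c' * R') • rotL θ' (pr y) =
          c' • (y 0 • e0 + y 0 • pt a' + R' • rotL θ' (pr y)) := by
        rw [h0]
        simp only [smul_add, mul_smul]
      rw [e1', e2', h2]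
    rw [smul_sub]
    have h4 : (c * x 0) • pt a + (c * R) • rotL θ (pr x) =
        (c * x 0) • pt a' + (c' * R') • rotL θ' (pr y) := by
      rw [add_assoc, add_assoc] at h3
      exact add_left_cancel h3
    rw [sub_eq_sub_iff_add_eq_add, h4, add_comm]
  have h5 : ‖(c * x 0) • (pt a - pt a')‖ ≤ (c * x 0) * (R + R') := by
    have hx1 : ‖pr x‖ ≤ x 0 := by
      have h6 : ‖pr x‖ ≤ 1 * x 0 := hx
      rwa [one_mul] at h6
    have hy1 : ‖pr y‖ ≤ y 0 := by
      have h6 : ‖pr y‖ ≤ 1 * y 0 := hy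
      rwa [one_mul] at h6
    rw [h1]
    refine (norm_sub_le _ _).trans ?_
    rw [norm_smul, norm_smul, pth_rot_norm, pth_rot_norm, Real.norm_eq_abs, Real.norm_eq_abs,
      abs_of_pos (mul_pos hc' hR'), abs_of_pos (mul_pos hc hR)]
    have h7 : c' * R' * ‖pr y‖ ≤ c' * R' * y 0 :=
      mul_le_mul_of_nonneg_left hy1 (mul_pos hc' hR').le
    have h8 : c * R * ‖pr x‖ ≤ c * R * x 0 := mul_le_mul_of_nonneg_left hx1 (mul_pos hc hR).le
    calc c' * R' * ‖pr y‖ + c * R * ‖pr x‖ ≤ c' * R' * y 0 + c * R * x 0 := add_le_add h7 h8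
      _ = (c * x 0) * R + (c' * y 0) * R' := by ring
      _ = (c * x 0) * (R + R') := by rw [← h0]; ring
  rw [norm_smul, Real.norm_eq_abs, abs_of_pos hp] at h5
  exact absurd (le_of_mul_le_mul_left h5 hp) (not_le.2 hd)

/-- the placement as a continuous linear map -/
private noncomputable def plrL (c : ℝ) (a : ℝ × ℝ) (R θ : ℝ) : E4 →L[ℝ] E4 :=
  LinearMap.toContinuousLinearMap
    { toFun := plr c a R θ
      map_add' := fun x y => by
        simp only [plr, PiLp.add_apply, pr_add, pth_rot_add, smul_add, add_smul]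
        abel
      map_smul' := fun k x => by
        simp only [plr, PiLp.smul_apply, pr_smul, pth_rot_smul, smul_eq_mul, smul_add, mul_smul,
          RingHom.id_apply, smul_comm R k, smul_comm c k] }

private theorem plrL_apply (c : ℝ) (a : ℝ × ℝ) (R θ : ℝ) (x : E4) :
    plrL c a R θ x = plr c a R θ x := rfl

private theorem plrL_det {c : ℝ} (a : ℝ × ℝ) {R : ℝ} (θ : ℝ) (hc : 0 < c) (hR : 0 < R) :
    (plrL c a R θ).det ≠ 0 := by
  have hinj : Function.Injective (plrL c a R θ) := by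
    rw [injective_iff_map_eq_zero]
    intro x hx
    rw [plrL_apply] at hx
    have h0 : c * x 0 = 0 := by
      rw [← pth_zero c a R θ x, hx]
      rfl
    have h1 : x 0 = 0 := (mul_eq_zero.1 h0).resolve_left hc.ne'
    rw [plr, h1, zero_smul, zero_smul, zero_add, zero_add, smul_smul] at hx
    have h2 : rotL θ (pr x) = 0 := (smul_eq_zero.1 hx).resolve_left (mul_pos hc hR).ne'
    have h3 : ‖pr x‖ = 0 := by rw [← pth_rot_norm θ, h2, norm_zero]
    rw [eq_add_pr x, h1, zero_smul, zero_add]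
    exact norm_eq_zero.1 h3
  intro h
  have h1 : LinearMap.det (plrL c a R θ : E4 →ₗ[ℝ] E4) = 0 := h
  have h2 := LinearMap.bot_lt_ker_of_det_eq_zero h1
  rw [LinearMap.ker_eq_bot.2 hinj] at h2
  exact lt_irrefl _ h2

private theorem plrL_cont {c R θ : ℝ → ℝ} {a : ℝ → ℝ × ℝ} (hc : Continuous c)
    (hR : Continuous R) (hθ : Continuous θ) (ha : Continuous a) :
    Continuous fun t => plrL (c t) (a t) (R t) (θ t) := by
  rw [continuous_clm_apply]
  intro x
  change Continuous fun t => c t • (x 0 • e0 + x 0 • pt (a t) + R t • rotL (θ t) (pr x))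
  have h1 : Continuous fun t => rotL (θ t) (pr x) := by
    unfold rotL
    refine (PiLp.continuous_toLp 2 _).comp (continuous_pi fun i => ?_)
    fin_cases i
    · exact continuous_const
    · exact ((Real.continuous_cos.comp hθ).mul continuous_const).sub
        ((Real.continuous_sin.comp hθ).mul continuous_const)
    · exact ((Real.continuous_sin.comp hθ).mul continuous_const).add
        ((Real.continuous_cos.comp hθ).mul continuous_const)
    · exact continuous_const
  have h2 : Continuous fun t => pt (a t) := by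
    unfold pt
    exact ((continuous_fst.comp ha).smul continuous_const).add
      ((continuous_snd.comp ha).smul continuous_const)
  have h5 : Continuous fun t => x 0 • pt (a t) := h2.const_smul (x 0)
  have h3 : Continuous fun t => x 0 • e0 + x 0 • pt (a t) := continuous_const.add h5
  have h4 : Continuous fun t => R t • rotL (θ t) (pr x) := hR.smul h1
  exact hc.smul (h3.add h4)

/-- moving finitely many cones along paths of placements -/
theorem conf_path {r : E4 ≃ₗᵢ[ℝ] E4} (hr : Rf r) {N : ℕ} (c R θ : Fin N → ℝ → ℝ)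
    (a : Fin N → ℝ → ℝ × ℝ) (hcc : ∀ i, Continuous (c i)) (hRc : ∀ i, Continuous (R i))
    (hθc : ∀ i, Continuous (θ i)) (hac : ∀ i, Continuous (a i))
    (hc : ∀ i, ∀ t ∈ Icc (0 : ℝ) 1, 0 < c i t) (hR : ∀ i, ∀ t ∈ Icc (0 : ℝ) 1, 0 < R i t)
    (hd : ∀ i j, i ≠ j → ∀ t ∈ Icc (0 : ℝ) 1, R i t + R j t < ‖pt (a i t) - pt (a j t)‖) :
    ∃ ψ : E4 ≃ₜ E4, Pr r ψ ∧ ∀ i, ∀ x ∈ Cone 1,
      ψ (plr (c i 0) (a i 0) (R i 0) (θ i 0) x) = plr (c i 1) (a i 1) (R i 1) (θ i 1) x := by
  have hcl : Continuous fun t : ℝ => max 0 (min 1 t) :=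
    continuous_const.max (continuous_const.min continuous_id)
  have hmem : ∀ t : ℝ, max 0 (min 1 t) ∈ Icc (0 : ℝ) 1 := fun t =>
    ⟨le_max_left _ _, max_le zero_le_one (min_le_left _ _)⟩
  have hid : ∀ t : ℝ, 0 ≤ t → t ≤ 1 → max 0 (min 1 t) = t := fun t h0 h1 => by
    rw [min_eq_right h1, max_eq_right h0]
  obtain ⟨ψ, hψ, h⟩ := multi_path_r hr (ι := Fin N) (fun _ => Cone 1)
    (fun _ => isClosed_Cone 1) (fun _ x hx k hk => Cone_smul hk.le hx)
    (fun _ x hx => hr.mem_Cone hx)
    (fun i t => plrL (c i (max 0 (min 1 t))) (a i (max 0 (min 1 t))) (R i (max 0 (min 1 t)))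
      (θ i (max 0 (min 1 t))))
    (fun i => plrL_cont ((hcc i).comp hcl) ((hRc i).comp hcl) ((hθc i).comp hcl)
      ((hac i).comp hcl))
    (fun i t => plrL_det _ _ (hc i _ (hmem t)) (hR i _ (hmem t)))
    (fun i t x => plr_r hr _ _ _ _ x)
    (fun i j hij t h0 h1 x hx y hy hxy => by
      beta_reduce at hxy
      rw [plrL_apply, plrL_apply] at hxy
      exact plr_disjoint (hc i _ (hmem t)) (hc j _ (hmem t)) (hR i _ (hmem t))
        (hR j _ (hmem t)) (hd i j hij _ (hmem t)) hx hy hxy)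
  refine ⟨ψ, hψ, fun i x hx => ?_⟩
  have h2 := h i x hx
  beta_reduce at h2
  rw [plrL_apply, plrL_apply, hid 0 le_rfl zero_le_one, hid 1 zero_le_one le_rfl] at h2
  exact h2

end Pool.Agent.HopfTw
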