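import Pool.Agent.HopfTw.Path

/-!
# The placements with signs

For `N` cones in groups of `c` (`c` divides `N`) the `k`-th placement is `PT r N c k = lamH (k /
N) * r ^ (k / c + k % c) * plH (rad N)` (quotient and remainder in `ℕ`). With `ZT r n = lamH (1 /
n) * r` and `N = n * c` one has `ZT r n * PT r N c k = PT r N c (k + c)`, and `PT r N c (N + j) =
tauL r * PT r N c j` for `j < c` if `n` is odd.
-/

set_option autoImplicit false

open scoped ContDiff Topology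
open Set Filter Metric

namespace Pool.Agent.HopfTw

open Pool.Agent.HopfCov hiding pr
open Pool.Agent.HopfFin

/-- the placements -/
noncomputable def PT (r : E4 ≃ₗᵢ[ℝ] E4) (N c k : ℕ) : E4 ≃ₜ E4 :=
  lamH (k / N) * linH r ^ (k / c + k % c) * plH (HopfFin.rad N)

/-- the root of the model contraction -/
noncomputable def ZT (r : E4 ≃ₗᵢ[ℝ] E4) (n : ℕ) : E4 ≃ₜ E4 := lamH (1 / n) * linH r

theorem linH_lamH {r : E4 ≃ₗᵢ[ℝ] E4} (hr : Rf r) (s : ℝ) :
    linH r * lamH s = lamH s * linH r :=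
  Homeomorph.ext fun x => (hr.lam s x).symm

theorem linH_plH {r : E4 ≃ₗᵢ[ℝ] E4} (hr : Rf r) (R : ℝ) :
    linH r * plH R = plH R * linH r := by
  by_cases hR : R = 0
  · rw [hR, plH, dif_pos rfl, mul_one, one_mul]
  · refine Homeomorph.ext fun x => ?_
    rw [mul_apply', mul_apply', linH_apply, linH_apply, plH_apply hR, plH_apply hR, plc, plc,
      hr.pr, hr.apply_zero, map_add, map_add, map_smul, map_smul, map_smul, hr.fix0, hr.fix1]

theorem linH_sq {r : E4 ≃ₗᵢ[ℝ] E4} (hr : Rf r) : linH r * linH r = 1 :=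
  Homeomorph.ext fun x => hr.sq x

private theorem pow_Place {r : E4 ≃ₗᵢ[ℝ] E4} (hr : Rf r) (m : ℕ) {x : E4} :
    (x ∈ Cone 1 → (linH r ^ m : E4 ≃ₜ E4) x ∈ Cone 1) ∧
      ((linH r ^ m : E4 ≃ₜ E4) x = 0 → x = 0) := by
  induction m with
  | zero => exact ⟨fun h => h, fun h => h⟩
  | succ m ih =>
    rw [pow_succ', mul_apply', linH_apply]
    refine ⟨fun h => hr.mem_Cone (ih.1 h), fun h => ih.2 ?_⟩
    exact (map_eq_zero_iff r r.injective).1 h

private theorem comm_Place {r : E4 ≃ₗᵢ[ℝ] E4} (hr : Rf r) (m : ℕ) (R : ℝ) :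
    linH r ^ m * plH R = plH R * linH r ^ m := by
  have h : Commute (linH r) (plH R) := linH_plH hr R
  exact h.pow_left m

private theorem commL_Place {r : E4 ≃ₗᵢ[ℝ] E4} (hr : Rf r) (m : ℕ) (s : ℝ) :
    linH r ^ m * lamH s = lamH s * linH r ^ m := by
  have h : Commute (linH r) (lamH s) := linH_lamH hr s
  exact h.pow_left m

private theorem odd_Place {r : E4 ≃ₗᵢ[ℝ] E4} (hr : Rf r) {n : ℕ} (hn : Odd n) :
    linH r ^ n = linH r := by
  obtain ⟨k, rfl⟩ := hn
  rw [pow_succ, pow_mul, pow_two, linH_sq hr, one_pow, one_mul]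

private theorem tauL_Place (r : E4 ≃ₗᵢ[ℝ] E4) : tauL r = lamH 1 * linH r :=
  Homeomorph.ext fun x => by
    rw [mul_apply', linH_apply, lamH_apply, lam_one, tauL_apply]

private theorem plN_Place {r : E4 ≃ₗᵢ[ℝ] E4} (hr : Rf r) (N c k : ℕ) (x : E4) :
    PT r N c k x = plN N k ((linH r ^ (k / c + k % c) : E4 ≃ₜ E4) x) := by
  rw [PT, mul_assoc, comm_Place hr, ← mul_assoc]
  rfl

theorem PT_pr {r : E4 ≃ₗᵢ[ℝ] E4} (hr : Rf r) (N c k : ℕ) : Pr r (PT r N c k) := by
  rw [PT]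
  refine ((Pr_lamH hr _).mul (Pr_linH.pow _)).mul (Pr_of_Pz (plH_pz _) fun x => ?_)
  exact (DFunLike.congr_fun (linH_plH hr (HopfFin.rad N)) x).symm

/-- the placement as `plr`, up to the sign -/
theorem PT_apply {r : E4 ≃ₗᵢ[ℝ] E4} (hr : Rf r) {N : ℕ} (hN : 0 < N) (c k : ℕ) (x : E4) :
    PT r N c k x = plr ((2 : ℝ) ^ (-((k : ℝ) / N))) (Real.cos (2 * Real.pi * (k / N)),
      Real.sin (2 * Real.pi * (k / N))) (HopfFin.rad N) (2 * Real.pi * (k / N))
      ((linH r ^ (k / c + k % c) : E4 ≃ₜ E4) x) := by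
  rw [plN_Place hr, plN_apply hN, pl, plr_lam]

theorem ZT_PT {r : E4 ≃ₗᵢ[ℝ] E4} (hr : Rf r) {n c : ℕ} (hc : 0 < c) (k : ℕ) (hn : 0 < n) :
    ZT r n * PT r (n * c) c k = PT r (n * c) c (k + c) := by
  have h1 : (k + c) / c + (k + c) % c = 1 + (k / c + k % c) := by
    rw [Nat.add_div_right k hc, Nat.add_mod_right]
    omega
  have hn' : (n : ℝ) ≠ 0 := by positivity
  have hc' : (c : ℝ) ≠ 0 := by positivity
  have h2 : (((k + c : ℕ) : ℝ) / ((n * c : ℕ) : ℝ)) = 1 / n + (k : ℝ) / ((n * c : ℕ) : ℝ) := by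
    push_cast
    field_simp
    ring
  have h3 := linH_lamH hr ((k : ℝ) / ((n * c : ℕ) : ℝ))
  rw [PT, PT, ZT, h1, h2, lamH_add, pow_add (linH r) 1, pow_one]
  calc lamH (1 / n) * linH r * (lamH ((k : ℝ) / ((n * c : ℕ) : ℝ)) *
        linH r ^ (k / c + k % c) * plH (HopfFin.rad (n * c)))
      = lamH (1 / n) * (linH r * lamH ((k : ℝ) / ((n * c : ℕ) : ℝ))) *
        linH r ^ (k / c + k % c) * plH (HopfFin.rad (n * c)) := by
        simp only [mul_assoc]
    _ = _ := by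
        rw [h3]
        simp only [mul_assoc]

theorem PT_wrap {r : E4 ≃ₗᵢ[ℝ] E4} (hr : Rf r) {n c : ℕ} (hn : Odd n) {j : ℕ} (hj : j < c) :
    PT r (n * c) c (n * c + j) = tauL r * PT r (n * c) c j := by
  have hc : 0 < c := by omega
  have hn0 : 0 < n := hn.pos
  have h1 : (n * c + j) / c + (n * c + j) % c = n + j := by
    rw [add_comm (n * c) j, Nat.add_mul_div_right _ _ hc, Nat.add_mul_mod_self_right,
      Nat.div_eq_of_lt hj, Nat.mod_eq_of_lt hj]
    omega
  have h0 : j / c + j % c = j := by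
    rw [Nat.div_eq_of_lt hj, Nat.mod_eq_of_lt hj, zero_add]
  have hn' : (n : ℝ) ≠ 0 := by positivity
  have hc' : (c : ℝ) ≠ 0 := by positivity
  have h2 : (((n * c + j : ℕ) : ℝ) / ((n * c : ℕ) : ℝ)) = 1 + (j : ℝ) / ((n * c : ℕ) : ℝ) := by
    push_cast
    field_simp
  have h3 := linH_lamH hr ((j : ℝ) / ((n * c : ℕ) : ℝ))
  rw [PT, PT, h0, h1, h2, lamH_add, pow_add, odd_Place hr hn, tauL_Place]
  calc lamH 1 * lamH ((j : ℝ) / ((n * c : ℕ) : ℝ)) * (linH r * linH r ^ j) *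
        plH (HopfFin.rad (n * c))
      = lamH 1 * (lamH ((j : ℝ) / ((n * c : ℕ) : ℝ)) * linH r) * linH r ^ j *
        plH (HopfFin.rad (n * c)) := by
        simp only [mul_assoc]
    _ = _ := by
        rw [← h3]
        simp only [mul_assoc]

theorem ZT_pow {r : E4 ≃ₗᵢ[ℝ] E4} (hr : Rf r) {n : ℕ} (hn : Odd n) : ZT r n ^ n = tauL r := by
  have hn' : (n : ℝ) ≠ 0 := by
    have := hn.pos
    positivity
  have h : Commute (lamH (1 / n)) (linH r) := (linH_lamH hr _).symm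
  rw [ZT, h.mul_pow, lamH_pow, odd_Place hr hn, tauL_Place, mul_one_div_cancel hn']

/-- the images of `Cone 1` avoid a thin cone around the ray -/
theorem PT_off {r : E4 ≃ₗᵢ[ℝ] E4} (hr : Rf r) {N : ℕ} (hN : 0 < N) (c k : ℕ) {x : E4}
    (hx : x ∈ Cone 1) (h : PT r N c k x ∈ Cone (1 / 2)) : x = 0 := by
  rw [plN_Place hr] at h
  exact (pow_Place hr _).2 (plN_off hN k ((pow_Place hr _).1 hx) h)

private theorem sin_Place {n k : ℕ} (hk : 0 < k) (hkn : k < n) :
    8 / (n : ℝ) ^ 2 ≤ 1 - Real.cos (2 * Real.pi * (k / n)) := by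
  have hn : (0 : ℝ) < n := by exact_mod_cast (hk.trans hkn)
  have hpi := Real.pi_pos
  have hk1 : (1 : ℝ) ≤ k := by exact_mod_cast hk
  have hkn1 : (k : ℝ) + 1 ≤ n := by exact_mod_cast hkn
  have h1 : 2 / (n : ℝ) ≤ Real.sin (Real.pi * (k / n)) := by
    by_cases h : Real.pi * (k / n) ≤ Real.pi / 2
    · have h2 := Real.mul_le_sin (by positivity) h
      refine le_trans ?_ h2
      have h3 : 2 / Real.pi * (Real.pi * (k / n)) = 2 * k / n := by
        field_simp
      rw [h3]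
      exact div_le_div_of_nonneg_right (by linarith) hn.le
    · have h4 : Real.pi - Real.pi * (k / n) = Real.pi * ((n - k) / n) := by
        field_simp
      have h2 := Real.mul_le_sin (x := Real.pi - Real.pi * (k / n)) (by
        rw [h4]
        exact mul_nonneg hpi.le (div_nonneg (by linarith) hn.le)) (by linarith)
      rw [Real.sin_pi_sub, h4] at h2
      refine le_trans ?_ h2
      have h3 : 2 / Real.pi * (Real.pi * ((n - k) / n)) = 2 * (n - k) / n := by
        field_simp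
      rw [h3]
      exact div_le_div_of_nonneg_right (by linarith) hn.le
  have h5 : 1 - Real.cos (2 * Real.pi * (k / n)) =
      2 * Real.sin (Real.pi * (k / n)) ^ 2 := by
    have h6 := Real.cos_two_mul (Real.pi * (k / n))
    have h7 := Real.sin_sq_add_cos_sq (Real.pi * (k / n))
    rw [← mul_assoc] at h6
    rw [h6]
    linarith
  rw [h5]
  have h8 : (2 / (n : ℝ)) ^ 2 ≤ Real.sin (Real.pi * (k / n)) ^ 2 :=
    pow_le_pow_left₀ (by positivity) h1 2
  have h9 : (2 / (n : ℝ)) ^ 2 = 4 / (n : ℝ) ^ 2 := by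
    rw [div_pow]
    norm_num
  rw [h9] at h8
  calc 8 / (n : ℝ) ^ 2 = 2 * (4 / (n : ℝ) ^ 2) := by ring
    _ ≤ _ := by linarith

private theorem cos_Place {n i j : ℕ} (hi : i < n) (hj : j < n) (hij : i ≠ j) :
    8 / (n : ℝ) ^ 2 ≤ 1 - Real.cos (2 * Real.pi * (i / n) - 2 * Real.pi * (j / n)) := by
  rcases lt_or_gt_of_ne hij with h | h
  · have h1 := sin_Place (n := n) (k := j - i) (by omega) (by omega)
    rw [Nat.cast_sub h.le] at h1
    rw [← Real.cos_neg]
    have h2 : -(2 * Real.pi * ((i : ℝ) / n) - 2 * Real.pi * (j / n)) =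
        2 * Real.pi * (((j : ℝ) - i) / n) := by ring
    rw [h2]
    exact h1
  · have h1 := sin_Place (n := n) (k := i - j) (by omega) (by omega)
    rw [Nat.cast_sub h.le] at h1
    have h2 : 2 * Real.pi * ((i : ℝ) / n) - 2 * Real.pi * (j / n) =
        2 * Real.pi * (((i : ℝ) - j) / n) := by ring
    rw [h2]
    exact h1

private theorem pt_Place (a b : ℝ × ℝ) :
    ‖pt a - pt b‖ ^ 2 = (a.1 - b.1) ^ 2 + (a.2 - b.2) ^ 2 := by
  rw [EuclideanSpace.norm_sq_eq, Fin.sum_univ_four]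
  simp [pt, e1, e2]

/-- the centres of the placements are far from each other (`4 / N ≤ 2 sin (π / N)`) -/
theorem dist_centres {N : ℕ} (hN : 0 < N) {k l : ℕ} (hk : k < N) (hl : l < N) (hkl : k ≠ l) :
    HopfFin.rad N + HopfFin.rad N <
      ‖pt (Real.cos (2 * Real.pi * (k / N)), Real.sin (2 * Real.pi * (k / N))) -
        pt (Real.cos (2 * Real.pi * (l / N)), Real.sin (2 * Real.pi * (l / N)))‖ := by
  have hN' : (0 : ℝ) < N := by exact_mod_cast hN
  have h1 := cos_Place hk hl hkl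
  rw [Real.cos_sub] at h1
  have h2 : ‖pt (Real.cos (2 * Real.pi * (k / N)), Real.sin (2 * Real.pi * (k / N))) -
        pt (Real.cos (2 * Real.pi * (l / N)), Real.sin (2 * Real.pi * (l / N)))‖ ^ 2 =
      2 * (1 - (Real.cos (2 * Real.pi * (k / N)) * Real.cos (2 * Real.pi * (l / N)) +
        Real.sin (2 * Real.pi * (k / N)) * Real.sin (2 * Real.pi * (l / N)))) := by
    rw [pt_Place]
    have e1 := Real.sin_sq_add_cos_sq (2 * Real.pi * (k / N))
    have e2 := Real.sin_sq_add_cos_sq (2 * Real.pi * (l / N))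
    linear_combination e1 + e2
  refine lt_of_pow_lt_pow_left₀ 2 (norm_nonneg _) ?_
  rw [h2]
  have h3 : (HopfFin.rad N + HopfFin.rad N) ^ 2 = 1 / 16 * (1 / (N : ℝ) ^ 2) := by
    unfold HopfFin.rad
    field_simp
    norm_num
  have h4 : 8 / (N : ℝ) ^ 2 = 8 * (1 / (N : ℝ) ^ 2) := by ring
  have h5 : 0 < 1 / (N : ℝ) ^ 2 := by positivity
  rw [h3]
  rw [h4] at h1
  linarith

theorem PT_disjoint {r : E4 ≃ₗᵢ[ℝ] E4} (hr : Rf r) {N : ℕ} (hN : 0 < N) (c c' : ℕ) {k l : ℕ}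
    (hk : k < N) (hl : l < N) (hkl : k ≠ l) {x y : E4} (hx : x ∈ Cone 1) (hy : y ∈ Cone 1)
    (h : PT r N c k x = PT r N c' l y) : x = 0 := by
  rw [plN_Place hr, plN_Place hr] at h
  exact (pow_Place hr _).2 (plN_disjoint hN hk hl hkl ((pow_Place hr _).1 hx)
    ((pow_Place hr _).1 hy) h)

end Pool.Agent.HopfTw
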