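import Pool.Agent.HopfTw.Conf
import Pool.Agent.HopfTw.Place

/-!
# The rearrangement

Plan. `N = n * (2 * d)` is even. For `k < N` let `σ k = k` if `k / (2 * d)` is even, otherwise `σ
k = k + 1` for even `k` and `σ k = k - 1` for odd `k`; this is a permutation of `{k < N}` (it
exchanges `2 l` and `2 l + 1`, which have the same quotient by `2 * d`), and `σ k / (2 * d) + σ k
% (2 * d)` has the parity of `k`. Hence `PT r (N+1) 1 k` and `PT r N (2*d) (σ k)` are placements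
`plr` composed with the same power `r ^ k` (`PT_apply`, `linH_sq`; note `k / 1 + k % 1 = k`), and
`PT r (N+1) 1 N` has an even power. Apply `conf` for `Fin (N+1)`: on one side the centres of `PT r
(N+1) 1 k`, `k ≤ N` (`dist_centres`), on the other side the centres of `PT r N (2*d) (σ k)`, `k <
N`, and the centre `0` with radius `ρ ≤ 1/8` (`plr_cen`; the other centres have norm `1` and
radius at most `1/8`).
-/

set_option autoImplicit false

open scoped ContDiff Topology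
open Set Filter Metric

namespace Pool.Agent.HopfTw

open Pool.Agent.HopfCov hiding pr
open Pool.Agent.HopfFin

/-- the permutation of the cones -/
def sgm (d k : ℕ) : ℕ :=
  if (k / (2 * d)) % 2 = 0 then k else if k % 2 = 0 then k + 1 else k - 1

private theorem dm_Rearr {d q s : ℕ} (hs : s < 2 * d) :
    (2 * d * q + s) / (2 * d) = q ∧ (2 * d * q + s) % (2 * d) = s := by
  have h : 0 < 2 * d := by omega
  rw [Nat.mul_add_div h, Nat.div_eq_of_lt hs, add_zero, Nat.mul_add_mod, Nat.mod_eq_of_lt hs]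
  exact ⟨rfl, rfl⟩

private theorem ex_Rearr {d : ℕ} (hd : 0 < d) (k : ℕ) : ∃ q s, s < 2 * d ∧ k = 2 * d * q + s :=
  ⟨k / (2 * d), k % (2 * d), Nat.mod_lt _ (by omega), (Nat.div_add_mod k (2 * d)).symm⟩

/-- the three cases of the definition of `sgm` -/
private theorem sg_Rearr {d q s : ℕ} (hs : s < 2 * d) :
    sgm d (2 * d * q + s) = 2 * d * q + (if q % 2 = 0 then s else if s % 2 = 0 then s + 1
      else s - 1) := by
  have h2 : (2 * d * q + s) % 2 = s % 2 := by
    rw [mul_assoc]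
    omega
  rw [sgm, (dm_Rearr hs).1, h2]
  split_ifs <;> omega

theorem sgm_lt {n d k : ℕ} (hd : 0 < d) (hk : k < n * (2 * d)) : sgm d k < n * (2 * d) := by
  have h : n * (2 * d) = 2 * (n * d) := by ring
  rw [h] at hk ⊢
  unfold sgm
  split_ifs <;> omega

/-- `sgm` is an involution -/
theorem sgm_sgm {d : ℕ} (hd : 0 < d) (k : ℕ) : sgm d (sgm d k) = k := by
  obtain ⟨q, s, hs, rfl⟩ := ex_Rearr hd k
  rw [sg_Rearr hs, sg_Rearr (by split_ifs <;> omega)]
  split_ifs <;> omega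

theorem sgm_parity {d : ℕ} (hd : 0 < d) (k : ℕ) :
    (sgm d k / (2 * d) + sgm d k % (2 * d)) % 2 = k % 2 := by
  obtain ⟨q, s, hs, rfl⟩ := ex_Rearr hd k
  have h1 : (if q % 2 = 0 then s else if s % 2 = 0 then s + 1 else s - 1) < 2 * d := by
    split_ifs <;> omega
  have h2 : (2 * d * q + s) % 2 = s % 2 := by
    rw [mul_assoc]
    omega
  rw [sg_Rearr hs, (dm_Rearr h1).1, (dm_Rearr h1).2, h2]
  split_ifs <;> omega

private theorem mem_Rearr {r : E4 ≃ₗᵢ[ℝ] E4} (hr : Rf r) (m : ℕ) {x : E4} (hx : x ∈ Cone 1) :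
    (linH r ^ m : E4 ≃ₜ E4) x ∈ Cone 1 := by
  induction m with
  | zero => exact hx
  | succ m ih =>
    rw [pow_succ', mul_apply', linH_apply]
    exact hr.mem_Cone ih

private theorem par_Rearr {r : E4 ≃ₗᵢ[ℝ] E4} (hr : Rf r) {a b : ℕ} (h : a % 2 = b % 2) :
    linH r ^ a = linH r ^ b := by
  have h1 : ∀ m : ℕ, linH r ^ m = linH r ^ (m % 2) := fun m => by
    conv_lhs => rw [← Nat.div_add_mod m 2, pow_add, pow_mul, pow_two, linH_sq hr, one_pow, one_mul]
  rw [h1 a, h1 b, h]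

private theorem nrm_Rearr (θ : ℝ) : ‖pt (Real.cos θ, Real.sin θ) - pt (0, 0)‖ = 1 := by
  have h : ‖pt (Real.cos θ, Real.sin θ) - pt (0, 0)‖ ^ 2 = 1 := by
    rw [EuclideanSpace.norm_sq_eq, Fin.sum_univ_four]
    simp [pt, e1, e2]
  have h0 := norm_nonneg (pt (Real.cos θ, Real.sin θ) - pt (0, 0))
  nlinarith

private theorem rad_Rearr {N : ℕ} (hN : 0 < N) : 0 < HopfFin.rad N ∧ HopfFin.rad N ≤ 1 / 8 := by
  have h1 : (1 : ℝ) ≤ N := by exact_mod_cast hN
  unfold HopfFin.rad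
  refine ⟨by positivity, one_div_le_one_div_of_le (by norm_num) (by linarith)⟩

/-- the rearrangement -/
theorem rearrange_r {r : E4 ≃ₗᵢ[ℝ] E4} (hr : Rf r) {n d : ℕ} (hn : 0 < n) (hd : 0 < d) {ρ : ℝ}
    (hρ : 0 < ρ) (hρ' : ρ ≤ 1 / 8) :
    ∃ ψ : E4 ≃ₜ E4, Pr r ψ ∧ (∀ k < n * (2 * d), ∀ x ∈ Cone 1,
      ψ (PT r (n * (2 * d) + 1) 1 k x) = PT r (n * (2 * d)) (2 * d) (sgm d k) x) ∧
      ∀ x ∈ Cone 1, ψ (PT r (n * (2 * d) + 1) 1 (n * (2 * d)) x) = cenL ρ x := by
  obtain ⟨N, hN⟩ : ∃ N, N = n * (2 * d) := ⟨_, rfl⟩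
  have hN0 : 0 < N := by rw [hN]; positivity
  have hlt : ∀ k, k < N → sgm d k < N := fun k hk => by
    rw [hN] at hk ⊢
    exact sgm_lt hd hk
  rw [← hN]
  obtain ⟨ψ, hψ, hψ'⟩ := conf hr (N := N + 1)
    (fun k => (2 : ℝ) ^ (-(((k : ℕ) : ℝ) / ((N + 1 : ℕ) : ℝ)))) (fun _ => HopfFin.rad (N + 1))
    (fun k => 2 * Real.pi * (((k : ℕ) : ℝ) / ((N + 1 : ℕ) : ℝ)))
    (fun k => if (k : ℕ) < N then (2 : ℝ) ^ (-((sgm d k : ℝ) / (N : ℝ))) else 1)
    (fun k => if (k : ℕ) < N then HopfFin.rad N else ρ)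
    (fun k => if (k : ℕ) < N then 2 * Real.pi * ((sgm d k : ℝ) / (N : ℝ)) else 0)
    (fun k => (Real.cos (2 * Real.pi * (((k : ℕ) : ℝ) / ((N + 1 : ℕ) : ℝ))),
      Real.sin (2 * Real.pi * (((k : ℕ) : ℝ) / ((N + 1 : ℕ) : ℝ)))))
    (fun k => if (k : ℕ) < N then (Real.cos (2 * Real.pi * ((sgm d k : ℝ) / (N : ℝ))),
      Real.sin (2 * Real.pi * ((sgm d k : ℝ) / (N : ℝ)))) else (0, 0))
    (fun k => by positivity) (fun _ => (rad_Rearr N.succ_pos).1)
    (fun k => by
      split_ifs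
      · positivity
      · exact one_pos)
    (fun k => by
      split_ifs
      · exact (rad_Rearr hN0).1
      · exact hρ)
    (fun i j hij => dist_centres N.succ_pos i.2 j.2 (fun h => hij (Fin.ext h)))
    (fun i j hij => by
      have hr8 := (rad_Rearr hN0).2
      have hij' : (i : ℕ) ≠ j := fun h => hij (Fin.ext h)
      by_cases hi : (i : ℕ) < N
      · by_cases hj : (j : ℕ) < N
        · rw [if_pos hi, if_pos hj, if_pos hi, if_pos hj]
          refine dist_centres hN0 (hlt _ hi) (hlt _ hj) fun h => hij' ?_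
          rw [← sgm_sgm hd i, h, sgm_sgm hd j]
        · rw [if_pos hi, if_neg hj, if_pos hi, if_neg hj, nrm_Rearr]
          linarith
      · have hj : (j : ℕ) < N := by
          have := i.2
          have := j.2
          omega
        rw [if_neg hi, if_pos hj, if_neg hi, if_pos hj, norm_sub_rev, nrm_Rearr]
        linarith)
  refine ⟨ψ, hψ, fun k hk x hx => ?_, fun x hx => ?_⟩
  · have h1 := hψ' ⟨k, hk.trans N.lt_succ_self⟩ _ (mem_Rearr hr (k / 1 + k % 1) hx)
    dsimp only at h1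
    rw [if_pos hk, if_pos hk, if_pos hk, if_pos hk] at h1
    rw [PT_apply hr N.succ_pos, PT_apply hr hN0, h1,
      par_Rearr hr (a := sgm d k / (2 * d) + sgm d k % (2 * d)) (b := k / 1 + k % 1)
        (by rw [sgm_parity hd, Nat.div_one, Nat.mod_one, add_zero])]
  · have h1 := hψ' ⟨N, N.lt_succ_self⟩ _ (mem_Rearr hr (N / 1 + N % 1) hx)
    dsimp only at h1
    rw [if_neg (lt_irrefl N), if_neg (lt_irrefl N), if_neg (lt_irrefl N), if_neg (lt_irrefl N)]
      at h1
    have h2 : linH r ^ (N / 1 + N % 1) = 1 := by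
      rw [par_Rearr hr (a := N / 1 + N % 1) (b := 0) (by
        rw [Nat.div_one, Nat.mod_one, add_zero, hN]
        have : n * (2 * d) = 2 * (n * d) := by ring
        rw [this, Nat.mul_mod_right]), pow_zero]
    rw [PT_apply hr N.succ_pos, h1, h2, plr_cen]
    rfl

end Pool.Agent.HopfTw
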